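import Pool.Agent.H815R3.GSH.Schutz

/-! Automata which are counter-free away from one state `b`; counting the visits of `b` modulo any
number by languages of generalized star height one. -/

set_option autoImplicit false

namespace Pool.Agent.H815R3.GSH

open Pool.Agent.H936R2.SH

section

variable {Q α : Type}

open Classical in
/-- the automaton with the state `b` deleted -/
noncomputable def dl0 (δ : Q → α → Q) (b : Q) : Option Q → α → Option Q
  | none, _ => none
  | some q, a => if δ q a = b then none else some (δ q a)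

/-- counter-free away from `b` -/
def CFb (δ : Q → α → Q) (b : Q) : Prop :=
  ∀ (q : Q) (u : List α) (k : ℕ), 0 < k →
    (fun r => u.foldl (dl0 δ b) r)^[k] (some q) = some q → u.foldl (dl0 δ b) (some q) = some q

theorem foldl_none (δ : Q → α → Q) (b : Q) (u : List α) :
    u.foldl (dl0 δ b) none = none := by
  induction u with
  | nil => rfl
  | cons a u ih => exact ih

theorem foldl_dl0 (δ : Q → α → Q) (b : Q) (u : List α) (p q : Q) :
    u.foldl (dl0 δ b) (some p) = some q ↔ Nv δ b p u ∧ u.foldl δ p = q := by
  induction u generalizing p with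
  | nil => simp [Nv]
  | cons a u ih =>
    rw [List.foldl_cons, List.foldl_cons, dl0]
    by_cases h : δ p a = b
    · rw [if_pos h, foldl_none]
      simp [Nv, h]
    · rw [if_neg h, ih]
      simp [Nv, h]

theorem run1 [Finite Q] [Finite α] {δ : Q → α → Q} {b : Q} (h : CFb δ b) (p q : Q) :
    HS 1 {w : List α | w.foldl δ p = q} := by
  apply HS.run δ b
  intro p q
  have hCF : CF (dl0 δ b) (Set.univ : Set α) := by
    intro o u k _ hk ho
    cases o with
    | none => exact foldl_none δ b u
    | some r => exact h r u k hk ho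
  have := schutz _ (Option Q) le_rfl α (dl0 δ b) _ Set.univ le_rfl hCF (some p) (some q)
  convert this using 1
  ext w
  simp only [Pa, Set.mem_ofPred_eq, Set.mem_univ, implies_true, true_and]
  rw [foldl_dl0]

/-! ### Counting visits -/

open Classical in
/-- the product with a counter of the visits of `b` -/
noncomputable def dM (δ : Q → α → Q) (b : Q) (M : ℕ) (x : Q × ZMod M) (a : α) : Q × ZMod M :=
  (δ x.1 a, if δ x.1 a = b then x.2 + 1 else x.2)

theorem claimA (δ : Q → α → Q) (b : Q) (M : ℕ) (w : List α) (q q' : Q) (c c' : ZMod M)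
    (h : w.foldl (dl0 (dM δ b M) (b, 0)) (some (q, c)) = some (q', c')) :
    ∃ v : ℕ, c' = c + v ∧ (∀ j : ℕ, 1 ≤ j → j ≤ v → c + j ≠ 0) ∧
      (v = 0 → w.foldl (dl0 δ b) (some q) = some q') := by
  induction w generalizing q c with
  | nil =>
    simp only [List.foldl_nil, Option.some.injEq, Prod.mk.injEq] at h
    refine ⟨0, by simp [h.2], fun j h1 h2 => by omega, fun _ => by simp [h.1]⟩
  | cons a w ih =>
    rw [List.foldl_cons, dl0] at h
    by_cases h0 : dM δ b M (q, c) a = (b, 0)
    · rw [if_pos h0, foldl_none] at h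
      exact absurd h (by simp)
    · rw [if_neg h0] at h
      obtain ⟨v, h1, h2, h3⟩ := ih _ _ h
      by_cases hb : δ q a = b
      · have hc : c + 1 ≠ 0 := by
          intro hc
          apply h0
          simp [dM, hb, hc]
        simp only [hb, if_true] at h1 h2
        refine ⟨v + 1, ?_, ?_, fun h => by omega⟩
        · rw [h1]; push_cast; ring
        · intro j hj1 hj2
          rcases Nat.lt_or_ge 1 j with hj | hj
          · have := h2 (j - 1) (by omega) (by omega)
            intro h4
            apply this
            rw [← h4]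
            have : ((j : ℕ) : ZMod M) = ((j - 1 : ℕ) : ZMod M) + 1 := by
              rw [← Nat.cast_succ]
              congr 1
              omega
            rw [this]; ring
          · have : j = 1 := by omega
            subst this
            simpa using hc
      · simp only [hb, if_false] at h1 h2
        refine ⟨v, h1, h2, ?_⟩
        intro hv
        rw [List.foldl_cons, dl0, if_neg hb]
        exact h3 hv

theorem claimB (δ : Q → α → Q) (b : Q) (M : ℕ) (w : List α) (q q' : Q) (c : ZMod M)
    (h : w.foldl (dl0 δ b) (some q) = some q') :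
    w.foldl (dl0 (dM δ b M) (b, 0)) (some (q, c)) = some (q', c) := by
  induction w generalizing q with
  | nil =>
    simp only [List.foldl_nil, Option.some.injEq] at h
    simp [h]
  | cons a w ih =>
    rw [List.foldl_cons, dl0] at h
    by_cases hb : δ q a = b
    · rw [if_pos hb, foldl_none] at h
      exact absurd h (by simp)
    · rw [if_neg hb] at h
      have h1 : dM δ b M (q, c) a = (δ q a, c) := by simp [dM, hb]
      rw [List.foldl_cons, dl0, h1, if_neg (fun h2 => hb (Prod.mk.inj h2).1)]
      exact ih _ h

theorem foldl_pow {X : Type} (f : X → α → X) (u : List α) (k : ℕ) (x : X) :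
    (fun r => u.foldl f r)^[k] x = ((List.replicate k u).flatten).foldl f x := by
  induction k generalizing x with
  | zero => rfl
  | succ k ih =>
    rw [Function.iterate_succ_apply, ih, List.replicate_succ, List.flatten_cons,
      List.foldl_append]

theorem CFb.prod {δ : Q → α → Q} {b : Q} (h : CFb δ b) (M : ℕ) (hM : 0 < M) :
    CFb (dM δ b M) (b, 0) := by
  rintro ⟨q, c⟩ u k hk hit
  have : NeZero M := ⟨hM.ne'⟩
  rw [foldl_pow] at hit
  obtain ⟨v, h1, h2, h3⟩ := claimA δ b M _ q q c c hit
  have hv0 : (v : ZMod M) = 0 := by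
    have : c + v = c + 0 := by rw [← h1, add_zero]
    exact add_left_cancel this
  have hv : v = 0 := by
    by_contra hne
    have hdvd : M ∣ v := (ZMod.natCast_eq_zero_iff v M).1 hv0
    have hMv : M ≤ v := Nat.le_of_dvd (by omega) hdvd
    have hlt : (-c : ZMod M).val < M := ZMod.val_lt _
    rcases Nat.eq_zero_or_pos (-c : ZMod M).val with hz | hp
    · have hc : c = 0 := by
        rw [ZMod.val_eq_zero] at hz
        exact neg_eq_zero.1 hz
      apply h2 M (by omega) hMv
      rw [hc]; simp
    · apply h2 _ hp (by omega)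
      rw [ZMod.natCast_zmod_val]; ring
  have h4 := h3 hv
  rw [← foldl_pow] at h4
  exact claimB δ b M u q q c (h q u k hk h4)

end

/-! ### Prefix counts -/

section

variable {α : Type}

open Classical in
/-- the number of prefixes with a property -/
noncomputable def pc (P : List α → Prop) (w : List α) : ℤ :=
  ∑ i ∈ Finset.range (w.length + 1), if P (w.take i) then 1 else 0

open Classical in
theorem pc_nil (P : List α → Prop) : pc P [] = if P [] then 1 else 0 := by
  simp [pc]

open Classical in
theorem pc_snoc (P : List α → Prop) (w : List α) (y : α) :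
    pc P (w ++ [y]) = pc P w + if P (w ++ [y]) then 1 else 0 := by
  unfold pc
  rw [List.length_append, List.length_singleton, Finset.sum_range_succ]
  congr 1
  · apply Finset.sum_congr rfl
    intro i hi
    rw [Finset.mem_range] at hi
    rw [List.take_append_of_le_length (by omega)]
  · rw [List.take_of_length_le (by simp)]

theorem pc_congr {P P' : List α → Prop} (h : ∀ u, P u ↔ P' u) (w : List α) : pc P w = pc P' w := by
  have : P = P' := funext fun u => propext (h u)
  rw [this]

theorem pc_split (P A : List α → Prop) (w : List α) :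
    pc P w = pc (fun u => P u ∧ A u) w + pc (fun u => P u ∧ ¬ A u) w := by
  classical
  unfold pc
  rw [← Finset.sum_add_distrib]
  apply Finset.sum_congr rfl
  intro i _
  by_cases h1 : P (w.take i) <;> by_cases h2 : A (w.take i) <;> simp [h1, h2]

theorem pc_sum {ι : Type} [Fintype ι] (P : List α → Prop) (g : List α → ι) (w : List α) :
    pc P w = ∑ i : ι, pc (fun u => P u ∧ g u = i) w := by
  classical
  unfold pc
  rw [Finset.sum_comm]
  apply Finset.sum_congr rfl
  intro i _
  by_cases h1 : P (w.take i) <;> simp [h1]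

/-- integer functions of words all of whose reductions are computed in height one -/
def Ct (f : List α → ℤ) : Prop :=
  ∀ M : ℕ, 0 < M → ∀ r : ZMod M, HS 1 {w : List α | ((f w : ℤ) : ZMod M) = r}

theorem dM_run {Q : Type} (δ : Q → α → Q) (b : Q) (M : ℕ) (q : Q) (w : List α) :
    w.foldl (dM δ b M) (q, 0) =
      (w.foldl δ q, ((pc (fun u => u ≠ [] ∧ u.foldl δ q = b) w : ℤ) : ZMod M)) := by
  classical
  induction w using List.reverseRecOn with
  | nil => simp [pc_nil]
  | append_singleton w y ih =>
    rw [List.foldl_append, ih, List.foldl_cons, List.foldl_nil, pc_snoc, dM, List.foldl_append,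
      List.foldl_cons, List.foldl_nil]
    simp only [Prod.mk.injEq, true_and]
    by_cases h : δ (w.foldl δ q) y = b
    · rw [if_pos h, if_pos ⟨by simp, h⟩]
      push_cast; ring
    · rw [if_neg h, if_neg (fun h' => h h'.2)]
      push_cast; ring

theorem Ct.vis {Q : Type} [Finite Q] [Finite α] {δ : Q → α → Q} {b : Q} (h : CFb δ b) (q : Q) :
    Ct (pc (fun u : List α => u ≠ [] ∧ u.foldl δ q = b)) := by
  intro M hM r
  have : NeZero M := ⟨hM.ne'⟩
  have h1 : HS 1 (⋃ q' : Q, {w : List α | w.foldl (dM δ b M) (q, 0) = (q', r)}) :=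
    HS.iUnion _ fun q' => run1 (h.prod M hM) _ _
  convert h1 using 1
  ext w
  simp only [Set.mem_ofPred_eq, Set.mem_iUnion, dM_run, Prod.mk.injEq]
  constructor
  · intro h; exact ⟨_, rfl, h⟩
  · rintro ⟨_, _, h⟩; exact h

theorem Ct.const (c : ℤ) : Ct (fun _ : List α => c) := by
  intro M hM r
  by_cases h : ((c : ℤ) : ZMod M) = r
  · convert HS.univ (α := α) 1 using 1
    ext w; simp [h]
  · convert HS.empty (α := α) 1 using 1
    ext w; simp [h]

theorem Ct.add {f g : List α → ℤ} (hf : Ct f) (hg : Ct g) : Ct (fun w => f w + g w) := by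
  intro M hM r
  have : NeZero M := ⟨hM.ne'⟩
  have h1 : HS 1 (⋃ s : ZMod M, ({w : List α | ((f w : ℤ) : ZMod M) = s} ∩
      {w : List α | ((g w : ℤ) : ZMod M) = r - s})) :=
    HS.iUnion _ fun s => (hf M hM s).inter (hg M hM _)
  convert h1 using 1
  ext w
  simp only [Set.mem_ofPred_eq, Set.mem_iUnion, Set.mem_inter_iff]
  constructor
  · intro h
    refine ⟨_, rfl, ?_⟩
    rw [← h]; push_cast; ring
  · rintro ⟨s, h1, h2⟩
    push_cast
    rw [h1, h2]; ring

theorem Ct.smul {f : List α → ℤ} (c : ℤ) (hf : Ct f) : Ct (fun w => c * f w) := by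
  intro M hM r
  have : NeZero M := ⟨hM.ne'⟩
  have h1 : HS 1 (⋃ s : ZMod M, {w : List α | (((c : ℤ) : ZMod M) * s = r) ∧
      w ∈ {w : List α | ((f w : ℤ) : ZMod M) = s}}) :=
    HS.iUnion _ fun s => HS.cond _ fun _ => hf M hM s
  convert h1 using 1
  ext w
  simp only [Set.mem_ofPred_eq, Set.mem_iUnion]
  constructor
  · intro h
    exact ⟨_, by rw [← h]; push_cast; ring, rfl⟩
  · rintro ⟨s, h1, h2⟩
    push_cast
    rw [h2, h1]

theorem Ct.sub {f g : List α → ℤ} (hf : Ct f) (hg : Ct g) : Ct (fun w => f w - g w) := by
  have := hf.add (hg.smul (-1))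
  convert this using 2
  ring

theorem Ct.sum {ι : Type} (s : Finset ι) (f : ι → List α → ℤ) (h : ∀ i ∈ s, Ct (f i)) :
    Ct (fun w => ∑ i ∈ s, f i w) := by
  classical
  induction s using Finset.induction_on with
  | empty => simpa using Ct.const (α := α) 0
  | insert a s ha ih =>
    have := (h a (Finset.mem_insert_self _ _)).add
      (ih fun i hi => h i (Finset.mem_insert_of_mem hi))
    convert this using 2
    rw [Finset.sum_insert ha]

theorem Ct.div {f : List α → ℤ} (k : ℕ) (hk : 0 < k) (h : Ct (fun w => (k : ℤ) * f w)) : Ct f := by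
  intro M hM r
  have : NeZero M := ⟨hM.ne'⟩
  have h1 := h (k * M) (Nat.mul_pos hk hM) (((k * r.val : ℕ) : ℤ) : ZMod (k * M))
  convert h1 using 1
  ext w
  simp only [Set.mem_ofPred_eq]
  have e1 : ((f w : ℤ) : ZMod M) = r ↔ ((f w : ℤ) : ZMod M) = (((r.val : ℕ) : ℤ) : ZMod M) := by
    rw [Int.cast_natCast, ZMod.natCast_zmod_val]
  rw [e1, ZMod.intCast_eq_intCast_iff_dvd_sub, ZMod.intCast_eq_intCast_iff_dvd_sub]
  push_cast
  rw [← mul_sub]
  exact (mul_dvd_mul_iff_left (by exact_mod_cast hk.ne')).symm

/-- A function given by cases according to a height one classification. -/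
theorem Ct.cases {ι : Type} [Finite ι] (g : List α → ι) (hg : ∀ i, HS 1 {w : List α | g w = i})
    (f : ι → List α → ℤ) (hf : ∀ i, Ct (f i)) : Ct (fun w => f (g w) w) := by
  intro M hM r
  have h1 : HS 1 (⋃ i : ι, ({w : List α | g w = i} ∩
      {w : List α | ((f i w : ℤ) : ZMod M) = r})) :=
    HS.iUnion _ fun i => (hg i).inter (hf i M hM r)
  convert h1 using 1
  ext w
  simp only [Set.mem_ofPred_eq, Set.mem_iUnion, Set.mem_inter_iff]
  constructor
  · intro h; exact ⟨_, rfl, h⟩
  · rintro ⟨i, rfl, h⟩; exact h

/-! ### Reversal -/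

theorem HS.rev {n : ℕ} {X : Set (List α)} (h : HS n X) : HS n {w : List α | w.reverse ∈ X} := by
  induction h with
  | empty n => exact HS.empty n
  | eps n =>
    convert HS.eps (α := α) n using 1
    ext w; simp
  | letter n a =>
    convert HS.letter n a using 1
    ext w
    simp only [Set.mem_ofPred_eq, Set.mem_singleton_iff]
    rw [List.reverse_eq_iff]; simp
  | union _ _ h1 h2 => exact h1.union h2
  | @cat m X Y _ _ h1 h2 =>
    convert h2.cat h1 using 1
    ext w
    constructor
    · rintro ⟨x, hx, y, hy, hxy⟩
      refine ⟨y.reverse, by simpa using hy, x.reverse, by simpa using hx, ?_⟩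
      change x ++ y = w.reverse at hxy
      change y.reverse ++ x.reverse = w
      rw [← List.reverse_append, hxy, List.reverse_reverse]
    · rintro ⟨y, hy, x, hx, rfl⟩
      exact ⟨x.reverse, hx, y.reverse, hy, by simp⟩
  | compl _ h1 => exact h1.compl
  | @star m X _ h1 =>
    convert h1.star using 1
    ext w
    constructor
    · rintro ⟨l, hl, hw⟩
      refine ⟨(l.map List.reverse).reverse, ?_, ?_⟩
      · intro x hx
        simp only [List.mem_reverse, List.mem_map] at hx
        obtain ⟨y, hy, rfl⟩ := hx
        simpa using hl y hy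
      · rw [← List.reverse_reverse w, hw, List.reverse_flatten]
    · rintro ⟨l, hl, rfl⟩
      refine ⟨(l.map List.reverse).reverse, ?_, ?_⟩
      · intro x hx
        simp only [List.mem_reverse, List.mem_map] at hx
        obtain ⟨y, hy, rfl⟩ := hx
        exact hl y hy
      · rw [List.reverse_flatten]

theorem Ct.rev {f : List α → ℤ} (h : Ct f) : Ct (fun w => f w.reverse) := by
  intro M hM r
  exact HS.rev (h M hM r)

end

end Pool.Agent.H815R3.GSH
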