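import Pool.Agent.H815R3.GSH.Ident

/-! From `ZMod p` to finite vector spaces over `ZMod p`. -/

set_option autoImplicit false
set_option linter.unusedSectionVars false

namespace Pool.Agent.H815R3.GSH

open Pool.Agent.H936R2.SH

section

variable (p : ℕ) [Fact p.Prime] {V : Type} [AddCommGroup V] [Module (ZMod p) V] [Finite V]

instance finDual : Finite (V →ₗ[ZMod p] ZMod p) :=
  Finite.of_injective (fun l => (l : V → ZMod p)) DFunLike.coe_injective

theorem card_kernel (z : V) (hz : z ≠ 0) :
    Nat.card {l : V →ₗ[ZMod p] ZMod p // l z = 0} * p = Nat.card (V →ₗ[ZMod p] ZMod p) := by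
  obtain ⟨l0, hl0⟩ : ∃ l : V →ₗ[ZMod p] ZMod p, l z ≠ 0 := by
    by_contra h
    push Not at h
    exact hz ((Module.forall_dual_apply_eq_zero_iff (ZMod p) z).1 h)
  let ev : (V →ₗ[ZMod p] ZMod p) →+ ZMod p :=
    { toFun := fun l => l z, map_zero' := rfl, map_add' := fun _ _ => rfl }
  have hsurj : Function.Surjective ev := by
    intro c
    refine ⟨(c * (l0 z)⁻¹) • l0, ?_⟩
    change (c * (l0 z)⁻¹) * l0 z = c
    rw [mul_assoc, inv_mul_cancel₀ hl0, mul_one]
  have h1 := AddSubgroup.card_mul_index ev.ker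
  rw [AddSubgroup.index_ker, AddMonoidHom.range_eq_top.2 hsurj] at h1
  have h2 : Nat.card (⊤ : AddSubgroup (ZMod p)) = p := by
    rw [AddSubgroup.card_top, Nat.card_zmod]
  rw [h2] at h1
  exact h1

variable {α : Type} [Finite α] (v : α → V) (a : α)

/-- arrivals at `x` by the letter `a` -/
noncomputable def T (x : V) (w : List α) : ℤ :=
  pc (fun u : List α => (u.map v).sum = x ∧ En a u) w

theorem ps_comp (l : V →ₗ[ZMod p] ZMod p) (u : List α) :
    ps (fun b => l (v b)) u = l ((u.map v).sum) := by
  induction u with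
  | nil => simp [ps]
  | cons b u ih =>
    rw [ps_cons, ih, List.map_cons, List.sum_cons, map_add]

open Classical in
theorem T_sum (x : V) (l : V →ₗ[ZMod p] ZMod p) (w : List α) :
    Mq (fun b => l (v b)) a (-(l x)) w =
      ∑ᶠ y : V, (if l (y - x) = 0 then T v a y w else 0) := by
  have := Fintype.ofFinite V
  rw [finsum_eq_sum_of_fintype, Mq, pc_sum _ (fun u => (u.map v).sum)]
  apply Finset.sum_congr rfl
  intro y _
  split_ifs with h
  · apply pc_congr
    intro u
    rw [ps_comp]
    constructor
    · rintro ⟨⟨_, h2⟩, h3⟩; exact ⟨h3, h2⟩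
    · rintro ⟨h3, h2⟩
      refine ⟨⟨?_, h2⟩, h3⟩
      rw [h3, ← sub_eq_neg_add, ← map_sub]; exact h
  · have : pc (fun u : List α => (-(l x) + ps (fun b => l (v b)) u = 0 ∧ En a u) ∧
        (u.map v).sum = y) w = pc (fun _ => False) w := by
      apply pc_congr
      intro u
      rw [ps_comp]
      constructor
      · rintro ⟨⟨h1, _⟩, h3⟩
        apply h
        rw [h3, ← sub_eq_neg_add, ← map_sub] at h1
        exact h1
      · exact fun h => h.elim
    rw [this]
    simp [pc]

include p in
theorem Ct_T (x : V) : Ct (T v a x) := by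
  classical
  have hp : p.Prime := Fact.out
  have := Fintype.ofFinite V
  have := Fintype.ofFinite (V →ₗ[ZMod p] ZMod p)
  set D := Nat.card (V →ₗ[ZMod p] ZMod p) with hD
  have hDpos : 0 < D := Nat.card_pos
  have hlt : D / p < D := Nat.div_lt_self hDpos hp.one_lt
  apply Ct.div (D - D / p) (by omega)
  have h1 : Ct (fun w => ∑ l : V →ₗ[ZMod p] ZMod p, Mq (fun b => l (v b)) a (-(l x)) w
      - ((D / p : ℕ) : ℤ) * pc (En a) w) :=
    (Ct.sum Finset.univ (fun (l : V →ₗ[ZMod p] ZMod p) w => Mq (fun b => l (v b)) a (-(l x)) w)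
      (fun l _ => Ct_M _ a _)).sub ((Ct_En a).smul _)
  refine h1.congr fun w => ?_
  have h2 : ∑ l : V →ₗ[ZMod p] ZMod p, Mq (fun b => l (v b)) a (-(l x)) w =
      ∑ y : V, ((Nat.card {l : V →ₗ[ZMod p] ZMod p // l (y - x) = 0} : ℕ) : ℤ) * T v a y w := by
    simp only [T_sum, finsum_eq_sum_of_fintype]
    rw [Finset.sum_comm]
    apply Finset.sum_congr rfl
    intro y _
    rw [← Finset.sum_filter, Finset.sum_const, Nat.card_eq_fintype_card, Fintype.card_subtype,
      nsmul_eq_mul]
  have h3 : pc (En a) w = ∑ y : V, T v a y w := by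
    rw [pc_sum (En a) (fun u => (u.map v).sum)]
    apply Finset.sum_congr rfl
    intro y _
    apply pc_congr
    intro u
    exact and_comm
  have h4 : ∀ y : V, Nat.card {l : V →ₗ[ZMod p] ZMod p // l (y - x) = 0} =
      D / p + if y = x then D - D / p else 0 := by
    intro y
    split_ifs with h
    · subst h
      have : Nat.card {l : V →ₗ[ZMod p] ZMod p // l (y - y) = 0} = D := by
        rw [hD]
        apply Nat.card_congr
        exact Equiv.subtypeUnivEquiv (fun l => by simp)
      rw [this]; omega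
    · have := card_kernel p (y - x) (sub_ne_zero.2 h)
      rw [← hD] at this
      rw [← this, Nat.mul_div_cancel _ hp.pos]; simp
  rw [h2, h3]
  simp only [h4]
  push_cast
  simp only [add_mul, Finset.sum_add_distrib, ← Finset.mul_sum]
  have h5 : ∑ y : V, (((if y = x then D - D / p else 0 : ℕ) : ℤ)) * T v a y w =
      ((D - D / p : ℕ) : ℤ) * T v a x w := by
    rw [Finset.sum_eq_single x]
    · simp
    · intro y _ hy; simp [hy]
    · intro h; exact absurd (Finset.mem_univ _) h
  push_cast at h5
  rw [h5]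
  ring

include p in
theorem HS_V (a : α) (x : V) : HS 1 {w : List α | (w.map v).sum = x} := by
  have h : HS 1 (⋂ l : V →ₗ[ZMod p] ZMod p, {w : List α | ps (fun b => l (v b)) w = l x}) :=
    HS.iInter _ fun l => HS_ps _ a _
  convert h using 1
  ext w
  rw [Set.mem_iInter]
  constructor
  · intro h l
    change (w.map v).sum = x at h
    change ps (fun b => l (v b)) w = l x
    rw [ps_comp, h]
  · intro h
    change (w.map v).sum = x
    rw [← sub_eq_zero]
    apply (Module.forall_dual_apply_eq_zero_iff (ZMod p) _).1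
    intro l
    have := h l
    change ps (fun b => l (v b)) w = l x at this
    rw [ps_comp] at this
    rw [map_sub, this, sub_self]

end

end Pool.Agent.H815R3.GSH
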