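import Pool.Agent.H815R3.GSH.Elem

/-! Languages recognised by a group with an abelian normal subgroup whose quotient is an
elementary abelian `p`-group have generalized star height at most one. -/

set_option autoImplicit false
set_option linter.unusedSectionVars false
set_option linter.style.haveILetI false

namespace Pool.Agent.H815R3.GSH

open Pool.Agent.H936R2.SH

theorem HS_empty_alphabet {α : Type} [IsEmpty α] (X : Set (List α)) : HS 1 X := by
  have hnil : ∀ w : List α, w = [] := fun w => by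
    cases w with
    | nil => rfl
    | cons a w => exact isEmptyElim a
  by_cases h : ([] : List α) ∈ X
  · have : X = Set.univ := Set.eq_univ_of_forall fun w => by rw [hnil w]; exact h
    rw [this]; exact HS.univ 1
  · have : X = ∅ := Set.eq_empty_of_forall_notMem fun w => by rw [hnil w]; exact h
    rw [this]; exact HS.empty 1

section

variable {G : Type} [Group G] [Finite G] (N : Subgroup G) [N.Normal]

/-- the quotient as a commutative group -/
@[reducible] def qComm (hc : ∀ g h : G, g * h * g⁻¹ * h⁻¹ ∈ N) : CommGroup (G ⧸ N) :=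
  { (inferInstance : Group (G ⧸ N)) with
    mul_comm := by
      intro x y
      induction x using QuotientGroup.induction_on with
      | H g =>
        induction y using QuotientGroup.induction_on with
        | H h =>
          change ((g * h : G) : G ⧸ N) = ((h * g : G) : G ⧸ N)
          rw [QuotientGroup.eq]
          have := hc h⁻¹ g⁻¹
          simpa [mul_assoc] using this }

variable {α : Type} [Finite α] (f : α → G)

/-- occurrences of `a` at the state `h` -/
noncomputable def K (h : G ⧸ N) (a : α) (w : List α) : ℤ :=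
  pc (fun u : List α => ∃ u', u = u' ++ [a] ∧ (((u'.map f).prod : G) : G ⧸ N) = h) w

open Classical in
theorem K_snoc (h : G ⧸ N) (a : α) (w : List α) (y : α) :
    K N f h a (w ++ [y]) =
      K N f h a w + if y = a ∧ (((w.map f).prod : G) : G ⧸ N) = h then 1 else 0 := by
  unfold K
  rw [pc_snoc]
  congr 1
  apply if_congr _ rfl rfl
  constructor
  · rintro ⟨u', h1, h2⟩
    have h3 := List.append_inj' h1 rfl
    refine ⟨by simpa using h3.2, ?_⟩
    rw [h3.1]; exact h2
  · rintro ⟨rfl, h2⟩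
    exact ⟨w, rfl, h2⟩

theorem K_nil (h : G ⧸ N) (a : α) : K N f h a [] = 0 := by
  unfold K
  rw [pc_nil, if_neg]
  rintro ⟨u', h1, _⟩
  simp at h1

theorem ofMul_prod (hc : ∀ g h : G, g * h * g⁻¹ * h⁻¹ ∈ N) (u : List α) :
    letI := qComm N hc
    ((u.map (fun b => Additive.ofMul ((f b : G) : G ⧸ N))).sum : Additive (G ⧸ N)) =
      Additive.ofMul (((u.map f).prod : G) : G ⧸ N) := by
  letI := qComm N hc
  induction u with
  | nil => rfl
  | cons b u ih =>
    rw [List.map_cons, List.sum_cons, ih, List.map_cons, List.prod_cons]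
    rfl

theorem Ct_K (p : ℕ) [Fact p.Prime] (hc : ∀ g h : G, g * h * g⁻¹ * h⁻¹ ∈ N)
    (hp : ∀ g : G, g ^ p ∈ N) (h : G ⧸ N) (a : α) : Ct (K N f h a) := by
  letI := qComm N hc
  have hmod : ∀ x : Additive (G ⧸ N), p • x = 0 := by
    intro x
    change Additive.ofMul (x.toMul ^ p) = 0
    have : ∀ y : G ⧸ N, y ^ p = 1 := by
      intro y
      induction y using QuotientGroup.induction_on with
      | H g =>
        change ((g ^ p : G) : G ⧸ N) = 1
        rw [QuotientGroup.eq_one_iff]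
        exact hp g
    rw [this]; rfl
  letI : Module (ZMod p) (Additive (G ⧸ N)) := AddCommGroup.zmodModule hmod
  have : Finite (Additive (G ⧸ N)) := inferInstanceAs (Finite (G ⧸ N))
  set v : α → Additive (G ⧸ N) := fun b => Additive.ofMul ((f b : G) : G ⧸ N) with hv
  have h1 := Ct_T p v a (Additive.ofMul h + v a)
  refine h1.congr fun w => ?_
  apply pc_congr
  intro u
  rcases List.eq_nil_or_concat u with rfl | ⟨u', y, rfl⟩
  · constructor
    · rintro ⟨_, u', h2⟩; simp at h2
    · rintro ⟨u', h2, _⟩; simp at h2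
  · rw [List.concat_eq_append, En_snoc, List.map_append, List.sum_append, ofMul_prod N f hc]
    constructor
    · rintro ⟨h2, rfl⟩
      refine ⟨u', rfl, ?_⟩
      simp only [List.map_cons, List.map_nil, List.sum_cons, List.sum_nil, add_zero] at h2
      exact Additive.ofMul.injective (add_right_cancel h2)
    · rintro ⟨u'', h2, h3⟩
      have h4 := List.append_inj' h2 rfl
      have h5 : y = a := by simpa using h4.2
      refine ⟨?_, h5⟩
      rw [h4.1, h3, h5]
      simp

theorem HS_quot (p : ℕ) [Fact p.Prime] (hc : ∀ g h : G, g * h * g⁻¹ * h⁻¹ ∈ N)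
    (hp : ∀ g : G, g ^ p ∈ N) (a : α) (h : G ⧸ N) :
    HS 1 {w : List α | (((w.map f).prod : G) : G ⧸ N) = h} := by
  letI := qComm N hc
  have hmod : ∀ x : Additive (G ⧸ N), p • x = 0 := by
    intro x
    change Additive.ofMul (x.toMul ^ p) = 0
    have : ∀ y : G ⧸ N, y ^ p = 1 := by
      intro y
      induction y using QuotientGroup.induction_on with
      | H g =>
        change ((g ^ p : G) : G ⧸ N) = 1
        rw [QuotientGroup.eq_one_iff]
        exact hp g
    rw [this]; rfl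
  letI : Module (ZMod p) (Additive (G ⧸ N)) := AddCommGroup.zmodModule hmod
  have : Finite (Additive (G ⧸ N)) := inferInstanceAs (Finite (G ⧸ N))
  have h1 := HS_V p (fun b : α => Additive.ofMul ((f b : G) : G ⧸ N)) a (Additive.ofMul h)
  convert h1 using 1
  ext w
  rw [Set.mem_ofPred_eq, Set.mem_ofPred_eq, ofMul_prod N f hc]
  exact Additive.ofMul.injective.eq_iff.symm

/-- section of the quotient map -/
noncomputable def sec (h : G ⧸ N) : G := h.out

theorem sec_spec (h : G ⧸ N) : ((sec N h : G) : G ⧸ N) = h := QuotientGroup.out_eq' h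

/-- the cocycle -/
noncomputable def coc (x : (G ⧸ N) × α) : N :=
  ⟨sec N x.1 * f x.2 * (sec N (x.1 * ((f x.2 : G) : G ⧸ N)))⁻¹, by
    rw [← QuotientGroup.eq_one_iff]
    simp [sec_spec]⟩

/-- the normal subgroup as a commutative group -/
@[reducible] def nComm (hN : ∀ x ∈ N, ∀ y ∈ N, x * y = y * x) : CommGroup N :=
  { (inferInstance : Group N) with
    mul_comm := fun x y => Subtype.ext (hN x.1 x.2 y.1 y.2) }

theorem prod_formula (hN : ∀ x ∈ N, ∀ y ∈ N, x * y = y * x) [Fintype ((G ⧸ N) × α)]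
    (w : List α) :
    letI := nComm N hN
    (w.map f).prod = (sec N 1)⁻¹ *
      ((∏ x : (G ⧸ N) × α, (coc N f x) ^ (K N f x.1 x.2 w) : N) : G) *
      sec N (((w.map f).prod : G) : G ⧸ N) := by
  classical
  letI := nComm N hN
  induction w using List.reverseRecOn with
  | nil => simp [K_nil]
  | append_singleton w y ih =>
    have h1 : (∏ x : (G ⧸ N) × α, (coc N f x) ^ (K N f x.1 x.2 (w ++ [y])) : N) =
        (∏ x : (G ⧸ N) × α, (coc N f x) ^ (K N f x.1 x.2 w) : N) *
          coc N f ((((w.map f).prod : G) : G ⧸ N), y) := by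
      simp only [K_snoc, zpow_add, Finset.prod_mul_distrib]
      congr 1
      rw [Finset.prod_eq_single ((((w.map f).prod : G) : G ⧸ N), y)]
      · simp
      · rintro ⟨h, b⟩ _ hne
        rw [if_neg, zpow_zero]
        rintro ⟨h2, h3⟩
        exact hne (Prod.ext h3.symm h2.symm)
      · intro h; exact absurd (Finset.mem_univ _) h
    rw [h1]
    rw [List.map_append, List.prod_append]
    simp only [List.map_cons, List.map_nil, List.prod_cons, List.prod_nil, mul_one]
    conv_lhs => rw [ih]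
    rw [Subgroup.coe_mul]
    have h2 : ((((w.map f).prod * f y : G)) : G ⧸ N) =
        (((w.map f).prod : G) : G ⧸ N) * ((f y : G) : G ⧸ N) := rfl
    rw [h2]
    simp only [coc]
    group

/-- the element determined by the data -/
noncomputable def Phi (hN : ∀ x ∈ N, ∀ y ∈ N, x * y = y * x) [Fintype ((G ⧸ N) × α)] (m : ℕ)
    (d1 : (G ⧸ N) × α → ZMod m) (d2 : G ⧸ N) : G :=
  letI := nComm N hN
  (sec N 1)⁻¹ * ((∏ x : (G ⧸ N) × α, (coc N f x) ^ (((d1 x).val : ℕ) : ℤ) : N) : G) * sec N d2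

theorem Phi_eq (hN : ∀ x ∈ N, ∀ y ∈ N, x * y = y * x) [Fintype ((G ⧸ N) × α)]
    (m : ℕ) [NeZero m] (hm : Nat.card N = m) (d1 : (G ⧸ N) × α → ZMod m) (d2 : G ⧸ N)
    (w : List α) (hd1 : ∀ x, ((K N f x.1 x.2 w : ℤ) : ZMod m) = d1 x)
    (hd2 : (((w.map f).prod : G) : G ⧸ N) = d2) :
    (w.map f).prod = Phi N f hN m d1 d2 := by
  letI := nComm N hN
  rw [prod_formula N f hN w, Phi, hd2]
  have : (∏ x : (G ⧸ N) × α, (coc N f x) ^ (K N f x.1 x.2 w) : N) =
      (∏ x : (G ⧸ N) × α, (coc N f x) ^ (((d1 x).val : ℕ) : ℤ) : N) := by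
    apply Finset.prod_congr rfl
    intro x _
    rw [← hd1 x, ZMod.val_intCast, ← hm]
    exact (zpow_mod_natCard _ _).symm
  rw [this]

/-- the words with given data -/
def Dat (m : ℕ) (d1 : (G ⧸ N) × α → ZMod m) (d2 : G ⧸ N) : Set (List α) :=
  (⋂ x : (G ⧸ N) × α, {w : List α | ((K N f x.1 x.2 w : ℤ) : ZMod m) = d1 x}) ∩
    {w : List α | (((w.map f).prod : G) : G ⧸ N) = d2}

theorem HS_Dat (p : ℕ) [Fact p.Prime] (hc : ∀ g h : G, g * h * g⁻¹ * h⁻¹ ∈ N)
    (hp : ∀ g : G, g ^ p ∈ N) (a : α) (m : ℕ) (hm : 0 < m) (d1 : (G ⧸ N) × α → ZMod m)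
    (d2 : G ⧸ N) : HS 1 (Dat N f m d1 d2) := by
  have h1 : ∀ x : (G ⧸ N) × α, HS 1 {w : List α | ((K N f x.1 x.2 w : ℤ) : ZMod m) = d1 x} := by
    intro x
    have h := Ct_K N f p hc hp x.1 x.2
    exact h m hm (d1 x)
  have h2 : HS 1 {w : List α | (((w.map f).prod : G) : G ⧸ N) = d2} := by
    exact HS_quot N f p hc hp a d2
  have h3 : HS 1 (⋂ x : (G ⧸ N) × α, {w : List α | ((K N f x.1 x.2 w : ℤ) : ZMod m) = d1 x}) := by
    exact HS.iInter _ h1
  exact h3.inter h2

theorem main_aux (p : ℕ) [Fact p.Prime] (hN : ∀ x ∈ N, ∀ y ∈ N, x * y = y * x)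
    (hc : ∀ g h : G, g * h * g⁻¹ * h⁻¹ ∈ N) (hp : ∀ g : G, g ^ p ∈ N) (S : Set G) (a : α)
    (m : ℕ) [NeZero m] (hm : Nat.card N = m) (hm0 : 0 < m) :
    HS 1 {w : List α | (w.map f).prod ∈ S} := by
  have := Fintype.ofFinite ((G ⧸ N) × α)
  have h1 : HS 1 (⋃ d : ((G ⧸ N) × α → ZMod m) × (G ⧸ N),
      {w : List α | Phi N f hN m d.1 d.2 ∈ S ∧ w ∈ Dat N f m d.1 d.2}) :=
    HS.iUnion _ fun d => HS.cond _ fun _ => HS_Dat N f p hc hp a m hm0 d.1 d.2
  have h2 : {w : List α | (w.map f).prod ∈ S} = (⋃ d : ((G ⧸ N) × α → ZMod m) × (G ⧸ N),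
      {w : List α | Phi N f hN m d.1 d.2 ∈ S ∧ w ∈ Dat N f m d.1 d.2}) := by
    ext w
    constructor
    · intro hw
      refine Set.mem_iUnion.2 ⟨(fun x => ((K N f x.1 x.2 w : ℤ) : ZMod m),
        (((w.map f).prod : G) : G ⧸ N)), ?_, Set.mem_iInter.2 fun x => rfl, rfl⟩
      change Phi N f hN m _ _ ∈ S
      rw [← Phi_eq N f hN m hm _ _ w (fun _ => rfl) rfl]; exact hw
    · intro hw
      obtain ⟨d, hS, h2, h3⟩ := Set.mem_iUnion.1 hw
      rw [Set.mem_iInter] at h2
      change (w.map f).prod ∈ S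
      rw [Phi_eq N f hN m hm d.1 d.2 w h2 h3]
      exact hS
  rw [h2]
  exact h1

/-- **Main theorem.** -/
theorem main (p : ℕ) [Fact p.Prime] (hN : ∀ x ∈ N, ∀ y ∈ N, x * y = y * x)
    (hc : ∀ g h : G, g * h * g⁻¹ * h⁻¹ ∈ N) (hp : ∀ g : G, g ^ p ∈ N) (S : Set G) :
    HS 1 {w : List α | (w.map f).prod ∈ S} := by
  rcases isEmpty_or_nonempty α with hα | ⟨⟨a⟩⟩
  · exact HS_empty_alphabet _
  have hmpos : 0 < Nat.card N := Nat.card_pos
  obtain ⟨m, hm⟩ : ∃ m, Nat.card N = m := ⟨_, rfl⟩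
  rw [hm] at hmpos
  have : NeZero m := ⟨hmpos.ne'⟩
  exact main_aux N f p hN hc hp S a m hm hmpos

end

end Pool.Agent.H815R3.GSH
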