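import Pool.Agent.H815R3.GSH.Letter

/-! The identity between arrivals and departures, and the counting theorem for `ZMod p`. -/

set_option autoImplicit false
set_option linter.unusedSectionVars false

namespace Pool.Agent.H815R3.GSH

open Pool.Agent.H936R2.SH

theorem ite_iff {A B : Prop} (h : A ↔ B) (i1 : Decidable A) (i2 : Decidable B) :
    @ite ℤ A i1 1 0 = @ite ℤ B i2 1 0 := by
  by_cases hA : A
  · rw [if_pos hA, if_pos (h.1 hA)]
  · rw [if_neg hA, if_neg (fun hB => hA (h.2 hB))]

section

variable {p : ℕ} [Fact p.Prime] {α : Type} (ψ : α → ZMod p) (a : α)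

open Classical in
/-- the number of factorizations with a property -/
noncomputable def sc (P : List α → List α → Prop) (w : List α) : ℤ :=
  ∑ i ∈ Finset.range (w.length + 1), if P (w.take i) (w.drop i) then 1 else 0

/-- words starting with `a` -/
def St (v : List α) : Prop := ∃ v', v = a :: v'

/-- words starting with `a ^ p` -/
def Pf (p : ℕ) (a : α) (v : List α) : Prop := ∃ v', v = List.replicate p a ++ v'

/-- arrivals at `0` by `a` -/
noncomputable def Mq (x : ZMod p) (w : List α) : ℤ :=
  pc (fun u : List α => x + ps ψ u = 0 ∧ En a u) w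

theorem sc_split (P A : List α → List α → Prop) (w : List α) :
    sc P w = sc (fun u v => P u v ∧ A u v) w + sc (fun u v => P u v ∧ ¬ A u v) w := by
  classical
  unfold sc
  rw [← Finset.sum_add_distrib]
  apply Finset.sum_congr rfl
  intro i _
  by_cases h1 : P (w.take i) (w.drop i) <;> by_cases h2 : A (w.take i) (w.drop i) <;> simp [h1, h2]

theorem Mq_shift (x : ZMod p) (w : List α) :
    Mq ψ a (x - ψ a) w = sc (fun u v => x + ps ψ u = 0 ∧ St a v) w := by
  classical
  unfold Mq pc sc
  rw [Finset.sum_range_succ', Finset.sum_range_succ]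
  refine congrArg₂ (· + ·) (Finset.sum_congr rfl ?_) ?_
  · intro i hi
    rw [Finset.mem_range] at hi
    have h1 : w.take (i + 1) = w.take i ++ [w[i]] := (List.take_concat_get' w i hi).symm
    have h2 : w.drop i = w[i] :: w.drop (i + 1) := List.drop_eq_getElem_cons hi
    have h3 : (x - ψ a + ps ψ (w.take (i + 1)) = 0 ∧ En a (w.take (i + 1))) ↔
        (x + ps ψ (w.take i) = 0 ∧ St a (w.drop i)) := by
      rw [h1, En_snoc, h2]
      have h4 : St a (w[i] :: w.drop (i + 1)) ↔ w[i] = a := by
        constructor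
        · rintro ⟨v', h⟩
          exact (List.cons.inj h).1
        · intro h; exact ⟨_, by rw [h]⟩
      rw [h4, ps_append, ps_cons, ps_nil]
      constructor
      · rintro ⟨h, h'⟩
        rw [h'] at h
        exact ⟨by linear_combination h, h'⟩
      · rintro ⟨h, h'⟩
        rw [h']
        exact ⟨by linear_combination h, rfl⟩
    exact ite_iff h3 _ _
  · rw [if_neg, if_neg]
    · rintro ⟨_, u', h⟩
      simp at h
    · rintro ⟨_, u', h⟩
      simp at h

open Classical in
theorem pc_card (P : List α → Prop) (w : List α) :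
    pc P w = (((Finset.range (w.length + 1)).filter (fun i => P (w.take i))).card : ℤ) := by
  unfold pc
  rw [Finset.sum_boole]

open Classical in
theorem sc_card (P : List α → List α → Prop) (w : List α) :
    sc P w = (((Finset.range (w.length + 1)).filter
      (fun i => P (w.take i) (w.drop i))).card : ℤ) := by
  unfold sc
  rw [Finset.sum_boole]

theorem A_eq_B (x : ZMod p) (w : List α) :
    pc (fun u => x + ps ψ u = 0 ∧ Sf p a u) w = sc (fun u v => x + ps ψ u = 0 ∧ Pf p a v) w := by
  classical
  rw [pc_card, sc_card]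
  congr 1
  refine Finset.card_nbij' (fun i => i - p) (fun i => i + p) ?_ ?_ ?_ ?_
  · intro i hi
    simp only [Finset.coe_filter, Finset.mem_range, Set.mem_ofPred_eq] at hi ⊢
    obtain ⟨hi, hx, u', hu⟩ := hi
    have hlen : i = u'.length + p := by
      have := congrArg List.length hu
      simp at this; omega
    have hsplit : w = u' ++ (List.replicate p a ++ w.drop i) := by
      conv_lhs => rw [← List.take_append_drop i w, hu, List.append_assoc]
    have ht : w.take (i - p) = u' := by
      rw [hlen, Nat.add_sub_cancel]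
      conv_lhs => rw [hsplit]
      rw [List.take_left']
      rfl
    have hd : w.drop (i - p) = List.replicate p a ++ w.drop i := by
      rw [hlen, Nat.add_sub_cancel]
      conv_lhs => rw [hsplit]
      rw [List.drop_left', ← hlen]
      rfl
    refine ⟨by omega, ?_, w.drop i, hd⟩
    rw [ht]
    rw [hu, ps_append, ps_replicate] at hx
    simpa using hx
  · intro i hi
    simp only [Finset.coe_filter, Finset.mem_range, Set.mem_ofPred_eq] at hi ⊢
    obtain ⟨hi, hx, v', hv⟩ := hi
    have hlen : i + p + v'.length = w.length := by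
      have := congrArg List.length hv
      simp at this; omega
    have ht : w.take (i + p) = w.take i ++ List.replicate p a := by
      conv_lhs => rw [← List.take_append_drop i w, hv, ← List.append_assoc]
      rw [List.take_left']
      simp; omega
    refine ⟨by omega, ?_, w.take i, ht⟩
    rw [ht, ps_append, ps_replicate]
    simpa using hx
  · intro i hi
    simp only [Finset.coe_filter, Finset.mem_range, Set.mem_ofPred_eq] at hi
    obtain ⟨hi, hx, u', hu⟩ := hi
    have hlen : i = u'.length + p := by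
      have := congrArg List.length hu
      simp at this; omega
    change i - p + p = i
    omega
  · intro i hi
    change i + p - p = i
    omega

theorem R_eq (x : ZMod p) (w : List α) :
    sc (fun u v => (x + ps ψ u = 0 ∧ St a v) ∧ ¬ Pf p a v) w =
      Lq ψ a (-(x + ps ψ w)) w.reverse := by
  classical
  unfold Lq pc sc
  rw [List.length_reverse, ← Finset.sum_range_reflect _ (w.length + 1)]
  apply Finset.sum_congr rfl
  intro i hi
  rw [Finset.mem_range] at hi
  have h0 : w.length + 1 - 1 - i = w.length - i := by omega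
  rw [h0]
  have h1 : w.reverse.take i = (w.drop (w.length - i)).reverse := by
    rw [List.take_reverse]
  have hps : ps ψ w = ps ψ (w.take (w.length - i)) + ps ψ (w.drop (w.length - i)) := by
    rw [← ps_append, List.take_append_drop]
  rw [h1]
  set u := w.take (w.length - i) with hu
  set v := w.drop (w.length - i) with hv
  have h2 : En a v.reverse ↔ St a v := by
    constructor
    · rintro ⟨u', h⟩
      refine ⟨u'.reverse, ?_⟩
      rw [← List.reverse_reverse v, h]; simp
    · rintro ⟨v', h⟩
      exact ⟨v'.reverse, by rw [h]; simp⟩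
  have h3 : Sf p a v.reverse ↔ Pf p a v := by
    constructor
    · rintro ⟨u', h⟩
      refine ⟨u'.reverse, ?_⟩
      rw [← List.reverse_reverse v, h]; simp
    · rintro ⟨v', h⟩
      exact ⟨v'.reverse, by rw [h]; simp⟩
  have h4 : -(x + ps ψ w) + ps ψ v.reverse = 0 ↔ x + ps ψ u = 0 := by
    rw [ps_reverse, hps]
    constructor
    · intro h
      have : x + ps ψ u = -(-(x + (ps ψ u + ps ψ v)) + ps ψ v) := by ring
      rw [this, h, neg_zero]
    · intro h
      have : -(x + (ps ψ u + ps ψ v)) + ps ψ v = -(x + ps ψ u) := by ring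
      rw [this, h, neg_zero]
  refine ite_iff ?_ _ _
  change ((x + ps ψ u = 0 ∧ St a v) ∧ ¬ Pf p a v) ↔
    ((-(x + ps ψ w) + ps ψ v.reverse = 0 ∧ En a v.reverse) ∧ ¬ Sf p a v.reverse)
  rw [h2, h3, h4]

theorem identity (x : ZMod p) (w : List α) :
    Mq ψ a x w - Mq ψ a (x - ψ a) w = Lq ψ a x w - Lq ψ a (-(x + ps ψ w)) w.reverse := by
  have h1 : Mq ψ a x w = pc (fun u => x + ps ψ u = 0 ∧ Sf p a u) w + Lq ψ a x w := by
    unfold Mq
    rw [pc_split _ (Sf p a)]
    congr 1
    apply pc_congr
    intro u
    constructor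
    · rintro ⟨⟨h, _⟩, h2⟩; exact ⟨h, h2⟩
    · rintro ⟨h, h2⟩; exact ⟨⟨h, Sf_En a h2⟩, h2⟩
  have h2 : Mq ψ a (x - ψ a) w = sc (fun u v => x + ps ψ u = 0 ∧ Pf p a v) w +
      Lq ψ a (-(x + ps ψ w)) w.reverse := by
    rw [Mq_shift, sc_split _ (fun _ v => Pf p a v), R_eq]
    congr 1
    unfold sc
    apply Finset.sum_congr rfl
    intro i _
    have hP : Pf p a (w.drop i) → St a (w.drop i) := by
      rintro ⟨v', h⟩
      have hp : p.Prime := Fact.out
      obtain ⟨m, hm⟩ : ∃ m, p = m + 1 := ⟨p - 1, by have := hp.pos; omega⟩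
      rw [hm, List.replicate_succ] at h
      exact ⟨_, h⟩
    by_cases h1 : x + ps ψ (w.take i) = 0 <;> by_cases h2 : Pf p a (w.drop i)
    · simp [h1, h2, hP h2]
    · simp [h1, h2]
    · simp [h1]
    · simp [h1]
  rw [h1, h2, A_eq_B]
  ring

theorem Ct_diff [Finite α] (hα : ψ a ≠ 0) (x : ZMod p) :
    Ct (fun w => Mq ψ a x w - Mq ψ a (x - ψ a) w) := by
  have h1 : Ct (fun w => Lq ψ a (-(x + ps ψ w)) w.reverse) :=
    Ct.cases (fun w => ps ψ w) (fun i => HS_ps ψ a i)
      (fun i w => Lq ψ a (-(x + i)) w.reverse) (fun i => (Ct_Lq ψ a hα _).rev)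
  exact ((Ct_Lq ψ a hα x).sub h1).congr fun w => (identity ψ a x w).symm

theorem Ct_diff_all [Finite α] (hα : ψ a ≠ 0) (x y : ZMod p) :
    Ct (fun w => Mq ψ a x w - Mq ψ a y w) := by
  have h1 : ∀ j : ℕ, Ct (fun w => Mq ψ a x w - Mq ψ a (x - j * ψ a) w) := by
    intro j
    induction j with
    | zero => refine (Ct.const 0).congr fun w => by simp
    | succ j ih =>
      refine (ih.add (Ct_diff ψ a hα (x - j * ψ a))).congr fun w => ?_
      have : x - ((j + 1 : ℕ) : ZMod p) * ψ a = x - j * ψ a - ψ a := by push_cast; ring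
      rw [this]; ring
  have h2 := h1 ((x - y) * (ψ a)⁻¹ : ZMod p).val
  refine h2.congr fun w => ?_
  have : x - ((((x - y) * (ψ a)⁻¹ : ZMod p).val : ℕ) : ZMod p) * ψ a = y := by
    rw [ZMod.natCast_zmod_val, mul_assoc, inv_mul_cancel₀ hα]; ring
  rw [this]

theorem Mq_total (w : List α) : ∑ x : ZMod p, Mq ψ a x w = pc (En a) w := by
  rw [pc_sum (En a) (fun u => ps ψ u)]
  rw [← Equiv.sum_comp (Equiv.neg (ZMod p))]
  apply Finset.sum_congr rfl
  intro i _
  apply pc_congr
  intro u
  simp only [Equiv.neg_apply]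
  constructor
  · rintro ⟨h, h2⟩
    refine ⟨h2, ?_⟩
    rw [neg_add_eq_zero] at h
    exact h.symm
  · rintro ⟨h2, h⟩
    refine ⟨?_, h2⟩
    rw [h]; simp

theorem Ct_En [Finite α] : Ct (pc (En a)) := by
  have : Fact (Nat.Prime 2) := ⟨Nat.prime_two⟩
  have h := Ct_kernel (p := 2) (fun _ : α => (0 : ZMod 2)) a rfl 0
  refine h.congr fun w => ?_
  apply pc_congr
  intro u
  have : ps (fun _ : α => (0 : ZMod 2)) u = 0 := by simp [ps]
  rw [this]; simp

/-- The number of arrivals at a state by a given letter. -/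
theorem Ct_M [Finite α] (x : ZMod p) : Ct (Mq ψ a x) := by
  have hp : p.Prime := Fact.out
  by_cases hα : ψ a = 0
  · exact Ct_kernel ψ a hα x
  · apply Ct.div p hp.pos
    have h1 : Ct (fun w => pc (En a) w + ∑ y : ZMod p, (Mq ψ a x w - Mq ψ a y w)) :=
      (Ct_En a).add (Ct.sum _ _ fun y _ => Ct_diff_all ψ a hα x y)
    refine h1.congr fun w => ?_
    rw [Finset.sum_sub_distrib, Mq_total, Finset.sum_const, Finset.card_univ, ZMod.card]
    simp

end

end Pool.Agent.H815R3.GSH
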