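import Pool.Agent.H815R3.GSH.Walk

/-! Occurrences of a letter of nonzero value at a given state of a walk in `ZMod p`. -/

set_option autoImplicit false
set_option linter.unusedSectionVars false

namespace Pool.Agent.H815R3.GSH

open Pool.Agent.H936R2.SH

section

variable {p : ℕ} [Fact p.Prime] {α : Type} (ψ : α → ZMod p) (a : α)

open Classical in
/-- capped run length -/
noncomputable def gL (p : ℕ) (a : α) (f : Fin (p + 1)) (y : α) : Fin (p + 1) :=
  if y = a then ⟨min (f.val + 1) p, by omega⟩ else 0

theorem gL_a (f : Fin (p + 1)) : (gL p a f a).val = min (f.val + 1) p := by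
  simp [gL]

theorem gL_ne (f : Fin (p + 1)) {y : α} (h : y ≠ a) : gL p a f y = 0 := by
  simp [gL, h]

theorem gL_rep (m : ℕ) (f : Fin (p + 1)) :
    ((List.replicate m a).foldl (gL p a) f).val = min (f.val + m) p := by
  induction m generalizing f with
  | zero => simp; omega
  | succ m ih =>
    rw [List.replicate_succ, List.foldl_cons, ih, gL_a]
    omega

/-- the bad flags -/
def badL (p : ℕ) (f : Fin (p + 1)) : Prop := f.val = 0 ∨ f.val = p

theorem CFb_L (hα : ψ a ≠ 0) : CFb (dF ψ (gL p a) (badL p) 0) (0, 0) := by
  have hp : p.Prime := Fact.out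
  refine CFb_dF ψ _ (Or.inl rfl) a ?_ ?_ ?_
  · intro f y h
    by_contra hne
    apply h
    rw [gL_ne a f hne]
    exact Or.inl rfl
  · intro _ m f hm
    right
    rw [gL_rep]; omega
  · have key : ∀ u : List α, ((∃ y ∈ u, y ≠ a) ∨ p ≤ u.length) →
        ∀ f f', u.foldl (gL p a) f = u.foldl (gL p a) f' := by
      intro u
      induction u using List.reverseRecOn with
      | nil =>
        intro h
        rcases h with ⟨y, hy, _⟩ | h
        · simp at hy
        · simp at h
          exact absurd h hp.ne_zero
      | append_singleton u y ih =>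
        intro h f f'
        rw [List.foldl_append, List.foldl_append, List.foldl_cons, List.foldl_nil,
          List.foldl_cons, List.foldl_nil]
        by_cases hy : y = a
        · subst hy
          by_cases hu : ∃ z ∈ u, z ≠ y
          · rw [ih (Or.inl hu) f f']
          · have hrep : u = List.replicate u.length y := by
              push Not at hu
              exact List.eq_replicate_iff.2 ⟨rfl, hu⟩
            have hlen : p ≤ u.length + 1 := by
              rcases h with ⟨z, hz, hzy⟩ | h
              · rcases List.mem_append.1 hz with hz | hz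
                · exact absurd ⟨z, hz, hzy⟩ hu
                · rw [List.mem_singleton] at hz
                  exact absurd hz hzy
              · simpa using h
            apply Fin.ext
            rw [gL_a, gL_a, hrep, gL_rep, gL_rep]
            omega
        · rw [gL_ne a _ hy, gL_ne a _ hy]
    intro u hu hσ f f'
    apply key
    by_cases h : ∃ y ∈ u, y ≠ a
    · exact Or.inl h
    · right
      push Not at h
      have hrep : u = List.replicate u.length a := List.eq_replicate_iff.2 ⟨rfl, h⟩
      rw [hrep, ps_replicate] at hσ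
      have h0 : ((u.length : ℕ) : ZMod p) = 0 := by
        rcases mul_eq_zero.1 hσ with h | h
        · exact h
        · exact absurd h hα
      exact Nat.le_of_dvd (List.length_pos_iff.2 hu) ((ZMod.natCast_eq_zero_iff _ p).1 h0)

/-- words ending with `a ^ p` -/
def Sf (p : ℕ) (a : α) (u : List α) : Prop := ∃ u', u = u' ++ List.replicate p a

theorem Sf_En {u : List α} (h : Sf p a u) : En a u := by
  have hp : p.Prime := Fact.out
  obtain ⟨u', rfl⟩ := h
  obtain ⟨m, rfl⟩ : ∃ m, p = m + 1 := ⟨p - 1, by have := hp.pos; omega⟩
  exact ⟨u' ++ List.replicate m a, by rw [List.replicate_succ']; simp⟩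

/-- invariant of the third automaton -/
def Inv (x : ZMod p) (u : List α) (z : ZMod p × Fin (p + 1)) : Prop :=
  z.1 = x + ps ψ u ∧ ∃ u', u = u' ++ List.replicate z.2.val a ∧
    (¬ En a u' ∨ z.2.val = p ∨ x + ps ψ u' = 0)

theorem run_Inv (x : ZMod p) (u : List α) :
    Inv ψ a x u (u.foldl (dF ψ (gL p a) (badL p) 0) (x, 0)) := by
  have hp : p.Prime := Fact.out
  induction u using List.reverseRecOn with
  | nil =>
    refine ⟨by simp [ps_nil], [], by simp, Or.inl ?_⟩
    rintro ⟨u', h⟩
    simp at h
  | append_singleton u y ih =>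
    rw [List.foldl_append, List.foldl_cons, List.foldl_nil]
    obtain ⟨h1, u', h2, h3⟩ := ih
    set z := u.foldl (dF ψ (gL p a) (badL p) 0) (x, 0) with hz
    have hs : z.1 + ψ y = x + ps ψ (u ++ [y]) := by
      rw [h1, ps_append, ps_cons, ps_nil]; ring
    unfold dF
    by_cases hy : y = a
    · subst hy
      split_ifs with h
      · refine ⟨by rw [← hs]; exact h.1.symm, u ++ [y], by simp, Or.inr (Or.inr ?_)⟩
        rw [← hs]; exact h.1
      · refine ⟨hs, ?_⟩
        rw [gL_a]
        by_cases hzp : z.2.val = p
        · refine ⟨u' ++ [y], ?_, Or.inr (Or.inl (by omega))⟩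
          have : min (z.2.val + 1) p = p := by omega
          rw [this, h2, hzp, List.append_assoc, List.append_assoc]
          congr 1
          rw [← List.replicate_succ', List.replicate_succ]; rfl
        · have hlt : z.2.val < p := by have := z.2.isLt; omega
          have : min (z.2.val + 1) p = z.2.val + 1 := by omega
          refine ⟨u', ?_, ?_⟩
          · rw [this, List.replicate_succ', ← List.append_assoc, ← h2]
          · rcases h3 with h3 | h3 | h3
            · exact Or.inl h3
            · exact absurd h3 hzp
            · exact Or.inr (Or.inr h3)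
    · have hg : gL p a z.2 y = 0 := gL_ne a _ hy
      split_ifs with h
      · refine ⟨by rw [← hs]; exact h.1.symm, u ++ [y], by simp, Or.inl ?_⟩
        rw [En_snoc]; exact hy
      · refine ⟨hs, u ++ [y], by rw [hg]; simp, Or.inl ?_⟩
        rw [En_snoc]; exact hy

theorem run_L (hα : ψ a ≠ 0) (x : ZMod p) (u : List α) (hu : u ≠ []) :
    u.foldl (dF ψ (gL p a) (badL p) 0) (x, 0) = (0, 0) ↔
      x + ps ψ u = 0 ∧ (¬ En a u ∨ Sf p a u) := by
  have hp : p.Prime := Fact.out
  rcases List.eq_nil_or_concat u with rfl | ⟨v, y, rfl⟩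
  · exact absurd rfl hu
  rw [List.concat_eq_append, List.foldl_append, List.foldl_cons, List.foldl_nil,
    dF_eq ψ (gL p a) (Or.inl rfl : badL p 0)]
  obtain ⟨h1, v', h2, h3⟩ := run_Inv ψ a x v
  set z := v.foldl (dF ψ (gL p a) (badL p) 0) (x, 0) with hz
  have hs : z.1 + ψ y = x + ps ψ (v ++ [y]) := by
    rw [h1, ps_append, ps_cons, ps_nil]; ring
  rw [hs, En_snoc]
  by_cases hy : y = a
  · subst hy
    simp only [not_true_eq_false, false_or]
    apply and_congr_right
    intro h0
    constructor
    · intro hb
      have hge : p ≤ z.2.val + 1 := by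
        rcases hb with hb | hb
        · rw [gL_a] at hb
          have := hp.pos
          omega
        · rw [gL_a] at hb; omega
      by_cases hzp : z.2.val = p
      · refine ⟨v' ++ [y], ?_⟩
        rw [h2, hzp, List.append_assoc, List.append_assoc]
        congr 1
        rw [← List.replicate_succ', List.replicate_succ]; rfl
      · have hz2 : z.2.val + 1 = p := by have := z.2.isLt; omega
        refine ⟨v', ?_⟩
        conv_rhs => rw [← hz2, List.replicate_succ', ← List.append_assoc, ← h2]
    · rintro ⟨u', h4⟩
      by_cases hge : p ≤ z.2.val + 1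
      · right
        rw [gL_a]; omega
      · exfalso
        obtain ⟨m, hm⟩ : ∃ m, p = z.2.val + 1 + (m + 1) := ⟨p - z.2.val - 2, by omega⟩
        have h5 : v = (u' ++ List.replicate (m + 1) y) ++ List.replicate z.2.val y := by
          have h6 : v ++ [y] = (u' ++ List.replicate (m + 1) y) ++ List.replicate z.2.val y ++ [y] := by
            rw [h4]
            conv_lhs => rw [hm]
            rw [show z.2.val + 1 + (m + 1) = (m + 1) + (z.2.val + 1) by ring,
              List.replicate_add, List.replicate_succ' (n := z.2.val)]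
            simp only [List.append_assoc]
          exact List.append_cancel_right h6
        have h7 : v' = u' ++ List.replicate (m + 1) y :=
          List.append_cancel_right (h2.symm.trans h5)
        rcases h3 with h3 | h3 | h3
        · apply h3
          rw [h7, List.replicate_succ', ← List.append_assoc]
          exact ⟨_, rfl⟩
        · omega
        · have h8 : ((z.2.val + 1 : ℕ) : ZMod p) * ψ y = 0 := by
            have h9 : x + ps ψ (v ++ [y]) = (x + ps ψ v') + ((z.2.val + 1 : ℕ) : ZMod p) * ψ y := by
              conv_lhs => rw [h2]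
              rw [ps_append, ps_append, ps_replicate, ps_cons, ps_nil]
              push_cast; ring
            rw [h0, h3, zero_add] at h9
            exact h9.symm
          rcases mul_eq_zero.1 h8 with h8 | h8
          · have := Nat.le_of_dvd (by omega) ((ZMod.natCast_eq_zero_iff _ p).1 h8)
            omega
          · exact hα h8
  · have hg : gL p a z.2 y = 0 := gL_ne a _ hy
    simp only [hg, hy, not_false_eq_true, true_or, and_true]
    exact and_iff_left (Or.inl rfl)

/-- arrivals at `0` by `a` which do not end a run of length at least `p` -/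
noncomputable def Lq (x : ZMod p) (w : List α) : ℤ :=
  pc (fun u : List α => (x + ps ψ u = 0 ∧ En a u) ∧ ¬ Sf p a u) w

theorem Ct_Lq [Finite α] (hα : ψ a ≠ 0) (x : ZMod p) : Ct (Lq ψ a x) := by
  refine ((Ct_V ψ a x).sub (Ct.vis (CFb_L ψ a hα) (x, 0))).congr ?_
  intro w
  rw [pc_split (fun u => u ≠ [] ∧ x + ps ψ u = 0) (fun u => ¬ En a u ∨ Sf p a u)]
  have e1 : pc (fun u => (u ≠ [] ∧ x + ps ψ u = 0) ∧ (¬ En a u ∨ Sf p a u)) w =
      pc (fun u => u ≠ [] ∧ u.foldl (dF ψ (gL p a) (badL p) 0) (x, 0) = (0, 0)) w := by
    apply pc_congr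
    intro u
    by_cases hu : u = []
    · simp [hu]
    · rw [run_L ψ a hα x u hu, and_assoc]
  have e2 : pc (fun u => (u ≠ [] ∧ x + ps ψ u = 0) ∧ ¬ (¬ En a u ∨ Sf p a u)) w =
      Lq ψ a x w := by
    apply pc_congr
    intro u
    rw [not_or, not_not]
    constructor
    · rintro ⟨⟨_, h⟩, h2, h3⟩; exact ⟨⟨h, h2⟩, h3⟩
    · rintro ⟨⟨h, h2⟩, h3⟩
      refine ⟨⟨?_, h⟩, h2, h3⟩
      obtain ⟨u', rfl⟩ := h2
      simp
  rw [e1, e2]
  ring

end

end Pool.Agent.H815R3.GSH
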