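import Pool.Agent.H815R3.GSH.Two
import Pool.Agent.H815R3.GSH.Grp
import Mathlib.GroupTheory.Nilpotent

/-! Languages recognised by a nilpotent group of class at most three. -/

set_option autoImplicit false
set_option linter.unusedSectionVars false
set_option linter.style.haveILetI false

namespace Pool.Agent.H815R3.GSH

open Pool.Agent.H936R2.SH
open scoped commutatorElement

/-! ### Functions with values in a group computed in height one -/

section Dt

variable {α : Type} {G : Type} [Group G] [Finite G]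

/-- a function of words with values in a group, all of whose fibres have height one -/
def Dt {X : Type} (F : List α → X) : Prop := ∀ x, HS 1 {w : List α | F w = x}

theorem Dt.one : Dt (fun _ : List α => (1 : G)) := by
  intro g
  by_cases h : (1 : G) = g
  · convert HS.univ (α := α) 1 using 1
    ext w; simp [h]
  · convert HS.empty (α := α) 1 using 1
    ext w; simp [h]

theorem Dt.mul {F F' : List α → G} (h : Dt F) (h' : Dt F') : Dt (fun w => F w * F' w) := by
  intro g
  have h1 : HS 1 (⋃ s : G, ({w : List α | F w = s} ∩ {w : List α | F' w = s⁻¹ * g})) :=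
    HS.iUnion _ fun s => (h s).inter (h' _)
  convert h1 using 1
  ext w
  simp only [Set.mem_ofPred_eq, Set.mem_iUnion, Set.mem_inter_iff]
  constructor
  · intro h
    exact ⟨_, rfl, by rw [← h]; group⟩
  · rintro ⟨s, h1, h2⟩
    rw [h1, h2]; group

theorem Dt.zpow (e : G) {c : List α → ℤ} (h : Ct c) : Dt (fun w => e ^ (c w)) := by
  intro g
  obtain ⟨m, hm⟩ : ∃ m, Nat.card G = m := ⟨_, rfl⟩
  have hm0 : 0 < m := by rw [← hm]; exact Nat.card_pos
  have : NeZero m := ⟨hm0.ne'⟩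
  have h1 : HS 1 (⋃ s : ZMod m, {w : List α | (e ^ ((s.val : ℕ) : ℤ) = g) ∧
      w ∈ {w : List α | ((c w : ℤ) : ZMod m) = s}}) :=
    HS.iUnion _ fun s => HS.cond _ fun _ => h m hm0 s
  convert h1 using 1
  ext w
  simp only [Set.mem_ofPred_eq, Set.mem_iUnion]
  have key : e ^ (((((c w : ℤ) : ZMod m).val : ℕ) : ℤ)) = e ^ (c w) := by
    rw [ZMod.val_intCast, ← hm]
    exact zpow_mod_natCard _ _
  constructor
  · intro h
    exact ⟨_, by rw [key]; exact h, rfl⟩
  · rintro ⟨s, h1, h2⟩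
    rw [← key, h2]; exact h1

theorem Dt.comp {X Y : Type} [Finite X] {F : List α → X} (h : Dt F) (k : X → Y) :
    Dt (fun w => k (F w)) := by
  intro y
  have h1 : HS 1 (⋃ x : X, {w : List α | (k x = y) ∧ w ∈ {w : List α | F w = x}}) :=
    HS.iUnion _ fun x => HS.cond _ fun _ => h x
  convert h1 using 1
  ext w
  simp only [Set.mem_ofPred_eq, Set.mem_iUnion]
  constructor
  · intro h; exact ⟨_, h, rfl⟩
  · rintro ⟨x, h1, h2⟩; rw [h2]; exact h1

theorem Dt.prod {A : Type} [CommGroup A] [Finite A] {ι : Type} (s : Finset ι)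
    (F : ι → List α → A) (h : ∀ i ∈ s, Dt (F i)) : Dt (fun w => ∏ i ∈ s, F i w) := by
  classical
  induction s using Finset.induction_on with
  | empty => simpa using Dt.one (α := α) (G := A)
  | insert a s ha ih =>
    have := (h a (Finset.mem_insert_self _ _)).mul
      (ih fun i hi => h i (Finset.mem_insert_of_mem hi))
    convert this using 2
    rw [Finset.prod_insert ha]

end Dt

/-! ### Commutators in class three -/

section cls

variable {G : Type} [Group G] (H : ∀ a b c d : G, ⁅⁅⁅a, b⁆, c⁆, d⁆ = 1)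

include H

theorem cen3 (a b c d : G) : ⁅a, ⁅b, c⁆⁆ * d = d * ⁅a, ⁅b, c⁆⁆ := by
  have h : ⁅⁅b, c⁆, a⁆ * d = d * ⁅⁅b, c⁆, a⁆ := commutatorElement_eq_one_iff_mul_comm.1 (H b c a d)
  have e : ⁅a, ⁅b, c⁆⁆ = (⁅⁅b, c⁆, a⁆)⁻¹ := (commutatorElement_inv _ _).symm
  rw [e]
  have h2 : Commute ⁅⁅b, c⁆, a⁆ d := h
  exact h2.inv_left

theorem comm_mul (g h b c : G) : ⁅g * h, ⁅b, c⁆⁆ = ⁅g, ⁅b, c⁆⁆ * ⁅h, ⁅b, c⁆⁆ := by
  have h1 : ⁅g * h, ⁅b, c⁆⁆ = g * ⁅h, ⁅b, c⁆⁆ * g⁻¹ * ⁅g, ⁅b, c⁆⁆ := by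
    simp only [commutatorElement_def]; group
  rw [h1, ← cen3 H h b c g, mul_assoc _ g, mul_inv_cancel, mul_one]
  exact (cen3 H h b c _)

theorem comm_one (b c : G) : ⁅(1 : G), ⁅b, c⁆⁆ = 1 := by simp

theorem comm_inv (g b c : G) : ⁅g⁻¹, ⁅b, c⁆⁆ = (⁅g, ⁅b, c⁆⁆)⁻¹ := by
  have := comm_mul H g g⁻¹ b c
  rw [mul_inv_cancel, comm_one H] at this
  exact (inv_eq_of_mul_eq_one_right this.symm).symm

theorem comm_comm (a d b c : G) : ⁅a, d⁆ * ⁅b, c⁆ = ⁅b, c⁆ * ⁅a, d⁆ := by
  rw [← commutatorElement_eq_one_iff_mul_comm]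
  have h1 : ⁅a, d⁆ = a * d * a⁻¹ * d⁻¹ := rfl
  rw [h1, comm_mul H, comm_mul H, comm_mul H, comm_inv H, comm_inv H,
    cen3 H a b c]
  group

theorem conj_eq (g b c : G) : g * ⁅b, c⁆ * g⁻¹ = ⁅g, ⁅b, c⁆⁆ * ⁅b, c⁆ := by
  simp only [commutatorElement_def]; group

/-- commutator with a power -/
theorem pow_comm (x y : G) (a : ℕ) :
    ⁅x ^ a, y⁆ = ⁅x, y⁆ ^ a * ⁅x, ⁅x, y⁆⁆ ^ (ch2 a) := by
  induction a with
  | zero => simp [ch2]
  | succ a ih =>
    have h1 : ⁅x ^ (a + 1), y⁆ = x * ⁅x ^ a, y⁆ * x⁻¹ * ⁅x, y⁆ := by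
      rw [pow_succ']
      simp only [commutatorElement_def]; group
    rw [h1, ih]
    have hc : Commute ⁅x, ⁅x, y⁆⁆ ⁅x, y⁆ := cen3 H x x y _
    have h2 : x * (⁅x, y⁆ ^ a * ⁅x, ⁅x, y⁆⁆ ^ (ch2 a)) * x⁻¹ =
        (x * ⁅x, y⁆ ^ a * x⁻¹) * (x * ⁅x, ⁅x, y⁆⁆ ^ (ch2 a) * x⁻¹) := by group
    have h3 : x * ⁅x, ⁅x, y⁆⁆ ^ (ch2 a) * x⁻¹ = ⁅x, ⁅x, y⁆⁆ ^ (ch2 a) := by
      have hx : Commute ⁅x, ⁅x, y⁆⁆ x := cen3 H x x y _
      rw [← (hx.zpow_left (ch2 a)).eq]; group
    have h4 : x * ⁅x, y⁆ ^ a * x⁻¹ = ⁅x, ⁅x, y⁆⁆ ^ a * ⁅x, y⁆ ^ a := by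
      rw [← conj_pow, conj_eq H, hc.mul_pow]
    rw [h2, h3, h4, ch2, zpow_add, zpow_natCast, pow_succ]
    have hc1 : Commute (⁅x, ⁅x, y⁆⁆ ^ a) (⁅x, y⁆ ^ a) := hc.pow_pow a a
    have hc2 : Commute (⁅x, ⁅x, y⁆⁆ ^ (ch2 a)) (⁅x, y⁆) := hc.zpow_left _
    have hc3 : Commute (⁅x, ⁅x, y⁆⁆ ^ a) (⁅x, y⁆) := hc.pow_left _
    have hc4 : Commute (⁅x, ⁅x, y⁆⁆ ^ a) (⁅x, ⁅x, y⁆⁆ ^ (ch2 a)) :=
      ((Commute.refl _).pow_left a).zpow_right _
    rw [hc1.eq]
    simp only [mul_assoc]
    congr 1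
    rw [hc2.eq, ← mul_assoc, hc3.eq, mul_assoc, hc4.eq]

end cls

/-! ### Elimination of a letter -/

section formula

variable {G : Type} [Group G]

/-- the subgroup generated by the commutators -/
def CN (G : Type) [Group G] : Subgroup G := Subgroup.closure (commutatorSet G)

theorem hN_CN (H : ∀ a b c d : G, ⁅⁅⁅a, b⁆, c⁆, d⁆ = 1) :
    ∀ x ∈ CN G, ∀ y ∈ CN G, x * y = y * x := by
  have : IsMulCommutative (CN G) := Subgroup.isMulCommutative_closure (k := commutatorSet G) (by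
    rintro _ ⟨a, b, rfl⟩ _ ⟨c, d, rfl⟩
    exact comm_comm H a b c d)
  intro x hx y hy
  exact setLike_mul_comm (s := CN G) hx hy

/-- a commutator -/
def cm (a b : G) : CN G := ⟨⁅a, b⁆, Subgroup.subset_closure ⟨a, b, rfl⟩⟩

variable {α : Type} (f : α → G) (x : α)

open Classical in
/-- the letter `x` is erased -/
noncomputable def fe (y : α) : G := if y = x then 1 else f y

open Classical in
/-- exponents -/
noncomputable def E1 (y : α) (w : List α) : ℤ :=
  if y = x then 0 else Sy (fun u => (cP (fun c => c = x) u : ℤ)) y w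

open Classical in
/-- exponents -/
noncomputable def E2 (y : α) (w : List α) : ℤ :=
  if y = x then 0 else Sy (fun u => ch2 (cP (fun c => c = x) u)) y w

open Classical in
/-- exponents -/
noncomputable def E3 (z y : α) (w : List α) : ℤ :=
  if y = x ∨ z = x then 0 else
    Sy (fun u => (cP (fun c => c = x) u : ℤ) * (cP (fun c => c = z) u : ℤ)) y w

open Classical in
theorem E1_snoc (y : α) (w : List α) (c : α) (hc : c ≠ x) :
    E1 x y (w ++ [c]) = E1 x y w + if c = y then (cP (fun c => c = x) w : ℤ) else 0 := by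
  unfold E1
  by_cases h : y = x
  · rw [if_pos h, if_pos h, if_neg (fun h' => hc (by rw [h', h]))]; ring
  · rw [if_neg h, if_neg h, Sy_snoc]

open Classical in
theorem E2_snoc (y : α) (w : List α) (c : α) (hc : c ≠ x) :
    E2 x y (w ++ [c]) = E2 x y w + if c = y then ch2 (cP (fun c => c = x) w) else 0 := by
  unfold E2
  by_cases h : y = x
  · rw [if_pos h, if_pos h, if_neg (fun h' => hc (by rw [h', h]))]; ring
  · rw [if_neg h, if_neg h, Sy_snoc]

open Classical in
theorem E3_snoc (z y : α) (w : List α) (c : α) (hc : c ≠ x) :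
    E3 x z y (w ++ [c]) = E3 x z y w + if c = y ∧ z ≠ x then
      (cP (fun c => c = x) w : ℤ) * (cP (fun c => c = z) w : ℤ) else 0 := by
  unfold E3
  by_cases h : y = x ∨ z = x
  · rw [if_pos h, if_pos h, if_neg]
    · ring
    · rintro ⟨h1, h2⟩
      rcases h with h | h
      · exact hc (by rw [h1, h])
      · exact h2 h
  · rw [if_neg h, if_neg h, Sy_snoc]
    push Not at h
    by_cases h1 : c = y
    · rw [if_pos h1, if_pos ⟨h1, h.2⟩]
    · rw [if_neg h1, if_neg (fun h' => h1 h'.1)]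

theorem E1_snoc' (y : α) (w : List α) : E1 x y (w ++ [x]) = E1 x y w := by
  classical
  unfold E1
  by_cases h : y = x
  · rw [if_pos h, if_pos h]
  · rw [if_neg h, if_neg h, Sy_snoc, if_neg (fun h' => h h'.symm)]; ring

theorem E2_snoc' (y : α) (w : List α) : E2 x y (w ++ [x]) = E2 x y w := by
  classical
  unfold E2
  by_cases h : y = x
  · rw [if_pos h, if_pos h]
  · rw [if_neg h, if_neg h, Sy_snoc, if_neg (fun h' => h h'.symm)]; ring

theorem E3_snoc' (z y : α) (w : List α) : E3 x z y (w ++ [x]) = E3 x z y w := by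
  classical
  unfold E3
  by_cases h : y = x ∨ z = x
  · rw [if_pos h, if_pos h]
  · rw [if_neg h, if_neg h, Sy_snoc, if_neg (fun h' => h (Or.inl h'.symm))]; ring

theorem E_nil (z y : α) : E1 x y [] = 0 ∧ E2 x y [] = 0 ∧ E3 x z y [] = 0 := by
  refine ⟨?_, ?_, ?_⟩
  · unfold E1; split_ifs <;> simp [Sy_nil]
  · unfold E2; split_ifs <;> simp [Sy_nil]
  · unfold E3; split_ifs <;> simp [Sy_nil]

theorem Ct_E1 [Finite α] (y : α) : Ct (E1 x y) := by
  by_cases h : y = x
  · refine (Ct.const 0).congr fun w => ?_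
    unfold E1; rw [if_pos h]
  · refine (Ct_one (fun c => c = x) y h).congr fun w => ?_
    unfold E1; rw [if_neg h]

theorem Ct_E2 [Finite α] (y : α) : Ct (E2 x y) := by
  by_cases h : y = x
  · refine (Ct.const 0).congr fun w => ?_
    unfold E2; rw [if_pos h]
  · refine (Ct_ch2 (fun c => c = x) y h).congr fun w => ?_
    unfold E2; rw [if_neg h]

theorem Ct_E3 [Finite α] (z y : α) : Ct (E3 x z y) := by
  by_cases h : y = x ∨ z = x
  · refine (Ct.const 0).congr fun w => ?_
    unfold E3; rw [if_pos h]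
  · refine (Ct_mix x y z (fun h' => h (Or.inl h')) (fun h' => h (Or.inr h'))).congr fun w => ?_
    unfold E3; rw [if_neg h]

variable (H : ∀ a b c d : G, ⁅⁅⁅a, b⁆, c⁆, d⁆ = 1) [Fintype α]

/-- the correction term -/
noncomputable def Dc (w : List α) : CN G :=
  letI := nComm (CN G) (hN_CN H)
  (∏ y : α, (cm (f x) (fe f x y)) ^ (E1 x y w)) *
    (∏ y : α, (cm (f x) ⁅f x, fe f x y⁆) ^ (E2 x y w)) *
    ∏ y : α, ∏ z : α, (cm (fe f x z) ⁅f x, fe f x y⁆) ^ (E3 x z y w)

theorem cm_prod (y : α) (w : List α) :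
    letI := nComm (CN G) (hN_CN H)
    cm ((w.map (fe f x)).prod) ⁅f x, fe f x y⁆ =
      ∏ z : α, (cm (fe f x z) ⁅f x, fe f x y⁆) ^ (cP (fun c => c = z) w : ℤ) := by
  classical
  letI := nComm (CN G) (hN_CN H)
  induction w using List.reverseRecOn with
  | nil =>
    simp only [List.map_nil, List.prod_nil, cP_nil, Nat.cast_zero, zpow_zero,
      Finset.prod_const_one]
    apply Subtype.ext
    simp [cm]
  | append_singleton w c ih =>
    have e : ∀ z : α, (cP (fun c => c = z) (w ++ [c]) : ℤ) = (cP (fun c => c = z) w : ℤ) +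
        if c = z then 1 else 0 := by
      intro z
      rw [cP_snoc]; push_cast; rfl
    simp only [e, zpow_add, Finset.prod_mul_distrib]
    rw [← ih, Finset.prod_eq_single c]
    · rw [if_pos rfl, zpow_one]
      apply Subtype.ext
      rw [List.map_append, List.prod_append]
      simp only [List.map_cons, List.map_nil, List.prod_cons, List.prod_nil, mul_one]
      exact comm_mul H _ _ _ _
    · intro z _ hz
      rw [if_neg (fun h => hz h.symm), zpow_zero]
    · intro h; exact absurd (Finset.mem_univ _) h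

theorem Dc_snoc' (w : List α) : Dc f x H (w ++ [x]) = Dc f x H w := by
  unfold Dc
  simp only [E1_snoc', E2_snoc', E3_snoc']

theorem Dc_nil : Dc f x H [] = 1 := by
  letI := nComm (CN G) (hN_CN H)
  have h1 : ∀ y, E1 x y [] = 0 := fun y => (E_nil x y y).1
  have h2 : ∀ y, E2 x y [] = 0 := fun y => (E_nil x y y).2.1
  have h3 : ∀ z y, E3 x z y [] = 0 := fun z y => (E_nil x z y).2.2
  unfold Dc
  simp only [h1, h2, h3, zpow_zero, Finset.prod_const_one, mul_one]

theorem Dc_snoc (w : List α) (c : α) (hc : c ≠ x) :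
    Dc f x H (w ++ [c]) = Dc f x H w *
      ((cm ((w.map (fe f x)).prod) ⁅f x, fe f x c⁆) ^ (cP (fun c => c = x) w : ℤ) *
        ((cm (f x) (fe f x c)) ^ (cP (fun c => c = x) w : ℤ) *
        (cm (f x) ⁅f x, fe f x c⁆) ^ (ch2 (cP (fun c => c = x) w)))) := by
  classical
  letI := nComm (CN G) (hN_CN H)
  unfold Dc
  simp only [E1_snoc x _ w c hc, E2_snoc x _ w c hc, E3_snoc x _ _ w c hc, zpow_add,
    Finset.prod_mul_distrib]
  have a1 : (∏ y : α, (cm (f x) (fe f x y)) ^
      (if c = y then (cP (fun c => c = x) w : ℤ) else 0)) =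
      (cm (f x) (fe f x c)) ^ (cP (fun c => c = x) w : ℤ) := by
    rw [Finset.prod_eq_single c]
    · rw [if_pos rfl]
    · intro y _ hy
      rw [if_neg (fun h => hy h.symm), zpow_zero]
    · intro h; exact absurd (Finset.mem_univ _) h
  have a2 : (∏ y : α, (cm (f x) ⁅f x, fe f x y⁆) ^
      (if c = y then ch2 (cP (fun c => c = x) w) else 0)) =
      (cm (f x) ⁅f x, fe f x c⁆) ^ (ch2 (cP (fun c => c = x) w)) := by
    rw [Finset.prod_eq_single c]
    · rw [if_pos rfl]
    · intro y _ hy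
      rw [if_neg (fun h => hy h.symm), zpow_zero]
    · intro h; exact absurd (Finset.mem_univ _) h
  have a3 : (∏ y : α, ∏ z : α, (cm (fe f x z) ⁅f x, fe f x y⁆) ^
      (if c = y ∧ z ≠ x then
        (cP (fun c => c = x) w : ℤ) * (cP (fun c => c = z) w : ℤ) else 0)) =
      (cm ((w.map (fe f x)).prod) ⁅f x, fe f x c⁆) ^ (cP (fun c => c = x) w : ℤ) := by
    rw [Finset.prod_eq_single c]
    · rw [cm_prod f x H c w, ← Finset.prod_zpow]
      apply Finset.prod_congr rfl
      intro z _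
      by_cases hz : z = x
      · subst hz
        rw [if_neg (fun h => h.2 rfl), zpow_zero]
        have : cm (fe f z z) ⁅f z, fe f z c⁆ = 1 := by
          apply Subtype.ext
          simp [cm, fe]
        rw [this]; simp
      · rw [if_pos ⟨rfl, hz⟩, mul_comm, zpow_mul]
    · intro y _ hy
      apply Finset.prod_eq_one
      intro z _
      rw [if_neg (fun h => hy h.1.symm), zpow_zero]
    · intro h; exact absurd (Finset.mem_univ _) h
  rw [a1, a2, a3]
  change _ = _ * _
  generalize (∏ y : α, (cm (f x) (fe f x y)) ^ (E1 x y w)) = A1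
  generalize (∏ y : α, (cm (f x) ⁅f x, fe f x y⁆) ^ (E2 x y w)) = A2
  generalize (∏ y : α, ∏ z : α, (cm (fe f x z) ⁅f x, fe f x y⁆) ^ (E3 x z y w)) = A3
  generalize (cm ((w.map (fe f x)).prod) ⁅f x, fe f x c⁆) ^ (cP (fun c => c = x) w : ℤ) = B3
  generalize (cm (f x) (fe f x c)) ^ (cP (fun c => c = x) w : ℤ) = B1
  generalize (cm (f x) ⁅f x, fe f x c⁆) ^ (ch2 (cP (fun c => c = x) w)) = B2
  have : A1 * B1 * (A2 * B2) * (A3 * B3) = A1 * A2 * A3 * (B3 * (B1 * B2)) := by
    simp only [mul_comm, mul_left_comm]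
  exact this

theorem elim_formula (w : List α) :
    (w.map f).prod = ((Dc f x H w : CN G) : G) * (w.map (fe f x)).prod *
      f x ^ (cP (fun c => c = x) w) := by
  classical
  induction w using List.reverseRecOn with
  | nil => rw [Dc_nil]; simp [cP_nil]
  | append_singleton w c ih =>
    rw [List.map_append, List.prod_append, ih, List.map_append, List.prod_append]
    simp only [List.map_cons, List.map_nil, List.prod_cons, List.prod_nil, mul_one]
    by_cases hc : c = x
    · subst hc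
      have e1 : fe f c c = 1 := by simp [fe]
      rw [Dc_snoc', e1, cP_snoc, if_pos rfl, pow_succ]
      simp only [mul_assoc, mul_one]
    · have e1 : fe f x c = f c := by simp [fe, hc]
      rw [Dc_snoc f x H w c hc, cP_snoc, if_neg hc, add_zero, e1]
      set a := cP (fun c => c = x) w with ha
      set Pw := (w.map (fe f x)).prod with hPw
      simp only [Subgroup.coe_mul, Subgroup.coe_zpow, Subgroup.coe_pow, cm, zpow_natCast]
      have h1 : f x ^ a * f c = ⁅f x ^ a, f c⁆ * f c * f x ^ a := by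
        simp only [commutatorElement_def]; group
      have h2 := pow_comm H (f x) (f c) a
      have h3 : Pw * (⁅f x, f c⁆ ^ a * ⁅f x, ⁅f x, f c⁆⁆ ^ ch2 a) =
          ⁅Pw, ⁅f x, f c⁆⁆ ^ a * (⁅f x, f c⁆ ^ a * ⁅f x, ⁅f x, f c⁆⁆ ^ ch2 a) * Pw := by
        have k1 : Commute ⁅Pw, ⁅f x, f c⁆⁆ ⁅f x, f c⁆ := cen3 H _ _ _ _
        have k2 : Commute ⁅f x, ⁅f x, f c⁆⁆ Pw := cen3 H _ _ _ _
        have k3 : Pw * ⁅f x, f c⁆ ^ a = ⁅Pw, ⁅f x, f c⁆⁆ ^ a * ⁅f x, f c⁆ ^ a * Pw := by
          rw [← k1.mul_pow, ← conj_eq H, conj_pow]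
          group
        rw [← mul_assoc, k3, mul_assoc, ← (k2.zpow_left (ch2 a)).eq]
        simp only [mul_assoc]
      calc _ = ((Dc f x H w : CN G) : G) * Pw * (f x ^ a * f c) := by
            simp only [mul_assoc]
        _ = ((Dc f x H w : CN G) : G) * (Pw * (⁅f x, f c⁆ ^ a * ⁅f x, ⁅f x, f c⁆⁆ ^ ch2 a)) *
            f c * f x ^ a := by
            rw [h1, h2]
            simp only [mul_assoc]
        _ = _ := by
            rw [h3]
            simp only [mul_assoc]

theorem Dt_Dc [Finite G] : Dt (Dc f x H) := by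
  let i1 := nComm (CN G) (hN_CN H)
  have h1 : Dt (fun w : List α => ∏ y : α, (cm (f x) (fe f x y)) ^ (E1 x y w)) :=
    Dt.prod Finset.univ (fun (y : α) w => (cm (f x) (fe f x y)) ^ (E1 x y w))
      fun y _ => Dt.zpow _ (Ct_E1 x y)
  have h2 : Dt (fun w : List α => ∏ y : α, (cm (f x) ⁅f x, fe f x y⁆) ^ (E2 x y w)) :=
    Dt.prod Finset.univ (fun (y : α) w => (cm (f x) ⁅f x, fe f x y⁆) ^ (E2 x y w))
      fun y _ => Dt.zpow _ (Ct_E2 x y)
  have h3 : Dt (fun w : List α => ∏ y : α, ∏ z : α,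
      (cm (fe f x z) ⁅f x, fe f x y⁆) ^ (E3 x z y w)) :=
    Dt.prod Finset.univ (fun (y : α) w => ∏ z : α, (cm (fe f x z) ⁅f x, fe f x y⁆) ^ (E3 x z y w))
      fun y _ => Dt.prod Finset.univ
        (fun (z : α) w => (cm (fe f x z) ⁅f x, fe f x y⁆) ^ (E3 x z y w))
        fun z _ => Dt.zpow _ (Ct_E3 x z y)
  exact (h1.mul h2).mul h3

include H in
theorem Dt_all [Finite G] (s : Finset α) (f : α → G) (hf : ∀ y, y ∉ s → f y = 1) :
    Dt (fun w : List α => (w.map f).prod) := by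
  classical
  induction s using Finset.induction_on generalizing f with
  | empty =>
    have h1 : (fun w : List α => (w.map f).prod) = fun _ => 1 := by
      funext w
      induction w with
      | nil => rfl
      | cons c w ih => rw [List.map_cons, List.prod_cons, ih, hf c (by simp), mul_one]
    rw [h1]
    exact Dt.one
  | insert x s _ ih =>
    have h1 : Dt (fun w : List α => (w.map (fe f x)).prod) := by
      apply ih
      intro y hy
      unfold fe
      split_ifs with h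
      · rfl
      · apply hf
        rw [Finset.mem_insert]
        rintro (h' | h')
        · exact h h'
        · exact hy h'
    have h2 : Dt (fun w : List α => ((Dc f x H w : CN G) : G)) :=
      (Dt_Dc f x H).comp (fun n : CN G => (n : G))
    have h3 : Dt (fun w : List α => f x ^ (cP (fun c => c = x) w : ℤ)) := Dt.zpow _ (Ct_cnt x)
    have h4 : (fun w : List α => (w.map f).prod) =
        fun w => ((Dc f x H w : CN G) : G) * (w.map (fe f x)).prod *
          f x ^ (cP (fun c => c = x) w : ℤ) := by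
      funext w
      rw [elim_formula f x H w, zpow_natCast]
    rw [h4]
    exact (h2.mul h1).mul h3

end formula

/-- **Main theorem.** -/
theorem main3 {G : Type} [Group G] [Finite G] (H : ∀ a b c d : G, ⁅⁅⁅a, b⁆, c⁆, d⁆ = 1)
    {α : Type} [Finite α] (f : α → G) (S : Set G) : HS 1 {w : List α | (w.map f).prod ∈ S} := by
  have := Fintype.ofFinite α
  have h1 := Dt_all H Finset.univ f (fun y hy => absurd (Finset.mem_univ y) hy)
  have h2 : HS 1 (⋃ g : G, {w : List α | g ∈ S ∧ w ∈ {w : List α | (w.map f).prod = g}}) :=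
    HS.iUnion _ fun g => HS.cond _ fun _ => h1 g
  convert h2 using 1
  ext w
  simp only [Set.mem_ofPred_eq, Set.mem_iUnion]
  constructor
  · intro h; exact ⟨_, h, rfl⟩
  · rintro ⟨g, hg, h⟩; rw [h]; exact hg

end Pool.Agent.H815R3.GSH
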