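import Pool.Agent.H815R3.GSH.Step
import Pool.Agent.H815R3.GSH.Nil3

/-! Nilpotent groups of class less than `2 ^ (k + 1)`. -/

set_option autoImplicit false
set_option linter.unusedSectionVars false
set_option linter.style.haveILetI false

namespace Pool.Agent.H815R3.GSH

open Pool.Agent.H936R2.SH
open scoped commutatorElement

section

variable {G : Type} [Group G]

theorem three_rel (M : Subgroup G) [M.Normal] (H1 H2 H3 : Subgroup G) (h1 : ⁅⁅H2, H3⁆, H1⁆ ≤ M)
    (h2 : ⁅⁅H3, H1⁆, H2⁆ ≤ M) : ⁅⁅H1, H2⁆, H3⁆ ≤ M := by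
  have key : ∀ X : Subgroup G, X ≤ M ↔ X.map (QuotientGroup.mk' M) = ⊥ := by
    intro X
    rw [Subgroup.map_eq_bot_iff, QuotientGroup.ker_mk']
  rw [key, Subgroup.map_commutator, Subgroup.map_commutator] at h1 h2 ⊢
  exact Subgroup.commutator_commutator_eq_bot_of_rotate h1 h2

theorem lcs_comm (i j : ℕ) : ⁅(⊤ : Subgroup G).lowerCentralSeries i,
    (⊤ : Subgroup G).lowerCentralSeries j⁆ ≤ (⊤ : Subgroup G).lowerCentralSeries (i + j + 1) := by
  induction j generalizing i with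
  | zero => exact le_refl _
  | succ j ih =>
    rw [Subgroup.commutator_comm]
    change ⁅⁅(⊤ : Subgroup G).lowerCentralSeries j, ⊤⁆, (⊤ : Subgroup G).lowerCentralSeries i⁆ ≤ _
    apply three_rel
    · have h1 : ⁅(⊤ : Subgroup G), (⊤ : Subgroup G).lowerCentralSeries i⁆ =
          (⊤ : Subgroup G).lowerCentralSeries (i + 1) := Subgroup.commutator_comm _ _
      rw [h1]
      have := ih (i + 1)
      rw [show i + 1 + j + 1 = i + (j + 1) + 1 by ring] at this
      exact this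
    · calc ⁅⁅(⊤ : Subgroup G).lowerCentralSeries i, (⊤ : Subgroup G).lowerCentralSeries j⁆, ⊤⁆
          ≤ ⁅(⊤ : Subgroup G).lowerCentralSeries (i + j + 1), ⊤⁆ :=
            Subgroup.commutator_mono (ih i) le_rfl
        _ = (⊤ : Subgroup G).lowerCentralSeries (i + (j + 1) + 1) := by
            rw [show i + (j + 1) + 1 = (i + j + 1) + 1 by ring]
            rfl

theorem lcs_quot (n : ℕ) (N : Subgroup G) [N.Normal]
    (hN : (⊤ : Subgroup G).lowerCentralSeries n ≤ N) :
    (⊤ : Subgroup (G ⧸ N)).lowerCentralSeries n = ⊥ := by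
  have h1 := Subgroup.map_lowerCentralSeries (S := (⊤ : Subgroup G)) (QuotientGroup.mk' N) n
  have h2 : (⊤ : Subgroup G).map (QuotientGroup.mk' N) = ⊤ :=
    Subgroup.map_top_of_surjective _ (QuotientGroup.mk'_surjective N)
  rw [h2] at h1
  rw [← h1, Subgroup.map_eq_bot_iff, QuotientGroup.ker_mk']
  exact hN

end

theorem nilp {α : Type} [Finite α] (k : ℕ) : ∀ (G : Type) [Group G] [Finite G],
    (⊤ : Subgroup G).lowerCentralSeries (2 ^ (k + 2) - 1) = ⊥ →
    ∀ (f : α → G) (S : Set G), HS (k + 1) {w : List α | (w.map f).prod ∈ S} := by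
  induction k with
  | zero =>
    intro G _ _ h f S
    apply main3
    intro a b c d
    have h0 : ∀ x : G, x ∈ (⊤ : Subgroup G) := fun x => Subgroup.mem_top x
    have h1 : ⁅a, b⁆ ∈ (⊤ : Subgroup G).lowerCentralSeries 1 :=
      Subgroup.commutator_mem_commutator (h0 a) (h0 b)
    have h2 : ⁅⁅a, b⁆, c⁆ ∈ (⊤ : Subgroup G).lowerCentralSeries 2 :=
      Subgroup.commutator_mem_commutator h1 (h0 c)
    have h3 : ⁅⁅⁅a, b⁆, c⁆, d⁆ ∈ (⊤ : Subgroup G).lowerCentralSeries 3 :=
      Subgroup.commutator_mem_commutator h2 (h0 d)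
    have h4 : (⊤ : Subgroup G).lowerCentralSeries 3 = ⊥ := h
    rw [h4] at h3
    exact Subgroup.mem_bot.1 h3
  | succ k ih =>
    intro G _ _ h f S
    set N := (⊤ : Subgroup G).lowerCentralSeries (2 ^ (k + 2) - 1) with hNdef
    have hN : ∀ x ∈ N, ∀ y ∈ N, x * y = y * x := by
      intro x hx y hy
      have h1 : ⁅x, y⁆ ∈ ⁅N, N⁆ := Subgroup.commutator_mem_commutator hx hy
      have h2 := lcs_comm (G := G) (2 ^ (k + 2) - 1) (2 ^ (k + 2) - 1) h1
      have h3 : 2 ^ (k + 2) - 1 + (2 ^ (k + 2) - 1) + 1 = 2 ^ (k + 1 + 2) - 1 := by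
        have h5 : 0 < 2 ^ (k + 2) := by positivity
        have h6 : 2 ^ (k + 1 + 2) = 2 ^ (k + 2) * 2 := by
          rw [show k + 1 + 2 = (k + 2) + 1 by ring, pow_succ 2 (k + 2)]
        rw [h6]
        generalize 2 ^ (k + 2) = X at h5
        omega
      rw [h3, h] at h2
      exact commutatorElement_eq_one_iff_mul_comm.1 (Subgroup.mem_bot.1 h2)
    apply step N f hN
    intro x
    have h4 := ih (G ⧸ N) (lcs_quot _ N le_rfl) (fun b => ((f b : G) : G ⧸ N)) {x}
    exact h4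

end Pool.Agent.H815R3.GSH
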