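import Pool.Agent.H815R3.GSH.Grp
import Mathlib.GroupTheory.SpecificGroups.Alternating
import Mathlib.GroupTheory.SpecificGroups.Cyclic

/-! Permutation automata with `d + 3` states have height at most `d + 1`. -/

set_option autoImplicit false
set_option linter.unusedSectionVars false
set_option linter.style.haveILetI false

namespace Pool.Agent.H815R3.GSH

open Pool.Agent.H936R2.SH

theorem HS.run_n {α Q : Type} [Finite α] [Finite Q] (δ : Q → α → Q) (q0 : Q) {n : ℕ}
    (h : ∀ p q, HS n (Pa δ q0 p q)) (p q : Q) : HS (n + 1) {w : List α | w.foldl δ p = q} := by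
  have hF : ∀ p, HS n (Fh δ q0 p) := by
    intro p
    rw [Fh_eq]
    exact HS.iUnion _ fun s => HS.iUnion _ fun b =>
      HS.cond _ fun _ => (h p s).cat (.letter n b)
  rw [run_eq δ q0]
  exact (h p q).succ.union (((hF p).succ.cat (hF q0).star).cat (h q0 q).succ)

section bypass

variable {α Q : Type} (δ : Q → α → Q) (q0 : Q) (hδ : ∀ a, Function.Injective (fun x => δ x a))

open Classical in
/-- the state `q0` is bypassed -/
noncomputable def by0 (x : {x : Q // x ≠ q0}) (a : α) : {x : Q // x ≠ q0} :=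
  if h : δ x.1 a = q0 then ⟨δ q0 a, fun h' => x.2 (hδ a (h.trans h'.symm))⟩ else ⟨δ x.1 a, h⟩

theorem by0_inj (a : α) : Function.Injective (fun x => by0 δ q0 hδ x a) := by
  intro x y hxy
  simp only [by0] at hxy
  by_cases hx : δ x.1 a = q0
  · by_cases hy : δ y.1 a = q0
    · exact Subtype.ext (hδ a (hx.trans hy.symm))
    · rw [dif_pos hx, dif_neg hy] at hxy
      have := congrArg Subtype.val hxy
      exact absurd (hδ a this).symm y.2
  · by_cases hy : δ y.1 a = q0
    · rw [dif_neg hx, dif_pos hy] at hxy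
      have := congrArg Subtype.val hxy
      exact absurd (hδ a this) x.2
    · rw [dif_neg hx, dif_neg hy] at hxy
      have := congrArg Subtype.val hxy
      exact Subtype.ext (hδ a this)

theorem by0_run (w : List α) (p : {x : Q // x ≠ q0}) (h : Nv δ q0 p.1 w) :
    (w.foldl (by0 δ q0 hδ) p).1 = w.foldl δ p.1 := by
  induction w generalizing p with
  | nil => rfl
  | cons c w ih =>
    obtain ⟨h1, h2⟩ := h
    have h3 : by0 δ q0 hδ p c = ⟨δ p.1 c, h1⟩ := by simp [by0, h1]
    rw [List.foldl_cons, List.foldl_cons, h3]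
    exact ih ⟨δ p.1 c, h1⟩ h2

theorem Nv_iff (w : List α) (p : {x : Q // x ≠ q0}) : Nv δ q0 p.1 w ↔
    ¬ ∃ u a v, w = u ++ a :: v ∧ δ (u.foldl (by0 δ q0 hδ) p).1 a = q0 := by
  induction w generalizing p with
  | nil => simp [Nv]
  | cons c w ih =>
    by_cases h1 : δ p.1 c = q0
    · constructor
      · rintro ⟨h2, _⟩; exact absurd h1 h2
      · intro h; exact absurd ⟨[], c, w, rfl, h1⟩ h
    · have h3 : by0 δ q0 hδ p c = ⟨δ p.1 c, h1⟩ := by simp [by0, h1]
      have h4 := ih ⟨δ p.1 c, h1⟩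
      constructor
      · rintro ⟨_, h2⟩ ⟨u, a, v, h5, h6⟩
        cases u with
        | nil =>
          simp only [List.nil_append, List.cons.injEq] at h5
          rw [← h5.1] at h6
          exact h1 h6
        | cons c' u =>
          simp only [List.cons_append, List.cons.injEq] at h5
          obtain ⟨rfl, h5⟩ := h5
          rw [List.foldl_cons, h3] at h6
          exact (h4.1 h2) ⟨u, a, v, h5, h6⟩
      · intro h
        refine ⟨h1, h4.2 ?_⟩
        rintro ⟨u, a, v, h5, h6⟩
        apply h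
        refine ⟨c :: u, a, v, by rw [h5]; rfl, ?_⟩
        rw [List.foldl_cons, h3]; exact h6

variable [Finite α] [Finite Q] {n : ℕ}

theorem HS_Pa_by (hr : ∀ p q, HS n {w : List α | w.foldl (by0 δ q0 hδ) p = q})
    (p q : {x : Q // x ≠ q0}) : HS n (Pa δ q0 p.1 q.1) := by
  have h1 : HS n ({w : List α | w.foldl (by0 δ q0 hδ) p = q} ∩
      (⋃ x : {x : Q // x ≠ q0}, ⋃ a : α, {w : List α | δ x.1 a = q0 ∧
        w ∈ cat (cat {u : List α | u.foldl (by0 δ q0 hδ) p = x} {[a]}) Set.univ})ᶜ) :=
    (hr p q).inter (HS.iUnion _ fun x => HS.iUnion _ fun a => HS.cond _ fun _ =>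
      ((hr p x).cat (HS.letter n a)).cat (HS.univ n)).compl
  convert h1 using 1
  ext w
  have key : (w ∈ (⋃ x : {x : Q // x ≠ q0}, ⋃ a : α, {w : List α | δ x.1 a = q0 ∧
      w ∈ cat (cat {u : List α | u.foldl (by0 δ q0 hδ) p = x} {[a]}) Set.univ})) ↔
      ∃ u a v, w = u ++ a :: v ∧ δ (u.foldl (by0 δ q0 hδ) p).1 a = q0 := by
    rw [Set.mem_iUnion]
    constructor
    · rintro ⟨x, hx⟩
      rw [Set.mem_iUnion] at hx
      obtain ⟨a, ha, _, ⟨u, hu, _, rfl, rfl⟩, v, _, rfl⟩ := hx
      have hu' : u.foldl (by0 δ q0 hδ) p = x := hu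
      refine ⟨u, a, v, ?_, by rw [hu']; exact ha⟩
      change (u ++ [a]) ++ v = u ++ a :: v
      simp
    · rintro ⟨u, a, v, rfl, h⟩
      refine ⟨u.foldl (by0 δ q0 hδ) p, ?_⟩
      rw [Set.mem_iUnion]
      refine ⟨a, h, u ++ [a], ⟨u, rfl, [a], rfl, rfl⟩, v, trivial, ?_⟩
      change (u ++ [a]) ++ v = u ++ a :: v
      simp
  rw [Set.mem_inter_iff, Set.mem_compl_iff, key, ← Nv_iff]
  constructor
  · rintro ⟨h2, h3⟩
    refine ⟨?_, h2⟩
    apply Subtype.ext
    rw [by0_run δ q0 hδ w p h2]; exact h3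
  · rintro ⟨h2, h3⟩
    refine ⟨h3, ?_⟩
    have h2' : w.foldl (by0 δ q0 hδ) p = q := h2
    rw [← by0_run δ q0 hδ w p h3, h2']

theorem Pa_q0 (p : Q) : Pa δ q0 p q0 = {w : List α | p = q0 ∧ w ∈ ({[]} : Set (List α))} := by
  ext w
  constructor
  · rintro ⟨h1, h2⟩
    rcases List.eq_nil_or_concat w with rfl | ⟨v, c, rfl⟩
    · exact ⟨h2, rfl⟩
    · exfalso
      rw [List.concat_eq_append] at h1 h2
      have : ∀ (v : List α) (p : Q), Nv δ q0 p (v ++ [c]) → (v ++ [c]).foldl δ p ≠ q0 := by
        intro v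
        induction v with
        | nil => rintro p ⟨h, _⟩; exact h
        | cons b v ih => rintro p ⟨_, h⟩; exact ih _ h
      exact this v p h1 h2
  · rintro ⟨rfl, h⟩
    have : w = [] := h
    subst this
    exact ⟨trivial, rfl⟩

theorem HS_Pa_all (hr : ∀ p q, HS n {w : List α | w.foldl (by0 δ q0 hδ) p = q})
    (p q : Q) : HS n (Pa δ q0 p q) := by
  by_cases hq : q = q0
  · rw [hq, Pa_q0]
    exact HS.cond _ fun _ => HS.eps n
  · by_cases hp : p = q0
    · rw [Pa_step]
      exact (HS.cond _ fun _ => HS.eps n).union (HS.iUnion _ fun a => HS.cond _ fun h =>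
        (HS.letter n a).cat (HS_Pa_by δ q0 hδ hr ⟨δ p a, h⟩ ⟨q, hq⟩))
    · exact HS_Pa_by δ q0 hδ hr ⟨p, hp⟩ ⟨q, hq⟩

end bypass

theorem foldl_perm {α Q : Type} (δ : Q → α → Q) (g : α → Equiv.Perm Q)
    (hg : ∀ a x, g a (δ x a) = x) (w : List α) (p : Q) :
    (w.map g).prod (w.foldl δ p) = p := by
  induction w generalizing p with
  | nil => rfl
  | cons a w ih =>
    rw [List.map_cons, List.prod_cons, List.foldl_cons, Equiv.Perm.mul_apply, ih, hg]

theorem comm_of_card {G : Type} [Group G] [Finite G] (h : Nat.card G ≤ 3) (x y : G) :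
    x * y = y * x := by
  have hpos : 0 < Nat.card G := Nat.card_pos
  have key : ∀ p : ℕ, p.Prime → Nat.card G = p → x * y = y * x := by
    intro p hp hc
    have : Fact p.Prime := ⟨hp⟩
    have hcyc : IsCyclic G := isCyclic_of_prime_card hc
    letI := IsCyclic.commGroup (α := G)
    exact mul_comm x y
  interval_cases hc : Nat.card G
  · have : Subsingleton G := (Nat.card_eq_one_iff_unique.1 hc).1
    exact Subsingleton.elim _ _
  · exact key 2 Nat.prime_two rfl
  · exact key 3 Nat.prime_three rfl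

theorem perm_base {α : Type} [Finite α] (Q : Type) [Finite Q] (hQ : Nat.card Q ≤ 3)
    (δ : Q → α → Q) (hδ : ∀ a, Function.Injective (fun x => δ x a)) (p q : Q) :
    HS 1 {w : List α | w.foldl δ p = q} := by
  classical
  have := Fintype.ofFinite Q
  have hb : ∀ a, Function.Bijective (fun x => δ x a) := fun a =>
    Finite.injective_iff_bijective.1 (hδ a)
  set g : α → Equiv.Perm Q := fun a => (Equiv.ofBijective _ (hb a)).symm with hg
  have hg' : ∀ a x, g a (δ x a) = x := by
    intro a x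
    exact (Equiv.ofBijective _ (hb a)).symm_apply_apply x
  have hA : ∀ x ∈ alternatingGroup Q, ∀ y ∈ alternatingGroup Q, x * y = y * x := by
    intro x hx y hy
    have hc : Nat.card (alternatingGroup Q) ≤ 3 := by
      rcases subsingleton_or_nontrivial Q with h | h
      · refine le_trans (Finite.card_le_one_iff_subsingleton.2 ?_) (by norm_num : 1 ≤ 3)
        exact ⟨fun a b => Subtype.ext (Subsingleton.elim _ _)⟩
      · have h1 := two_mul_nat_card_alternatingGroup (α := Q)
        rw [Nat.card_perm] at h1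
        have h2 : (Nat.card Q).factorial ≤ Nat.factorial 3 := Nat.factorial_le hQ
        have h3 : Nat.factorial 3 = 6 := rfl
        omega
    have := comm_of_card hc ⟨x, hx⟩ ⟨y, hy⟩
    exact congrArg Subtype.val this
  have : Fact (Nat.Prime 2) := ⟨Nat.prime_two⟩
  have h1 := main (alternatingGroup Q) g 2 hA
    (by
      intro x y
      rw [Equiv.Perm.mem_alternatingGroup]
      simp only [map_mul, Equiv.Perm.sign_inv]
      rcases Int.units_eq_one_or (Equiv.Perm.sign x) with h | h <;>
        rcases Int.units_eq_one_or (Equiv.Perm.sign y) with h' | h' <;> simp [h, h'])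
    (by
      intro x
      rw [Equiv.Perm.mem_alternatingGroup, map_pow]
      exact Int.units_sq _)
    {x : Equiv.Perm Q | x q = p}
  convert h1 using 1
  ext w
  rw [Set.mem_ofPred_eq, Set.mem_ofPred_eq]
  have h2 := foldl_perm δ g hg' w p
  constructor
  · rintro rfl; exact h2
  · intro h
    have h' : (w.map g).prod q = p := h
    exact (w.map g).prod.injective (h2.trans h'.symm)

theorem perm_run {α : Type} [Finite α] (d : ℕ) : ∀ (Q : Type) [Finite Q], Nat.card Q ≤ d + 3 →
    ∀ (δ : Q → α → Q), (∀ a, Function.Injective (fun x => δ x a)) → ∀ p q : Q,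
    HS (d + 1) {w : List α | w.foldl δ p = q} := by
  induction d with
  | zero => intro Q _ hQ δ hδ p q; exact perm_base Q hQ δ hδ p q
  | succ d ih =>
    intro Q _ hQ δ hδ p q
    apply HS.run_n δ p
    apply HS_Pa_all δ p hδ
    have hc : Nat.card {x : Q // x ≠ p} ≤ d + 3 := by
      have h1 : Nat.card {x : Q // x ≠ p} < Nat.card Q :=
        Finite.card_subtype_lt (x := p) (by simp)
      omega
    exact ih _ hc (by0 δ p hδ) (by0_inj δ p hδ)

theorem perm_grp {α : Type} [Finite α] (d : ℕ) {G : Type} [Group G] [Finite G] (Q : Type)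
    [Finite Q] [MulAction G Q] [FaithfulSMul G Q] (hQ : Nat.card Q ≤ d + 3) (f : α → G)
    (S : Set G) : HS (d + 1) {w : List α | (w.map f).prod ∈ S} := by
  set δ : Q → α → Q := fun x a => (f a)⁻¹ • x with hδdef
  have hδ : ∀ a, Function.Injective (fun x => δ x a) := fun a => MulAction.injective _
  have hrun : ∀ (w : List α) (x : Q), w.foldl δ x = ((w.map f).prod)⁻¹ • x := by
    intro w
    induction w with
    | nil => intro x; simp
    | cons a w ih =>
      intro x
      rw [List.foldl_cons, ih, List.map_cons, List.prod_cons, mul_inv_rev, mul_smul]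
  have h1 : HS (d + 1) (⋃ g : G, {w : List α | g ∈ S ∧
      w ∈ ⋂ x : Q, {w : List α | w.foldl δ x = g⁻¹ • x}}) :=
    HS.iUnion _ fun g => HS.cond _ fun _ => HS.iInter _ fun x => perm_run d Q hQ δ hδ x _
  convert h1 using 1
  ext w
  simp only [Set.mem_ofPred_eq, Set.mem_iUnion, Set.mem_iInter, hrun]
  constructor
  · intro h; exact ⟨_, h, fun _ => rfl⟩
  · rintro ⟨g, hg, h⟩
    have h2 : ((w.map f).prod)⁻¹ = g⁻¹ := FaithfulSMul.eq_of_smul_eq_smul (α := Q) h
    rw [inv_inj.1 h2]; exact hg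

end Pool.Agent.H815R3.GSH
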