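import Pool.Agent.H815R3.GSH.Trans
import Pool.Agent.H815R3.GSH.Nil3

/-! Products of groups. -/

set_option autoImplicit false
set_option linter.unusedSectionVars false

namespace Pool.Agent.H815R3.GSH

open Pool.Agent.H936R2.SH

theorem HS_pi {α ι : Type} [Finite ι] {G : ι → Type} [∀ i, Group (G i)] [∀ i, Finite (G i)]
    {n : ℕ} (f : α → ∀ i, G i)
    (h : ∀ i (S : Set (G i)), HS n {w : List α | (w.map (fun a => f a i)).prod ∈ S})
    (S : Set (∀ i, G i)) : HS n {w : List α | (w.map f).prod ∈ S} := by
  have h1 : HS n (⋃ g : ∀ i, G i, {w : List α | g ∈ S ∧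
      w ∈ ⋂ i, {w : List α | (w.map (fun a => f a i)).prod ∈ ({g i} : Set (G i))}}) :=
    HS.iUnion _ fun g => HS.cond _ fun _ => HS.iInter _ fun i => h i {g i}
  have key : ∀ (w : List α) (i : ι), (w.map f).prod i = (w.map (fun a => f a i)).prod := by
    intro w i
    induction w with
    | nil => rfl
    | cons a w ih => rw [List.map_cons, List.prod_cons, Pi.mul_apply, ih, List.map_cons,
        List.prod_cons]
  convert h1 using 1
  ext w
  simp only [Set.mem_ofPred_eq, Set.mem_iUnion, Set.mem_iInter, Set.mem_singleton_iff]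
  constructor
  · intro h
    exact ⟨_, h, fun i => (key w i).symm⟩
  · rintro ⟨g, hg, h2⟩
    have : (w.map f).prod = g := by
      funext i
      rw [key, h2]
    rw [this]; exact hg

end Pool.Agent.H815R3.GSH
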