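import Pool.Agent.H936R2.SH.Basic

/-! Counter-free automata have star-free languages (Schützenberger's theorem, following Wilke's
induction on the number of states and the number of letters). -/

set_option autoImplicit false

namespace Pool.Agent.H815R3.GSH

open Pool.Agent.H936R2.SH

/-- counter-free for words over `S` -/
def CF {Q α : Type} (δ : Q → α → Q) (S : Set α) : Prop :=
  ∀ (q : Q) (u : List α) (k : ℕ), (∀ x ∈ u, x ∈ S) → 0 < k →
    (fun r => u.foldl δ r)^[k] q = q → u.foldl δ q = q

/-- In a finite set, every point is periodic for an injective map. -/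
theorem exists_iterate {Q : Type} [Finite Q] (f : Q → Q) (hf : Function.Injective f) (q : Q) :
    ∃ k, 0 < k ∧ f^[k] q = q := by
  obtain ⟨i, j, hij, h⟩ := Finite.exists_ne_map_eq_of_infinite (fun n : ℕ => f^[n] q)
  wlog hlt : i < j generalizing i j with H
  · exact H j i hij.symm h.symm (by omega)
  · refine ⟨j - i, by omega, ?_⟩
    have h2 : f^[i] (f^[j - i] q) = f^[i] q := by
      rw [← Function.iterate_add_apply, show i + (j - i) = j by omega]
      exact h.symm
    exact hf.iterate i h2

theorem HS.foldl_const {Q α : Type} (δ : Q → α → Q) (S : Set α)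
    (h : ∀ x ∈ S, ∀ q, δ q x = q) (w : List α) (hw : ∀ x ∈ w, x ∈ S) (q : Q) :
    w.foldl δ q = q := by
  induction w generalizing q with
  | nil => rfl
  | cons a w ih =>
    rw [List.foldl_cons, h a (hw a (by simp))]
    exact ih (fun x hx => hw x (by simp [hx])) q

section step

variable {Q α : Type} (δ : Q → α → Q) (c : α)

/-- the transformation induced by a word -/
def tr (v : List α) : Q → Q := fun q => v.foldl δ q

/-- the states after the letter `c` -/
def Qc : Type := {r : Q // ∃ q, δ q c = r}

/-- the new automaton on the states after the letter `c` -/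
def dl (r : Qc δ c) (t : Q → Q) : Qc δ c := ⟨δ (t r.1) c, t r.1, rfl⟩

/-- the state after `c` -/
def mkc (s : Q) : Qc δ c := ⟨δ s c, s, rfl⟩

theorem mkc_val (s : Q) : (mkc δ c s).1 = δ s c := rfl

/-- text of a list of blocks -/
def text (l : List (List α)) : List α := (l.map (fun v => v ++ [c])).flatten

theorem text_nil : text c ([] : List (List α)) = [] := rfl

theorem text_cons (v : List α) (l : List (List α)) : text c (v :: l) = v ++ c :: text c l := by
  simp [text]

theorem text_append (l l' : List (List α)) : text c (l ++ l') = text c l ++ text c l' := by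
  simp [text]

theorem append_inj_c {v v' X X' : List α} (h1 : c ∉ v) (h2 : c ∉ v')
    (h : v ++ c :: X = v' ++ c :: X') : v = v' ∧ X = X' := by
  induction v generalizing v' with
  | nil =>
    cases v' with
    | nil => simpa using h
    | cons b v' =>
      simp only [List.nil_append, List.cons_append, List.cons.injEq] at h
      exact absurd (h.1 ▸ List.mem_cons_self) h2
  | cons a v ih =>
    cases v' with
    | nil =>
      simp only [List.nil_append, List.cons_append, List.cons.injEq] at h
      exact absurd (h.1 ▸ List.mem_cons_self) h1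
    | cons b v' =>
      simp only [List.cons_append, List.cons.injEq] at h
      obtain ⟨rfl, h⟩ := h
      obtain ⟨h3, h4⟩ := ih (fun hh => h1 (List.mem_cons_of_mem _ hh))
        (fun hh => h2 (List.mem_cons_of_mem _ hh)) h
      exact ⟨by rw [h3], h4⟩

theorem text_inj : ∀ (l l' : List (List α)), (∀ v ∈ l, c ∉ v) → (∀ v ∈ l', c ∉ v) →
    text c l = text c l' → l = l' := by
  intro l
  induction l with
  | nil =>
    intro l' _ _ h
    cases l' with
    | nil => rfl
    | cons v l' => simp [text_nil, text_cons] at h
  | cons v l ih =>
    intro l' h1 h2 h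
    cases l' with
    | nil => simp [text_nil, text_cons] at h
    | cons v' l' =>
      rw [text_cons, text_cons] at h
      obtain ⟨h3, h4⟩ := append_inj_c c (h1 v (by simp)) (h2 v' (by simp)) h
      rw [h3, ih l' (fun x hx => h1 x (by simp [hx])) (fun x hx => h2 x (by simp [hx])) h4]

theorem run_text (l : List (List α)) (r : Qc δ c) :
    ((l.map (tr δ)).foldl (dl δ c) r).1 = (text c l).foldl δ r.1 := by
  induction l generalizing r with
  | nil => rfl
  | cons v l ih =>
    rw [List.map_cons, List.foldl_cons, ih, text_cons, List.foldl_append, List.foldl_cons]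
    rfl

/-- the pull back of a language over the alphabet of transformations -/
def Pull (S' : Set α) (X : Set (List (Q → Q))) : Set (List α) :=
  {w | ∃ l : List (List α), (∀ v ∈ l, ∀ x ∈ v, x ∈ S') ∧ w = text c l ∧ l.map (tr δ) ∈ X}

theorem exists_text (S : Set α) : ∀ (w : List α), (∀ x ∈ w, x ∈ S) →
    (w = [] ∨ ∃ w', w = w' ++ [c]) →
    ∃ l : List (List α), (∀ v ∈ l, ∀ x ∈ v, x ∈ S \ {c}) ∧ w = text c l := by
  intro w
  induction w with
  | nil => intro _ _; exact ⟨[], by simp, rfl⟩
  | cons a w ih =>
    intro hS h
    have hw : w = [] ∨ ∃ w', w = w' ++ [c] := by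
      rcases h with h | ⟨w', h⟩
      · simp at h
      · cases w' with
        | nil =>
          simp only [List.nil_append, List.cons.injEq] at h
          exact Or.inl h.2
        | cons b w' =>
          simp only [List.cons_append, List.cons.injEq] at h
          exact Or.inr ⟨w', h.2⟩
    obtain ⟨l, hl, rfl⟩ := ih (fun x hx => hS x (by simp [hx])) hw
    by_cases ha : a = c
    · subst ha
      refine ⟨[] :: l, ?_, ?_⟩
      · intro v hv
        rcases List.mem_cons.1 hv with rfl | hv
        · simp
        · exact hl v hv
      · rw [text_cons]; rfl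
    · cases l with
      | nil =>
        exfalso
        rcases h with h | ⟨w', h⟩
        · simp at h
        · rw [text_nil] at h
          cases w' with
          | nil => simp at h; exact ha h
          | cons b w' => simp at h
      | cons v l =>
        refine ⟨(a :: v) :: l, ?_, ?_⟩
        · intro v' hv'
          rcases List.mem_cons.1 hv' with rfl | hv'
          · intro x hx
            rcases List.mem_cons.1 hx with rfl | hx
            · exact ⟨hS x (by simp), ha⟩
            · exact hl v (by simp) x hx
          · exact hl v' (by simp [hv'])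
        · rw [text_cons, text_cons]; rfl

theorem text_shape (l : List (List α)) : text c l = [] ∨ ∃ w', text c l = w' ++ [c] := by
  rcases List.eq_nil_or_concat l with rfl | ⟨l, v, rfl⟩
  · exact Or.inl rfl
  · right
    refine ⟨text c l ++ v, ?_⟩
    simp [text]

theorem HS_pull [Finite α] [Finite Q] (S : Set α) (hc : c ∈ S)
    (hV : ∀ p q, HS 0 {w : List α | (∀ x ∈ w, x ∈ S \ {c}) ∧ w.foldl δ p = q})
    {n : ℕ} {X : Set (List (Q → Q))} (hX : HS n X) (hn : n = 0) :
    HS 0 (Pull δ c (S \ {c}) X) := by
  induction hX with
  | empty n =>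
    convert HS.empty (α := α) 0 using 1
    ext w; simp [Pull]
  | eps n =>
    convert HS.eps (α := α) 0 using 1
    ext w
    simp only [Pull, Set.mem_ofPred_eq, Set.mem_singleton_iff, List.map_eq_nil_iff]
    constructor
    · rintro ⟨l, _, rfl, rfl⟩; rfl
    · rintro rfl; exact ⟨[], by simp, rfl, rfl⟩
  | letter n t =>
    have h1 : HS 0 ({w : List α | ∀ x ∈ w, x ∈ S \ {c}} ∩
        ⋂ q : Q, {w : List α | (∀ x ∈ w, x ∈ S \ {c}) ∧ w.foldl δ q = t q}) :=
      (HS.words 0 _).inter (HS.iInter _ fun q => hV q (t q))
    convert h1.cat (.letter 0 c) using 1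
    ext w
    constructor
    · rintro ⟨l, hl, rfl, hm⟩
      rw [Set.mem_singleton_iff] at hm
      cases l with
      | nil => simp at hm
      | cons v l =>
        cases l with
        | nil =>
          simp only [List.map_cons, List.map_nil, List.cons.injEq, and_true] at hm
          refine ⟨v, ⟨hl v (by simp), ?_⟩, [c], rfl, ?_⟩
          · rw [Set.mem_iInter]
            intro q
            exact ⟨hl v (by simp), congrFun hm q⟩
          · rw [text_cons, text_nil]
        | cons v' l => simp at hm
    · rintro ⟨v, ⟨hv1, hv2⟩, x, hx, rfl⟩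
      rw [Set.mem_singleton_iff] at hx
      subst hx
      rw [Set.mem_iInter] at hv2
      refine ⟨[v], ?_, ?_, ?_⟩
      · intro v' hv'
        rw [List.mem_singleton] at hv'
        subst hv'
        exact hv1
      · rw [text_cons, text_nil]
      · rw [Set.mem_singleton_iff]
        simp only [List.map_cons, List.map_nil, List.cons.injEq, and_true]
        funext q
        exact (hv2 q).2
  | union h1 h2 ih1 ih2 =>
    convert (ih1 hn).union (ih2 hn) using 1
    ext w
    constructor
    · rintro ⟨l, hl, hw, h | h⟩
      · exact Or.inl ⟨l, hl, hw, h⟩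
      · exact Or.inr ⟨l, hl, hw, h⟩
    · rintro (⟨l, hl, hw, h⟩ | ⟨l, hl, hw, h⟩)
      · exact ⟨l, hl, hw, Or.inl h⟩
      · exact ⟨l, hl, hw, Or.inr h⟩
  | cat h1 h2 ih1 ih2 =>
    convert (ih1 hn).cat (ih2 hn) using 1
    ext w
    constructor
    · rintro ⟨l, hl, rfl, y, hy, z, hz, hyz⟩
      obtain ⟨l1, l2, rfl, rfl, rfl⟩ := List.map_eq_append_iff.1 hyz.symm
      exact ⟨text c l1, ⟨l1, fun v hv => hl v (by simp [hv]), rfl, hy⟩, text c l2,
        ⟨l2, fun v hv => hl v (by simp [hv]), rfl, hz⟩, (text_append c l1 l2).symm⟩
    · rintro ⟨_, ⟨l1, hl1, rfl, hy⟩, _, ⟨l2, hl2, rfl, hz⟩, rfl⟩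
      refine ⟨l1 ++ l2, ?_, (text_append c l1 l2).symm, ?_⟩
      · intro v hv
        rcases List.mem_append.1 hv with hv | hv
        · exact hl1 v hv
        · exact hl2 v hv
      · exact ⟨_, hy, _, hz, (List.map_append).symm⟩
  | @compl m Y h1 ih1 =>
    have h2 : HS 0 ({w : List α | ∀ x ∈ w, x ∈ S} ∩
        (({[]} : Set (List α)) ∪ Pool.Agent.H936R2.SH.cat Set.univ {[c]})) :=
      (HS.words 0 _).inter ((HS.eps 0).union ((HS.univ 0).cat (.letter 0 c)))
    convert h2.inter (ih1 hn).compl using 1
    ext w
    constructor
    · rintro ⟨l, hl, rfl, hY⟩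
      refine ⟨⟨?_, ?_⟩, ?_⟩
      · intro x hx
        simp only [text, List.mem_flatten, List.mem_map] at hx
        obtain ⟨_, ⟨v, hv, rfl⟩, hx⟩ := hx
        rcases List.mem_append.1 hx with hx | hx
        · exact (hl v hv x hx).1
        · rw [List.mem_singleton] at hx
          rw [hx]; exact hc
      · rcases text_shape c l with h | ⟨w', h⟩
        · exact Or.inl h
        · exact Or.inr ⟨w', trivial, [c], rfl, h.symm⟩
      · rintro ⟨l', hl', h, hY'⟩
        have := text_inj c l l' (fun v hv hcv => (hl v hv c hcv).2 rfl)
          (fun v hv hcv => (hl' v hv c hcv).2 rfl) h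
        subst this
        exact hY hY'
    · rintro ⟨⟨hw1, hw2⟩, hw3⟩
      have hw2' : w = [] ∨ ∃ w', w = w' ++ [c] := by
        rcases hw2 with h | ⟨w', _, _, rfl, h⟩
        · exact Or.inl h
        · exact Or.inr ⟨w', h.symm⟩
      obtain ⟨l, hl, rfl⟩ := exists_text c S w hw1 hw2'
      refine ⟨l, hl, rfl, ?_⟩
      intro hY
      exact hw3 ⟨l, hl, rfl, hY⟩
  | star _ _ => omega

end step

theorem split_c {α : Type} (c : α) (S : Set α) : ∀ w : List α, (∀ x ∈ w, x ∈ S) →
    (∀ x ∈ w, x ∈ S \ {c}) ∨ ∃ (v0 : List α) (l : List (List α)) (v' : List α),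
      (∀ x ∈ v0, x ∈ S \ {c}) ∧ (∀ v ∈ l, ∀ x ∈ v, x ∈ S \ {c}) ∧ (∀ x ∈ v', x ∈ S \ {c}) ∧
      w = v0 ++ c :: (text c l ++ v') := by
  intro w
  induction w with
  | nil => intro _; left; simp
  | cons a w ih =>
    intro hS
    by_cases ha : a = c
    · subst ha
      right
      rcases ih (fun x hx => hS x (by simp [hx])) with h | ⟨v0, l, v', h0, hl, h', rfl⟩
      · exact ⟨[], [], w, by simp, by simp, h, by simp [text_nil]⟩
      · refine ⟨[], v0 :: l, v', by simp, ?_, h', ?_⟩
        · intro v hv
          rcases List.mem_cons.1 hv with rfl | hv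
          · exact h0
          · exact hl v hv
        · rw [text_cons]; simp
    · have haS : a ∈ S \ {c} := ⟨hS a (by simp), ha⟩
      rcases ih (fun x hx => hS x (by simp [hx])) with h | ⟨v0, l, v', h0, hl, h', rfl⟩
      · left
        intro x hx
        rcases List.mem_cons.1 hx with rfl | hx
        · exact haS
        · exact h x hx
      · right
        refine ⟨a :: v0, l, v', ?_, hl, h', by simp⟩
        intro x hx
        rcases List.mem_cons.1 hx with rfl | hx
        · exact haS
        · exact h0 x hx

/-- **Schützenberger's theorem** for counter-free automata. -/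
theorem schutz (N : ℕ) : ∀ (Q : Type) [Finite Q], Nat.card Q ≤ N → ∀ (α : Type) [Finite α]
    (δ : Q → α → Q) (n : ℕ) (S : Set α), S.ncard ≤ n → CF δ S → ∀ p q,
    HS 0 {w : List α | (∀ x ∈ w, x ∈ S) ∧ w.foldl δ p = q} := by
  classical
  induction N with
  | zero =>
    intro Q _ hQ α _ δ n S hS hCF p
    have h0 : Nat.card Q = 0 := by omega
    rw [Nat.card_eq_zero] at h0
    rcases h0 with h0 | h0
    · exact h0.elim p
    · exact absurd ‹Finite Q› (not_finite_iff_infinite.2 h0)
  | succ N IH =>
    intro Q _ hQ α _ δ n
    induction n with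
    | zero =>
      intro S hS hCF p q
      have hS0 : S = ∅ := by
        rw [← Set.ncard_eq_zero (Set.toFinite S)]; omega
      subst hS0
      by_cases hpq : p = q
      · subst hpq
        convert HS.eps (α := α) 0 using 1
        ext w
        constructor
        · rintro ⟨h, -⟩
          exact List.eq_nil_iff_forall_not_mem.2 h
        · rintro rfl
          exact ⟨by simp, rfl⟩
      · convert HS.empty (α := α) 0 using 1
        ext w
        constructor
        · rintro ⟨h, h2⟩
          have : w = [] := List.eq_nil_iff_forall_not_mem.2 h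
          subst this
          exact hpq h2
        · rintro ⟨⟩
    | succ n ihn =>
      intro S hS hCF p q
      by_cases hc : ∃ c ∈ S, ¬ Function.Injective (fun q => δ q c)
      · obtain ⟨c, hcS, hc⟩ := hc
        have hcard : (S \ {c}).ncard ≤ n := by
          have := Set.ncard_sdiff_singleton_lt_of_mem hcS (Set.toFinite S)
          omega
        have hCF' : CF δ (S \ {c}) := fun q u k hu hk h => hCF q u k (fun x hx => (hu x hx).1) hk h
        have hV := ihn (S \ {c}) hcard hCF'
        have hfin : Finite (Qc δ c) := Subtype.finite
        have hlt : Nat.card (Qc δ c) ≤ N := by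
          have hns : ¬ Function.Surjective (fun q => δ q c) := fun h =>
            hc (Finite.injective_iff_surjective.2 h)
          rw [Function.Surjective] at hns
          push Not at hns
          obtain ⟨b, hb⟩ := hns
          have := Finite.card_subtype_lt (p := fun r => ∃ q, δ q c = r) (x := b)
            (fun ⟨q, hq⟩ => hb q hq)
          have h2 : Nat.card (Qc δ c) < Nat.card Q := this
          omega
        set ST : Set (Q → Q) := {t | ∃ v : List α, (∀ x ∈ v, x ∈ S \ {c}) ∧ t = tr δ v} with hST
        have hCFl : CF (dl δ c) ST := by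
          intro r U k hU hk h
          obtain ⟨u, hu, hur⟩ : ∃ u : List α, (∀ x ∈ u, x ∈ S) ∧
              ∀ r : Qc δ c, (U.foldl (dl δ c) r).1 = u.foldl δ r.1 := by
            clear h
            induction U with
            | nil => exact ⟨[], by simp, fun _ => rfl⟩
            | cons t U ihU =>
              obtain ⟨u, hu, hur⟩ := ihU (fun x hx => hU x (by simp [hx]))
              obtain ⟨v, hv, rfl⟩ := hU t (by simp)
              refine ⟨v ++ c :: u, ?_, ?_⟩
              · intro x hx
                rcases List.mem_append.1 hx with hx | hx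
                · exact (hv x hx).1
                · rcases List.mem_cons.1 hx with rfl | hx
                  · exact hcS
                  · exact hu x hx
              · intro r
                rw [List.foldl_cons, hur, List.foldl_append, List.foldl_cons]
                rfl
          have hit : ∀ (k : ℕ) (r : Qc δ c), ((fun r => U.foldl (dl δ c) r)^[k] r).1 =
              (fun r => u.foldl δ r)^[k] r.1 := by
            intro k
            induction k with
            | zero => intro r; rfl
            | succ k ihk =>
              intro r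
              rw [Function.iterate_succ_apply, Function.iterate_succ_apply, ihk, hur]
          apply Subtype.ext
          rw [hur]
          apply hCF r.1 u k hu hk
          rw [← hit, h]
        have hP : ∀ r r' : Qc δ c, HS 0 (Pull δ c (S \ {c})
            {X | (∀ x ∈ X, x ∈ ST) ∧ X.foldl (dl δ c) r = r'}) := fun r r' =>
          HS_pull δ c S hcS hV (IH (Qc δ c) hlt (Q → Q) (dl δ c) _ ST le_rfl hCFl r r') rfl
        have key : {w : List α | (∀ x ∈ w, x ∈ S) ∧ w.foldl δ p = q} =
            {w : List α | (∀ x ∈ w, x ∈ S \ {c}) ∧ w.foldl δ p = q} ∪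
            ⋃ s : Q, ⋃ r' : Qc δ c,
              cat (cat (cat {w : List α | (∀ x ∈ w, x ∈ S \ {c}) ∧ w.foldl δ p = s} {[c]})
                (Pull δ c (S \ {c}) {X | (∀ x ∈ X, x ∈ ST) ∧
                  X.foldl (dl δ c) (mkc δ c s) = r'}))
              {w : List α | (∀ x ∈ w, x ∈ S \ {c}) ∧ w.foldl δ r'.1 = q} := by
          ext w
          constructor
          · rintro ⟨hw, hq⟩
            rcases split_c c S w hw with h | ⟨v0, l, v', h0, hl, h', rfl⟩
            · exact Or.inl ⟨h, hq⟩
            · right
              rw [Set.mem_iUnion]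
              refine ⟨v0.foldl δ p, ?_⟩
              rw [Set.mem_iUnion]
              refine ⟨(l.map (tr δ)).foldl (dl δ c)
                (mkc δ c (v0.foldl δ p)), ?_⟩
              refine ⟨(v0 ++ [c]) ++ text c l, ⟨v0 ++ [c], ⟨v0, ⟨h0, rfl⟩, [c], rfl, rfl⟩,
                text c l, ⟨l, hl, rfl, ?_, rfl⟩, rfl⟩, v', ⟨h', ?_⟩, ?_⟩
              · intro t ht
                obtain ⟨v, hv, rfl⟩ := List.mem_map.1 ht
                exact ⟨v, hl v hv, rfl⟩
              · rw [run_text, mkc_val]
                rw [← hq, List.foldl_append, List.foldl_cons, List.foldl_append]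
              · simp
          · rintro (⟨h, hq⟩ | h)
            · exact ⟨fun x hx => (h x hx).1, hq⟩
            · rw [Set.mem_iUnion] at h
              obtain ⟨s, h⟩ := h
              rw [Set.mem_iUnion] at h
              obtain ⟨r', _, ⟨_, ⟨v0, ⟨h0, hs⟩, x, hx, rfl⟩, _, ⟨l, hl, rfl, _, hr⟩, rfl⟩,
                v', ⟨h', hq⟩, rfl⟩ := h
              rw [Set.mem_singleton_iff] at hx
              subst hx
              refine ⟨?_, ?_⟩
              · intro x hx
                simp only [List.mem_append, List.mem_singleton, text, List.mem_flatten,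
                  List.mem_map] at hx
                rcases hx with ((hx | rfl) | ⟨_, ⟨v, hv, rfl⟩, hx⟩) | hx
                · exact (h0 x hx).1
                · exact hcS
                · rcases List.mem_append.1 hx with hx | hx
                  · exact (hl v hv x hx).1
                  · rw [List.mem_singleton] at hx
                    rw [hx]; exact hcS
                · exact (h' x hx).1
              · change ((v0 ++ [c]) ++ text c l ++ v').foldl δ p = q
                rw [List.foldl_append, List.foldl_append, List.foldl_append, hs]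
                have := run_text δ c l (mkc δ c s)
                rw [hr, mkc_val] at this
                change List.foldl δ (List.foldl δ (δ s c) (text c l)) v' = q
                rw [← this, hq]
        rw [key]
        exact (hV p q).union (HS.iUnion _ fun s => HS.iUnion _ fun r' =>
          (((hV p s).cat (.letter 0 c)).cat (hP _ _)).cat (hV _ _))
      · push Not at hc
        have hid : ∀ x ∈ S, ∀ q, δ q x = q := by
          intro x hx q
          obtain ⟨k, hk, h⟩ := exists_iterate (fun q => δ q x) (hc x hx) q
          exact hCF q [x] k (by simpa using hx) hk h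
        by_cases hpq : p = q
        · subst hpq
          convert HS.words (α := α) 0 S using 1
          ext w
          exact ⟨fun h => h.1, fun h => ⟨h, HS.foldl_const δ S hid w h p⟩⟩
        · convert HS.empty (α := α) 0 using 1
          ext w
          constructor
          · rintro ⟨h, h2⟩
            rw [HS.foldl_const δ S hid w h p] at h2
            exact hpq h2
          · rintro ⟨⟩

end Pool.Agent.H815R3.GSH
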