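import Pool.Agent.H815R3.GSH.Step
import Mathlib.GroupTheory.Solvable

/-! Groups with a solvable normal subgroup of derived length `j` and elementary abelian quotient. -/

set_option autoImplicit false
set_option linter.unusedSectionVars false
set_option linter.style.haveILetI false

namespace Pool.Agent.H815R3.GSH

open Pool.Agent.H936R2.SH
open scoped commutatorElement

theorem solv {α : Type} [Finite α] (p : ℕ) [Fact p.Prime] (j : ℕ) :
    ∀ (G : Type) [Group G] [Finite G] (N : Subgroup G) [N.Normal],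
    derivedSeries N (j + 1) = ⊥ → (∀ g h : G, g * h * g⁻¹ * h⁻¹ ∈ N) → (∀ g : G, g ^ p ∈ N) →
    ∀ (f : α → G) (S : Set G), HS (j + 1) {w : List α | (w.map f).prod ∈ S} := by
  induction j with
  | zero =>
    intro G _ _ N _ hd hc hp f S
    refine main N f p ?_ hc hp S
    intro x hx y hy
    have h1 : ⁅(⟨x, hx⟩ : N), (⟨y, hy⟩ : N)⁆ ∈ derivedSeries N 1 :=
      Subgroup.commutator_mem_commutator (Subgroup.mem_top _) (Subgroup.mem_top _)
    have hd' : derivedSeries N 1 = ⊥ := hd
    rw [hd'] at h1
    have h2 := commutatorElement_eq_one_iff_mul_comm.1 (Subgroup.mem_bot.1 h1)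
    exact congrArg Subtype.val h2
  | succ j ih =>
    intro G _ _ N _ hd hc hp f S
    set D : Subgroup G := (derivedSeries N (j + 1)).map N.subtype with hD
    have hDn : D.Normal := ConjAct.normal_of_characteristic_of_normal
    have hDa : ∀ x ∈ D, ∀ y ∈ D, x * y = y * x := by
      rintro _ ⟨x, hx, rfl⟩ _ ⟨y, hy, rfl⟩
      have h1 : ⁅x, y⁆ ∈ derivedSeries N (j + 1 + 1) :=
        Subgroup.commutator_mem_commutator hx hy
      rw [hd] at h1
      have h2 := commutatorElement_eq_one_iff_mul_comm.1 (Subgroup.mem_bot.1 h1)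
      exact congrArg Subtype.val h2
    apply step D f hDa
    intro x
    set N' : Subgroup (G ⧸ D) := N.map (QuotientGroup.mk' D) with hN'
    have hN'n : N'.Normal := Subgroup.Normal.map inferInstance _ (QuotientGroup.mk'_surjective D)
    have hmem : ∀ g : G, g ∈ N → ((g : G) : G ⧸ D) ∈ N' := fun g hg => ⟨g, hg, rfl⟩
    have hd' : derivedSeries N' (j + 1) = ⊥ := by
      have hs := (QuotientGroup.mk' D).subgroupMap_surjective N
      rw [← map_derivedSeries_eq hs (j + 1), Subgroup.map_eq_bot_iff]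
      intro y hy
      rw [MonoidHom.mem_ker]
      apply Subtype.ext
      change ((y : G) : G ⧸ D) = 1
      rw [QuotientGroup.eq_one_iff]
      exact ⟨y, hy, rfl⟩
    have hc' : ∀ g h : G ⧸ D, g * h * g⁻¹ * h⁻¹ ∈ N' := by
      intro g h
      obtain ⟨g, rfl⟩ := QuotientGroup.mk'_surjective D g
      obtain ⟨h, rfl⟩ := QuotientGroup.mk'_surjective D h
      exact hmem _ (hc g h)
    have hp' : ∀ g : G ⧸ D, g ^ p ∈ N' := by
      intro g
      obtain ⟨g, rfl⟩ := QuotientGroup.mk'_surjective D g
      exact hmem _ (hp g)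
    exact ih (G ⧸ D) N' hd' hc' hp' (fun b => ((f b : G) : G ⧸ D)) {x}

end Pool.Agent.H815R3.GSH
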