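import Pool.Agent.H815R3.GSH.Grp

/-! Henneman's step: an abelian normal subgroup raises the height by at most one. -/

set_option autoImplicit false
set_option linter.unusedSectionVars false
set_option linter.style.haveILetI false

namespace Pool.Agent.H815R3.GSH

open Pool.Agent.H936R2.SH

section

variable {α H : Type} [Group H] (π : α → H) (h : H) (a : α)

open Classical in
/-- number of occurrences of `a` at the state `h` -/
noncomputable def ct : H → List α → ℕ
  | _, [] => 0
  | g, y :: w => (if y = a ∧ g = h then 1 else 0) + ct (g * π y) w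

theorem ct_append (g : H) (u v : List α) :
    ct π h a g (u ++ v) = ct π h a g u + ct π h a (g * (u.map π).prod) v := by
  induction u generalizing g with
  | nil => simp [ct]
  | cons y u ih =>
    rw [List.cons_append, ct, ih, ct, List.map_cons, List.prod_cons, ← mul_assoc, Nat.add_assoc]

/-- words leading from `g` to `h` without an occurrence of `a` at the state `h` -/
def Ug (g : H) : Set (List α) := {u | ct π h a g u = 0 ∧ g * (u.map π).prod = h}

theorem ct_split (g : H) (w : List α) (j : ℕ) : ct π h a g w = j + 1 ↔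
    ∃ u v, w = u ++ a :: v ∧ u ∈ Ug π h a g ∧ ct π h a (h * π a) v = j := by
  classical
  constructor
  · intro hw
    induction w generalizing g with
    | nil => simp [ct] at hw
    | cons y w ih =>
      rw [ct] at hw
      by_cases hy : y = a ∧ g = h
      · rw [if_pos hy] at hw
        obtain ⟨rfl, rfl⟩ := hy
        exact ⟨[], w, rfl, ⟨rfl, by simp⟩, by omega⟩
      · rw [if_neg hy, zero_add] at hw
        obtain ⟨u, v, rfl, ⟨h1, h2⟩, h3⟩ := ih _ hw
        refine ⟨y :: u, v, rfl, ⟨?_, ?_⟩, h3⟩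
        · rw [ct, if_neg hy, h1]
        · rw [List.map_cons, List.prod_cons, ← mul_assoc]; exact h2
  · rintro ⟨u, v, rfl, ⟨h1, h2⟩, h3⟩
    rw [ct_append, h1, h2, ct, if_pos ⟨rfl, rfl⟩, h3]
    omega

theorem ct_zero (g : H) : {w : List α | ct π h a g w = 0} =
    (cat (cat {u : List α | (u.map π).prod = g⁻¹ * h} {[a]}) Set.univ)ᶜ := by
  classical
  ext w
  rw [Set.mem_ofPred_eq, Set.mem_compl_iff]
  constructor
  · rintro h0 ⟨_, ⟨u, hu, _, rfl, rfl⟩, v, _, rfl⟩
    change (u.map π).prod = g⁻¹ * h at hu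
    change ct π h a g ((u ++ [a]) ++ v) = 0 at h0
    rw [ct_append, ct_append, hu, mul_inv_cancel_left, ct, if_pos ⟨rfl, rfl⟩] at h0
    omega
  · intro hn
    by_contra h0
    obtain ⟨j, hj⟩ : ∃ j, ct π h a g w = j + 1 := ⟨ct π h a g w - 1, by omega⟩
    obtain ⟨u, v, rfl, ⟨_, h2⟩, _⟩ := (ct_split π h a g w j).1 hj
    apply hn
    refine ⟨u ++ [a], ⟨u, ?_, [a], rfl, rfl⟩, v, trivial, ?_⟩
    · change (u.map π).prod = g⁻¹ * h
      rw [← h2]; group
    · change (u ++ [a]) ++ v = u ++ a :: v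
      simp

/-- `k` returns -/
def Bp : ℕ → Set (List α)
  | 0 => {[]}
  | k + 1 => cat (cat (Ug π h a (h * π a)) {[a]}) (Bp k)

theorem Bp_spec (k : ℕ) (b : List α) (hb : b ∈ Bp π h a k) :
    (b.map π).prod = 1 ∧ ct π h a (h * π a) b = k := by
  classical
  induction k generalizing b with
  | zero =>
    have : b = [] := hb
    subst this
    simp [ct]
  | succ k ih =>
    obtain ⟨_, ⟨u, ⟨h1, h2⟩, _, rfl, rfl⟩, b', hb', rfl⟩ := hb
    obtain ⟨h3, h4⟩ := ih b' hb'
    have h5 : (u.map π).prod * π a = 1 := by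
      have : h * π a * ((u.map π).prod * π a) = h * π a := by rw [← mul_assoc, h2]
      exact mul_eq_left.1 this
    constructor
    · change ((u ++ [a] ++ b').map π).prod = 1
      rw [List.map_append, List.map_append, List.prod_append, List.prod_append, h3]
      simpa using h5
    · change ct π h a (h * π a) (u ++ [a] ++ b') = k + 1
      rw [List.append_assoc, ct_append, h1, h2, List.cons_append, List.nil_append, ct,
        if_pos ⟨rfl, rfl⟩, h4]
      omega

theorem Bp_exists (k : ℕ) (w : List α) (hw : k ≤ ct π h a (h * π a) w) :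
    ∃ b v, w = b ++ v ∧ b ∈ Bp π h a k ∧
      ct π h a (h * π a) v = ct π h a (h * π a) w - k := by
  induction k generalizing w with
  | zero => exact ⟨[], w, rfl, rfl, rfl⟩
  | succ k ih =>
    obtain ⟨j, hj⟩ : ∃ j, ct π h a (h * π a) w = j + 1 :=
      ⟨ct π h a (h * π a) w - 1, by omega⟩
    obtain ⟨u, v, rfl, hu, hv⟩ := (ct_split π h a _ w j).1 hj
    obtain ⟨b, v', rfl, hb, hv'⟩ := ih v (by omega)
    refine ⟨u ++ [a] ++ b, v', by simp, ⟨u ++ [a], ⟨u, hu, [a], rfl, rfl⟩, b, hb, rfl⟩, by omega⟩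

theorem ct_mod (m r : ℕ) (hr : r < m) : {w : List α | ct π h a (h * π a) w % m = r} =
    cat (st (Bp π h a m)) (cat (Bp π h a r) {w : List α | ct π h a (h * π a) w = 0}) := by
  ext w
  constructor
  · intro hw
    have hw' : ct π h a (h * π a) w % m = r := hw
    obtain ⟨q, hq⟩ : ∃ q, ct π h a (h * π a) w = m * q + r :=
      ⟨ct π h a (h * π a) w / m, by rw [← hw']; exact (Nat.div_add_mod _ _).symm⟩
    clear hw hw'
    induction q generalizing w with
    | zero =>
      obtain ⟨b, v, rfl, hb, hv⟩ := Bp_exists π h a r w (by omega)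
      exact ⟨[], st_nil _, b ++ v, ⟨b, hb, v, by change _ = 0; omega, rfl⟩, rfl⟩
    | succ q ih =>
      obtain ⟨b, v, rfl, hb, hv⟩ := Bp_exists π h a m w (by rw [hq, Nat.mul_succ]; omega)
      obtain ⟨s, hs, t, ht, hst⟩ := ih v (by rw [hv, hq, Nat.mul_succ]; omega)
      refine ⟨b ++ s, st_cons hb hs, t, ht, ?_⟩
      change b ++ s ++ t = b ++ v
      rw [List.append_assoc]
      congr 1
  · rintro ⟨s, ⟨l, hl, rfl⟩, _, ⟨b, hb, v, hv, rfl⟩, rfl⟩
    change ct π h a (h * π a) (l.flatten ++ (b ++ v)) % m = r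
    have hv0 : ct π h a (h * π a) v = 0 := hv
    obtain ⟨h1, h2⟩ := Bp_spec π h a r b hb
    have key : ∀ l : List (List α), (∀ x ∈ l, x ∈ Bp π h a m) →
        (l.flatten.map π).prod = 1 ∧ ct π h a (h * π a) l.flatten % m = 0 := by
      intro l
      induction l with
      | nil => intro _; simp [ct]
      | cons x l ih =>
        intro hl
        obtain ⟨h3, h4⟩ := ih (fun y hy => hl y (List.mem_cons_of_mem _ hy))
        obtain ⟨h5, h6⟩ := Bp_spec π h a m x (hl x List.mem_cons_self)
        constructor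
        · rw [List.flatten_cons, List.map_append, List.prod_append, h5, h3, mul_one]
        · rw [List.flatten_cons, ct_append, h5, mul_one, h6, Nat.add_mod, h4]
          simp
    obtain ⟨h3, h4⟩ := key l hl
    rw [ct_append, ct_append, h3, mul_one, h1, mul_one, h2, hv0, add_zero, Nat.add_mod, h4,
      zero_add, Nat.mod_mod, Nat.mod_eq_of_lt hr]

variable {n : ℕ} (hP : ∀ x : H, HS n {w : List α | (w.map π).prod = x})

include hP

theorem HS_ct0 (g : H) : HS n {w : List α | ct π h a g w = 0} := by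
  rw [ct_zero]
  exact (((hP _).cat (HS.letter n a)).cat (HS.univ n)).compl

theorem HS_Ug (g : H) : HS n (Ug π h a g) := by
  have h1 := (HS_ct0 π h a hP g).inter (hP (g⁻¹ * h))
  convert h1 using 1
  ext w
  change _ ∧ _ ↔ _ ∧ _
  apply and_congr_right
  intro _
  change _ ↔ (w.map π).prod = g⁻¹ * h
  rw [eq_inv_mul_iff_mul_eq]

theorem HS_Bp (k : ℕ) : HS n (Bp π h a k) := by
  induction k with
  | zero => exact HS.eps n
  | succ k ih => exact ((HS_Ug π h a hP _).cat (HS.letter n a)).cat ih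

theorem HS_mod_c (m r : ℕ) (hr : r < m) :
    HS (n + 1) {w : List α | ct π h a (h * π a) w % m = r} := by
  rw [ct_mod π h a m r hr]
  exact (HS_Bp π h a hP m).star.cat ((HS_Bp π h a hP r).succ.cat (HS_ct0 π h a hP _).succ)

theorem HS_mod (m r : ℕ) (hm : 0 < m) (g : H) :
    HS (n + 1) {w : List α | ct π h a g w % m = r} := by
  have h1 : HS (n + 1) ({w : List α | 0 = r ∧ w ∈ {w : List α | ct π h a g w = 0}} ∪
      ⋃ s : Fin m, {w : List α | (s.val + 1) % m = r ∧
        w ∈ cat (cat (Ug π h a g) {[a]}) {v : List α | ct π h a (h * π a) v % m = s.val}}) :=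
    (HS.cond _ fun _ => (HS_ct0 π h a hP g).succ).union
      (HS.iUnion _ fun s => HS.cond _ fun _ =>
        ((HS_Ug π h a hP g).succ.cat (HS.letter _ a)).cat (HS_mod_c π h a hP m s.val s.isLt))
  convert h1 using 1
  ext w
  constructor
  · intro hw
    have hw' : ct π h a g w % m = r := hw
    rcases Nat.eq_zero_or_pos (ct π h a g w) with h0 | h0
    · left
      refine ⟨?_, h0⟩
      rw [← hw', h0]; simp
    · right
      obtain ⟨j, hj⟩ : ∃ j, ct π h a g w = j + 1 := ⟨ct π h a g w - 1, by omega⟩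
      obtain ⟨u, v, rfl, hu, hv⟩ := (ct_split π h a g w j).1 hj
      rw [Set.mem_iUnion]
      refine ⟨⟨j % m, Nat.mod_lt _ hm⟩, ?_, u ++ [a], ⟨u, hu, [a], rfl, rfl⟩, v, ?_, ?_⟩
      · change (j % m + 1) % m = r
        rw [← hw', hj, Nat.mod_add_mod]
      · change ct π h a (h * π a) v % m = j % m
        rw [hv]
      · change (u ++ [a]) ++ v = u ++ a :: v
        simp
  · rintro (⟨h1, h2⟩ | h2)
    · have h2' : ct π h a g w = 0 := h2
      change ct π h a g w % m = r
      rw [h2', ← h1]; simp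
    · rw [Set.mem_iUnion] at h2
      obtain ⟨s, h3, _, ⟨u, hu, _, rfl, rfl⟩, v, hv, rfl⟩ := h2
      have hv' : ct π h a (h * π a) v % m = s.val := hv
      change ct π h a g ((u ++ [a]) ++ v) % m = r
      have h4 : ct π h a g ((u ++ [a]) ++ v) = ct π h a (h * π a) v + 1 := by
        rw [ct_split]
        exact ⟨u, v, by simp, hu, rfl⟩
      rw [h4, ← h3, ← hv', Nat.mod_add_mod]

end

section

variable {G : Type} [Group G] [Finite G] (N : Subgroup G) [N.Normal] {α : Type} [Finite α]
  (f : α → G)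

theorem prod_quot (w : List α) :
    (w.map (fun b => ((f b : G) : G ⧸ N))).prod = (((w.map f).prod : G) : G ⧸ N) := by
  induction w with
  | nil => rfl
  | cons b w ih => rw [List.map_cons, List.prod_cons, ih, List.map_cons, List.prod_cons]; rfl

theorem K_eq_ct (h : G ⧸ N) (a : α) (w : List α) :
    K N f h a w = (ct (fun b => ((f b : G) : G ⧸ N)) h a 1 w : ℤ) := by
  classical
  induction w using List.reverseRecOn with
  | nil => rw [K_nil]; simp [ct]
  | append_singleton w y ih =>
    rw [K_snoc, ih, ct_append, prod_quot]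
    simp only [ct, one_mul, add_zero]
    push_cast
    congr 1

/-- **Henneman's step.** -/
theorem step {n : ℕ} (hN : ∀ x ∈ N, ∀ y ∈ N, x * y = y * x)
    (hQ : ∀ h : G ⧸ N, HS n {w : List α | (w.map (fun b => ((f b : G) : G ⧸ N))).prod = h})
    (S : Set G) : HS (n + 1) {w : List α | (w.map f).prod ∈ S} := by
  have := Fintype.ofFinite ((G ⧸ N) × α)
  obtain ⟨m, hm⟩ : ∃ m, Nat.card N = m := ⟨_, rfl⟩
  have hm0 : 0 < m := by rw [← hm]; exact Nat.card_pos
  have : NeZero m := ⟨hm0.ne'⟩
  have hD : ∀ (d1 : (G ⧸ N) × α → ZMod m) (d2 : G ⧸ N), HS (n + 1) (Dat N f m d1 d2) := by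
    intro d1 d2
    have h1 : ∀ x : (G ⧸ N) × α,
        HS (n + 1) {w : List α | ((K N f x.1 x.2 w : ℤ) : ZMod m) = d1 x} := by
      intro x
      have h := HS_mod (fun b => ((f b : G) : G ⧸ N)) x.1 x.2 hQ m (d1 x).val hm0 1
      convert h using 1
      ext w
      rw [Set.mem_ofPred_eq, Set.mem_ofPred_eq, K_eq_ct, Int.cast_natCast, ← ZMod.val_natCast]
      exact (ZMod.val_injective m).eq_iff.symm
    have h2 : HS (n + 1) {w : List α | (((w.map f).prod : G) : G ⧸ N) = d2} := by
      have := (hQ d2).succ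
      convert this using 1
      ext w
      rw [Set.mem_ofPred_eq, Set.mem_ofPred_eq, prod_quot]
    exact (HS.iInter _ h1).inter h2
  have h1 : HS (n + 1) (⋃ d : ((G ⧸ N) × α → ZMod m) × (G ⧸ N),
      {w : List α | Phi N f hN m d.1 d.2 ∈ S ∧ w ∈ Dat N f m d.1 d.2}) :=
    HS.iUnion _ fun d => HS.cond _ fun _ => hD d.1 d.2
  have h2 : {w : List α | (w.map f).prod ∈ S} = (⋃ d : ((G ⧸ N) × α → ZMod m) × (G ⧸ N),
      {w : List α | Phi N f hN m d.1 d.2 ∈ S ∧ w ∈ Dat N f m d.1 d.2}) := by
    ext w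
    constructor
    · intro hw
      refine Set.mem_iUnion.2 ⟨(fun x => ((K N f x.1 x.2 w : ℤ) : ZMod m),
        (((w.map f).prod : G) : G ⧸ N)), ?_, Set.mem_iInter.2 fun x => rfl, rfl⟩

      rw [← Phi_eq N f hN m hm _ _ w (fun _ => rfl) rfl]; exact hw
    · intro hw
      obtain ⟨d, hS, h2, h3⟩ := Set.mem_iUnion.1 hw
      rw [Set.mem_iInter] at h2
      change (w.map f).prod ∈ S
      rw [Phi_eq N f hN m hm d.1 d.2 w h2 h3]
      exact hS
  rw [h2]
  exact h1

end

end Pool.Agent.H815R3.GSH
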