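import Pool.Agent.H815R3.GSH.Schutz
import Mathlib.Algebra.Group.Subgroup.Basic

/-! From the languages of a group `G` to the languages of a finite monoid `K` with a homomorphism
to `G` for which the inverse image of `1` is aperiodic. -/

set_option autoImplicit false
set_option linter.unusedSectionVars false

namespace Pool.Agent.H815R3.GSH

open Pool.Agent.H936R2.SH

section

variable {α K G : Type} [Monoid K] [Group G] (θ : K →* G) (f : α → K)

open Classical in
/-- automaton of the derived category -/
noncomputable def dK : Option (K × G) → G × α → Option (K × G)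
  | none, _ => none
  | some q, b => if b.1 = q.2 then some (q.1 * f b.2, q.2 * θ (f b.2)) else none

theorem dK_none (u : List (G × α)) : u.foldl (dK θ f) none = none := by
  induction u with
  | nil => rfl
  | cons b u ih => exact ih

/-- the value of a word of pairs -/
def vl (u : List (G × α)) : K := (u.map (fun b => f b.2)).prod

theorem dK_run (u : List (G × α)) (q q' : K × G) (h : u.foldl (dK θ f) (some q) = some q') :
    q' = (q.1 * vl f u, q.2 * θ (vl f u)) := by
  induction u generalizing q with
  | nil =>
    simp only [List.foldl_nil, Option.some.injEq] at h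
    simp [vl, h]
  | cons b u ih =>
    rw [List.foldl_cons, dK] at h
    split_ifs at h with hb
    · rw [ih _ h]
      simp [vl, mul_assoc]
    · rw [dK_none] at h
      exact absurd h (by simp)

theorem dK_start (b : G × α) (u : List (G × α)) (q : K × G)
    (h : (b :: u).foldl (dK θ f) (some q) ≠ none) : b.1 = q.2 := by
  by_contra hb
  apply h
  rw [List.foldl_cons, dK, if_neg hb, dK_none]

theorem iter_none (u : List (G × α)) (n : ℕ) :
    (fun r => u.foldl (dK θ f) r)^[n] none = none := by
  induction n with
  | zero => rfl
  | succ n ih => rw [Function.iterate_succ_apply, dK_none, ih]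

theorem iter_val (u : List (G × α)) (n : ℕ) (q q' : K × G)
    (h : (fun r => u.foldl (dK θ f) r)^[n] (some q) = some q') :
    q' = (q.1 * vl f u ^ n, q.2 * θ (vl f u) ^ n) := by
  induction n generalizing q with
  | zero =>
    simp only [Function.iterate_zero, id_eq, Option.some.injEq] at h
    simp [h]
  | succ n ih =>
    rw [Function.iterate_succ_apply] at h
    cases h1 : u.foldl (dK θ f) (some q) with
    | none => rw [h1, iter_none] at h; exact absurd h (by simp)
    | some r =>
      rw [h1] at h
      have h2 := ih r h
      rw [dK_run θ f u q r h1] at h2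
      rw [h2, pow_succ', pow_succ']
      simp [mul_assoc]

theorem CF_dK (hap : ∀ k : K, θ k = 1 → ∃ n : ℕ, k ^ (n + 1) = k ^ n) :
    CF (dK θ f) (Set.univ : Set (G × α)) := by
  intro o u n _ hn ho
  cases o with
  | none => exact dK_none θ f u
  | some q =>
    rcases u with _ | ⟨b, u⟩
    · rfl
    obtain ⟨n, rfl⟩ : ∃ m, n = m + 1 := ⟨n - 1, by omega⟩
    rcases Nat.eq_zero_or_pos n with rfl | hn'
    · exact ho
    obtain ⟨n, rfl⟩ : ∃ m, n = m + 1 := ⟨n - 1, by omega⟩
    set w := b :: u with hw
    set m := vl f w with hm
    have hval := iter_val θ f w _ q q ho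
    rw [Function.iterate_succ_apply] at ho
    cases h1 : w.foldl (dK θ f) (some q) with
    | none => rw [h1, iter_none] at ho; exact absurd ho (by simp)
    | some r =>
      rw [h1, Function.iterate_succ_apply] at ho
      have hr := dK_run θ f w q r h1
      have hb1 : b.1 = q.2 := dK_start θ f b u q (by rw [← hw, h1]; simp)
      have hb2 : b.1 = r.2 := by
        apply dK_start θ f b u r
        rw [← hw]
        intro h
        rw [h, iter_none] at ho
        exact absurd ho (by simp)
      have hθ : θ m = 1 := by
        have : q.2 = q.2 * θ m := by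
          rw [← hb1]
          conv_lhs => rw [hb2, hr]
          rw [hb1]
        exact (mul_eq_left.1 this.symm)
      obtain ⟨N, hN⟩ := hap m hθ
      have hN' : ∀ j, N ≤ j → m ^ (j + 1) = m ^ j := by
        intro j hj
        obtain ⟨i, rfl⟩ := Nat.exists_eq_add_of_le hj
        rw [show N + i + 1 = (N + 1) + i by ring, pow_add, hN, ← pow_add]
      have hk : q.1 * m ^ (n + 1 + 1) = q.1 := by
        have := congrArg Prod.fst hval
        exact this.symm
      have hkj : ∀ j : ℕ, q.1 * m ^ ((n + 1 + 1) * j) = q.1 := by
        intro j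
        induction j with
        | zero => simp
        | succ j ih => rw [Nat.mul_succ, pow_add, ← mul_assoc, ih, hk]
      have hkm : q.1 * m = q.1 := by
        have h2 := hkj N
        have h3 : N ≤ (n + 1 + 1) * N := Nat.le_mul_of_pos_left N (by omega)
        calc q.1 * m = q.1 * m ^ ((n + 1 + 1) * N) * m := by rw [h2]
          _ = q.1 * m ^ ((n + 1 + 1) * N + 1) := by rw [pow_succ, mul_assoc]
          _ = q.1 := by rw [hN' _ h3, h2]
      rw [hr, ← hm, hθ, hkm, mul_one]

/-! ### Pulling back -/

/-- decorated words -/
def sg : G → List α → List (G × α)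
  | _, [] => []
  | g, a :: w => (g, a) :: sg (g * θ (f a)) w

theorem sg_append (g : G) (u v : List α) :
    sg θ f g (u ++ v) = sg θ f g u ++ sg θ f (g * θ ((u.map f).prod)) v := by
  induction u generalizing g with
  | nil => simp [sg]
  | cons a u ih =>
    rw [List.cons_append, sg, ih, sg, List.map_cons, List.prod_cons, map_mul, mul_assoc]
    rfl

theorem sg_split (x y : List (G × α)) (g : G) (w : List α) (h : sg θ f g w = x ++ y) :
    ∃ u v, w = u ++ v ∧ sg θ f g u = x ∧ sg θ f (g * θ ((u.map f).prod)) v = y := by
  induction x generalizing g w with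
  | nil => exact ⟨[], w, rfl, rfl, by simpa using h⟩
  | cons b x ih =>
    cases w with
    | nil => simp [sg] at h
    | cons a w =>
      rw [sg, List.cons_append, List.cons.injEq] at h
      obtain ⟨h1, h2⟩ := h
      obtain ⟨u, v, rfl, h3, h4⟩ := ih _ _ h2
      refine ⟨a :: u, v, rfl, ?_, ?_⟩
      · rw [sg, h1, h3]
      · rw [List.map_cons, List.prod_cons, map_mul, ← mul_assoc]
        exact h4

theorem sg_run (g : G) (k : K) (w : List α) :
    (sg θ f g w).foldl (dK θ f) (some (k, g)) =
      some (k * (w.map f).prod, g * θ ((w.map f).prod)) := by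
  induction w generalizing g k with
  | nil => simp [sg]
  | cons a w ih =>
    rw [sg, List.foldl_cons, dK, if_pos rfl, ih]
    simp [mul_assoc]

theorem HS.pull [Finite G] {n : ℕ}
    (hG : ∀ g g' : G, HS n {w : List α | g * θ ((w.map f).prod) = g'})
    {m : ℕ} {X : Set (List (G × α))} (hX : HS m X) (hm : m = 0) (g : G) :
    HS n {w : List α | sg θ f g w ∈ X} := by
  induction hX generalizing g with
  | empty m =>
    convert HS.empty (α := α) n using 1
    ext w
    simp
  | eps m =>
    convert HS.eps (α := α) n using 1
    ext w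
    cases w with
    | nil => simp [sg]
    | cons a w => simp [sg]
  | letter m b =>
    by_cases hb : b.1 = g
    · convert HS.letter n b.2 using 1
      ext w
      cases w with
      | nil => simp [sg]
      | cons a w =>
        cases w with
        | nil =>
          simp only [Set.mem_ofPred_eq, sg, Set.mem_singleton_iff, List.cons.injEq, and_true]
          rw [Prod.ext_iff]
          simp [hb]
        | cons a' w => simp [sg]
    · convert HS.empty (α := α) n using 1
      ext w
      cases w with
      | nil => simp [sg]
      | cons a w =>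
        simp only [Set.mem_ofPred_eq, sg, Set.mem_singleton_iff, List.cons.injEq,
          Set.mem_empty_iff_false, iff_false]
        rintro ⟨h1, _⟩
        exact hb (by rw [← h1])
  | union _ _ h1 h2 => exact (h1 hm g).union (h2 hm g)
  | @cat m X Y _ _ h1 h2 =>
    have h3 : HS n (⋃ h : G, cat ({w : List α | sg θ f g w ∈ X} ∩
        {w : List α | g * θ ((w.map f).prod) = h}) {w : List α | sg θ f h w ∈ Y}) :=
      HS.iUnion _ fun h => ((h1 hm g).inter (hG g h)).cat (h2 hm h)
    convert h3 using 1
    ext w
    rw [Set.mem_iUnion]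
    constructor
    · rintro ⟨x, hx, y, hy, hxy⟩
      obtain ⟨u, v, rfl, h4, h5⟩ := sg_split θ f x y g w hxy.symm
      refine ⟨_, u, ⟨?_, rfl⟩, v, ?_, rfl⟩
      · change sg θ f g u ∈ X
        rw [h4]; exact hx
      · change sg θ f _ v ∈ Y
        rw [h5]; exact hy
    · rintro ⟨h, u, ⟨hu, rfl⟩, v, hv, rfl⟩
      exact ⟨_, hu, _, hv, (sg_append θ f g u v).symm⟩
  | compl _ h1 => exact (h1 hm g).compl
  | star _ _ => exact absurd hm (by omega)

/-- **Transfer.** -/
theorem transfer [Finite α] [Finite K] [Finite G] {n : ℕ}
    (hap : ∀ k : K, θ k = 1 → ∃ n : ℕ, k ^ (n + 1) = k ^ n)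
    (hG : ∀ S : Set G, HS n {w : List α | (w.map (fun a => θ (f a))).prod ∈ S}) (T : Set K) :
    HS n {w : List α | (w.map f).prod ∈ T} := by
  have hmap : ∀ w : List α, (w.map (fun a => θ (f a))).prod = θ ((w.map f).prod) := by
    intro w
    rw [map_list_prod, List.map_map]
    rfl
  have hG' : ∀ g g' : G, HS n {w : List α | g * θ ((w.map f).prod) = g'} := by
    intro g g'
    have := hG {x | g * x = g'}
    convert this using 1
    ext w
    simp [hmap]
  have h1 : HS n (⋃ q : K × G, {w : List α | q.1 ∈ T ∧
      w ∈ {w : List α | sg θ f 1 w ∈ {u : List (G × α) | (∀ x ∈ u, x ∈ (Set.univ : Set (G × α))) ∧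
        u.foldl (dK θ f) (some (1, 1)) = some q}}}) :=
    HS.iUnion _ fun q => HS.cond _ fun _ =>
      HS.pull θ f hG' (schutz _ (Option (K × G)) le_rfl (G × α) (dK θ f) _ Set.univ le_rfl
        (CF_dK θ f hap) (some (1, 1)) (some q)) rfl 1
  convert h1 using 1
  ext w
  rw [Set.mem_iUnion]
  constructor
  · intro h
    refine ⟨(1 * (w.map f).prod, 1 * θ ((w.map f).prod)), ?_, fun _ _ => Set.mem_univ _,
      sg_run θ f 1 1 w⟩
    change 1 * (w.map f).prod ∈ T
    rw [one_mul]; exact h
  · rintro ⟨q, hq, _, h2⟩
    rw [sg_run] at h2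
    have h3 := Option.some.inj h2
    change (w.map f).prod ∈ T
    rw [← h3, one_mul] at hq
    exact hq

end

end Pool.Agent.H815R3.GSH
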