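import Pool.Agent.H815R3.GSH.Ident

/-! Walks with steps `0` and `1` modulo any number `M`, and sums over the positions of a letter of
quadratic functions of the number of earlier letters. -/

set_option autoImplicit false
set_option linter.unusedSectionVars false

namespace Pool.Agent.H815R3.GSH

open Pool.Agent.H936R2.SH

section

variable {α : Type}

open Classical in
/-- number of letters in `P` -/
noncomputable def cP (P : α → Prop) (w : List α) : ℕ := (w.map fun c => if P c then 1 else 0).sum

theorem cP_nil (P : α → Prop) : cP P [] = 0 := rfl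

open Classical in
theorem cP_cons (P : α → Prop) (a : α) (w : List α) :
    cP P (a :: w) = (if P a then 1 else 0) + cP P w := by
  simp [cP]

theorem cP_append (P : α → Prop) (u v : List α) : cP P (u ++ v) = cP P u + cP P v := by
  simp [cP]

open Classical in
theorem cP_snoc (P : α → Prop) (a : α) (w : List α) :
    cP P (w ++ [a]) = cP P w + (if P a then 1 else 0) := by
  simp [cP]

theorem cP_pow (P : α → Prop) (k : ℕ) (u : List α) :
    cP P (List.replicate k u).flatten = k * cP P u := by
  induction k with
  | zero => simp [cP]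
  | succ k ih => rw [List.replicate_succ, List.flatten_cons, cP_append, ih]; ring

theorem Nv_append {Q : Type} (δ : Q → α → Q) (b : Q) (u v : List α) (p : Q)
    (h : Nv δ b p (u ++ v)) : Nv δ b p u := by
  induction u generalizing p with
  | nil => trivial
  | cons a u ih => exact ⟨h.1, ih _ h.2⟩

variable (P : α → Prop) (g : α → Bool) (M : ℕ)

open Classical in
/-- walk with steps `0`, `1` and a flag for the last letter -/
noncomputable def dW (x : ZMod M × Bool) (c : α) : ZMod M × Bool :=
  (x.1 + (if P c then 1 else 0), g c)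

theorem Nv_dW [NeZero M] (hg : ∀ c, P c → g c = false) (w : List α) (x : ZMod M × Bool)
    (h : Nv (dW P g M) (0, false) x w) : x.1.val + cP P w < M := by
  induction w generalizing x with
  | nil => simpa [cP_nil] using ZMod.val_lt x.1
  | cons c w ih =>
    obtain ⟨h1, h2⟩ := h
    have h3 := ih _ h2
    rw [cP_cons]
    by_cases hc : P c
    · have hd : dW P g M x c = (x.1 + 1, false) := by simp [dW, hc, hg c hc]
      rw [hd] at h1 h3
      have hv : x.1 + 1 = ((x.1.val + 1 : ℕ) : ZMod M) := by
        push_cast
        rw [ZMod.natCast_zmod_val]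
      have hlt : x.1.val < M := ZMod.val_lt _
      have hne : x.1.val + 1 ≠ M := by
        intro he
        apply h1
        rw [hv, he]
        simp
      have : (x.1 + 1).val = x.1.val + 1 := by
        rw [hv, ZMod.val_natCast]
        exact Nat.mod_eq_of_lt (by omega)
      simp only [this] at h3
      rw [if_pos hc]
      omega
    · have hd : dW P g M x c = (x.1, g c) := by simp [dW, hc]
      rw [hd] at h3
      rw [if_neg hc]
      simp only at h3
      omega

theorem dW_fst (w : List α) (x : ZMod M × Bool) :
    (w.foldl (dW P g M) x).1 = x.1 + cP P w := by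
  induction w generalizing x with
  | nil => simp [cP_nil]
  | cons c w ih =>
    rw [List.foldl_cons, ih, cP_cons, dW]
    push_cast
    ring

theorem dW_snd (w : List α) (c : α) (x : ZMod M × Bool) :
    ((w ++ [c]).foldl (dW P g M) x).2 = g c := by
  rw [List.foldl_append]; rfl

theorem CFb_dW [NeZero M] (hg : ∀ c, P c → g c = false) : CFb (dW P g M) (0, false) := by
  intro q u k hk hit
  rw [foldl_pow, foldl_dl0] at hit
  obtain ⟨hA, hB⟩ := hit
  rw [foldl_dl0]
  have hW : (List.replicate k u).flatten = u ++ (List.replicate (k - 1) u).flatten := by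
    obtain ⟨k, rfl⟩ : ∃ k', k = k' + 1 := ⟨k - 1, by omega⟩
    rw [List.replicate_succ, List.flatten_cons]; simp
  have hW' : (List.replicate k u).flatten = (List.replicate (k - 1) u).flatten ++ u := by
    obtain ⟨k, rfl⟩ : ∃ k', k = k' + 1 := ⟨k - 1, by omega⟩
    rw [List.replicate_succ']; simp
  refine ⟨Nv_append _ _ _ _ _ (by rw [← hW]; exact hA), ?_⟩
  have h1 := Nv_dW P g M hg _ _ hA
  rw [cP_pow] at h1
  have h2 : ((k * cP P u : ℕ) : ZMod M) = 0 := by
    have := congrArg Prod.fst hB
    rw [dW_fst, cP_pow] at this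
    have h3 : q.1 + ((k * cP P u : ℕ) : ZMod M) = q.1 + 0 := by rw [this, add_zero]
    exact add_left_cancel h3
  have h3 : k * cP P u = 0 := by
    have := (ZMod.natCast_eq_zero_iff _ M).1 h2
    exact Nat.eq_zero_of_dvd_of_lt this (by omega)
  have h4 : cP P u = 0 := by
    rcases Nat.mul_eq_zero.1 h3 with h | h
    · omega
    · exact h
  rcases List.eq_nil_or_concat u with rfl | ⟨v, y, rfl⟩
  · rfl
  · rw [List.concat_eq_append] at *
    apply Prod.ext
    · rw [dW_fst, h4]; simp
    · rw [dW_snd]
      have := congrArg Prod.snd hB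
      rw [hW', ← List.append_assoc, dW_snd] at this
      exact this

/-- prefixes ending with `y` and with `s` letters of `P` modulo `M` -/
noncomputable def Ky (y : α) (s : ZMod M) (w : List α) : ℤ :=
  pc (fun u : List α => ((cP P u : ℕ) : ZMod M) = s ∧ En y u) w

theorem Ct_Ky [NeZero M] [Finite α] (y : α) (hy : ¬ P y) (s : ZMod M) : Ct (Ky P M y s) := by
  classical
  have h1 := Ct.vis (CFb_dW P (fun _ => false) M (fun _ _ => rfl)) (-s, false)
  have h2 := Ct.vis (CFb_dW P (fun c => decide (c = y)) M (fun c hc => by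
    simp only [decide_eq_false_iff_not]
    rintro rfl
    exact hy hc)) (-s, false)
  refine (h1.sub h2).congr ?_
  intro w
  have e0 : ∀ u : List α, u ≠ [] →
      (u.foldl (dW P (fun _ => false) M) (-s, false) = (0, false) ↔
        ((cP P u : ℕ) : ZMod M) = s) := by
    intro u hu
    obtain rfl | ⟨v, c, rfl⟩ := List.eq_nil_or_concat u
    · exact absurd rfl hu
    rw [List.concat_eq_append, Prod.ext_iff, dW_fst, dW_snd]
    simp only [and_true]
    rw [neg_add_eq_zero]
    exact eq_comm
  have e0' : ∀ u : List α, u ≠ [] →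
      (u.foldl (dW P (fun c => decide (c = y)) M) (-s, false) = (0, false) ↔
        ((cP P u : ℕ) : ZMod M) = s ∧ ¬ En y u) := by
    intro u hu
    obtain rfl | ⟨v, c, rfl⟩ := List.eq_nil_or_concat u
    · exact absurd rfl hu
    rw [List.concat_eq_append, Prod.ext_iff, dW_fst, dW_snd, En_snoc]
    simp only [decide_eq_false_iff_not]
    rw [neg_add_eq_zero]
    exact and_congr_left' eq_comm
  rw [pc_split (fun u => u ≠ [] ∧ u.foldl (dW P (fun _ => false) M) (-s, false) = (0, false))
    (En y)]
  have e1 : pc (fun u => (u ≠ [] ∧ u.foldl (dW P (fun _ => false) M) (-s, false) = (0, false)) ∧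
      ¬ En y u) w =
      pc (fun u => u ≠ [] ∧ u.foldl (dW P (fun c => decide (c = y)) M) (-s, false) =
        (0, false)) w := by
    apply pc_congr
    intro u
    by_cases hu : u = []
    · simp [hu]
    · rw [e0 u hu, e0' u hu, and_assoc]
  have e2 : pc (fun u => (u ≠ [] ∧ u.foldl (dW P (fun _ => false) M) (-s, false) = (0, false)) ∧
      En y u) w = Ky P M y s w := by
    apply pc_congr
    intro u
    constructor
    · rintro ⟨⟨hu, h⟩, h2⟩; exact ⟨(e0 u hu).1 h, h2⟩
    · rintro ⟨h, h2⟩
      have hu : u ≠ [] := by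
        obtain ⟨u', rfl⟩ := h2
        simp
      exact ⟨⟨hu, (e0 u hu).2 h⟩, h2⟩
  rw [e1, e2]
  ring

end

/-! ### Sums over the positions of a letter -/

section

variable {α : Type}

open Classical in
/-- the sum of `F` over the prefixes before the occurrences of the letter `y` -/
noncomputable def Sy (F : List α → ℤ) (y : α) (w : List α) : ℤ :=
  ∑ i ∈ Finset.range w.length, if w[i]? = some y then F (w.take i) else 0

theorem Sy_nil (F : List α → ℤ) (y : α) : Sy F y [] = 0 := by simp [Sy]

open Classical in
theorem Sy_snoc (F : List α → ℤ) (y : α) (w : List α) (c : α) :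
    Sy F y (w ++ [c]) = Sy F y w + if c = y then F w else 0 := by
  unfold Sy
  rw [List.length_append, List.length_singleton, Finset.sum_range_succ]
  congr 1
  · apply Finset.sum_congr rfl
    intro i hi
    rw [Finset.mem_range] at hi
    rw [List.take_append_of_le_length (by omega), List.getElem?_append_left hi]
  · rw [List.getElem?_append_right (le_refl _)]
    simp

theorem Ct.mul {f g : List α → ℤ} (hf : Ct f) (hg : Ct g) : Ct (fun w => f w * g w) := by
  intro M hM r
  have : NeZero M := ⟨hM.ne'⟩
  have h1 : HS 1 (⋃ s : ZMod M × ZMod M, {w : List α | (s.1 * s.2 = r) ∧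
      w ∈ ({w : List α | ((f w : ℤ) : ZMod M) = s.1} ∩
        {w : List α | ((g w : ℤ) : ZMod M) = s.2})}) :=
    HS.iUnion _ fun s => HS.cond _ fun _ => (hf M hM s.1).inter (hg M hM s.2)
  convert h1 using 1
  ext w
  simp only [Set.mem_ofPred_eq, Set.mem_iUnion, Set.mem_inter_iff]
  constructor
  · intro h
    exact ⟨(_, _), by rw [← h]; push_cast; rfl, rfl, rfl⟩
  · rintro ⟨s, h1, h2, h3⟩
    push_cast
    rw [h2, h3, h1]

/-- a function congruent to countable functions modulo every number is countable -/
theorem Ct.approx {f : List α → ℤ}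
    (h : ∀ M : ℕ, 0 < M → ∃ g : List α → ℤ, Ct g ∧ ∀ w, ((f w : ℤ) : ZMod M) = (g w : ℤ)) :
    Ct f := by
  intro M hM r
  obtain ⟨g, hg, hfg⟩ := h M hM
  have := hg M hM r
  convert this using 1
  ext w
  rw [Set.mem_ofPred_eq, Set.mem_ofPred_eq, hfg]

variable [Finite α]

theorem Ct_Sy (P : α → Prop) (y : α) (hy : ¬ P y) (h : ℤ → ℤ)
    (hh : ∀ (M : ℕ) (a b : ℤ), (a : ZMod M) = b → ((h a : ℤ) : ZMod M) = (h b : ℤ)) :
    Ct (Sy (fun u => h (cP P u)) y) := by
  classical
  apply Ct.approx
  intro M hM
  have : NeZero M := ⟨hM.ne'⟩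
  refine ⟨fun w => ∑ s : ZMod M, h (s.val : ℤ) * Ky P M y s w,
    Ct.sum Finset.univ (fun (s : ZMod M) w => h (s.val : ℤ) * Ky P M y s w)
      (fun s _ => (Ct_Ky P M y hy s).smul _), ?_⟩
  intro w
  induction w using List.reverseRecOn with
  | nil =>
    rw [Sy_nil]
    have : ∀ s : ZMod M, Ky P M y s [] = 0 := by
      intro s
      unfold Ky
      rw [pc_nil, if_neg]
      rintro ⟨_, u', h'⟩
      simp at h'
    simp [this]
  | append_singleton w c ih =>
    rw [Sy_snoc]
    have e : ∀ s : ZMod M, Ky P M y s (w ++ [c]) = Ky P M y s w +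
        if c = y ∧ ((cP P w : ℕ) : ZMod M) = s then 1 else 0 := by
      intro s
      unfold Ky
      rw [pc_snoc]
      congr 1
      refine ite_iff ?_ _ _
      rw [En_snoc, cP_snoc]
      constructor
      · rintro ⟨h1, rfl⟩
        rw [if_neg hy, add_zero] at h1
        exact ⟨rfl, h1⟩
      · rintro ⟨rfl, h1⟩
        rw [if_neg hy, add_zero]
        exact ⟨h1, rfl⟩
    simp only [e, mul_add, Finset.sum_add_distrib]
    push_cast
    push_cast at ih
    rw [ih]
    congr 1
    by_cases hc : c = y
    · subst hc
      simp only [true_and, if_true]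
      rw [Finset.sum_eq_single ((cP P w : ℕ) : ZMod M)]
      · simp only [if_true, mul_one]
        apply hh
        push_cast
        rw [ZMod.natCast_zmod_val]
      · intro s _ hs
        rw [if_neg (fun h => hs h.symm)]; simp
      · intro h; exact absurd (Finset.mem_univ _) h
    · simp [hc]

/-- `0 + 1 + ... + (n - 1)` -/
def ch2 : ℕ → ℤ
  | 0 => 0
  | n + 1 => ch2 n + n

theorem ch2_two (n : ℕ) : 2 * ch2 n = (n : ℤ) ^ 2 - n := by
  induction n with
  | zero => simp [ch2]
  | succ n ih => rw [ch2, mul_add, ih]; push_cast; ring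

theorem Sy_congr {F F' : List α → ℤ} (h : ∀ u, F u = F' u) (y : α) (w : List α) :
    Sy F y w = Sy F' y w := by
  have : F = F' := funext h
  rw [this]

theorem Sy_sub (F F' : List α → ℤ) (y : α) (w : List α) :
    Sy (fun u => F u - F' u) y w = Sy F y w - Sy F' y w := by
  classical
  induction w using List.reverseRecOn with
  | nil => simp [Sy_nil]
  | append_singleton w c ih =>
    simp only [Sy_snoc, ih]
    split_ifs <;> ring

theorem Sy_smul (k : ℤ) (F : List α → ℤ) (y : α) (w : List α) :
    Sy (fun u => k * F u) y w = k * Sy F y w := by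
  classical
  induction w using List.reverseRecOn with
  | nil => simp [Sy_nil]
  | append_singleton w c ih =>
    simp only [Sy_snoc, ih]
    split_ifs <;> ring

theorem Ct_one (P : α → Prop) (y : α) (hy : ¬ P y) : Ct (Sy (fun u => (cP P u : ℤ)) y) :=
  Ct_Sy P y hy (fun a => a) (fun _ _ _ h => h)

theorem Ct_sq (P : α → Prop) (y : α) (hy : ¬ P y) : Ct (Sy (fun u => (cP P u : ℤ) ^ 2) y) :=
  Ct_Sy P y hy (fun a => a ^ 2) (fun _ _ _ h => by push_cast; rw [h])

theorem Ct_ch2 (P : α → Prop) (y : α) (hy : ¬ P y) : Ct (Sy (fun u => ch2 (cP P u)) y) := by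
  apply Ct.div 2 (by norm_num)
  refine ((Ct_sq P y hy).sub (Ct_one P y hy)).congr ?_
  intro w
  rw [← Sy_sub]
  push_cast
  rw [← Sy_smul]
  apply Sy_congr
  intro u
  rw [ch2_two]

/-- the number of letters `x` -/
theorem Ct_cnt (x : α) : Ct (fun w : List α => (cP (fun c => c = x) w : ℤ)) := by
  classical
  have h := Ct_Sy (fun _ : α => False) x (fun h => h) (fun _ => 1) (fun _ _ _ _ => rfl)
  refine h.congr fun w => ?_
  induction w using List.reverseRecOn with
  | nil => simp [Sy_nil, cP_nil]
  | append_singleton w c ih =>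
    rw [Sy_snoc, ih, cP_snoc]
    push_cast
    rfl

theorem Ct_cnt_ch2 (x : α) : Ct (fun w : List α => ch2 (cP (fun c => c = x) w)) := by
  apply Ct.div 2 (by norm_num)
  refine (((Ct_cnt x).mul (Ct_cnt x)).sub (Ct_cnt x)).congr ?_
  intro w
  push_cast
  rw [ch2_two]
  ring

/-- products of numbers of earlier letters -/
theorem Ct_mix (x y z : α) (hxy : y ≠ x) (hxz : z ≠ x) :
    Ct (Sy (fun u => (cP (fun c => c = x) u : ℤ) * (cP (fun c => c = z) u : ℤ)) y) := by
  classical
  by_cases hzy : z = y
  · subst hzy
    refine (((Ct_cnt x).mul (Ct_cnt_ch2 z)).sub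
      (Ct_ch2 (fun c => c = z) x (fun h => hxz h.symm))).congr ?_
    intro w
    induction w using List.reverseRecOn with
    | nil => simp [Sy_nil, cP_nil]
    | append_singleton w c ih =>
      rw [Sy_snoc, Sy_snoc, ← ih, cP_snoc, cP_snoc]
      by_cases h1 : c = x
      · subst h1
        have h2 : ¬ c = z := fun h => hxz h.symm
        simp only [if_true, if_neg h2]
        push_cast
        ring_nf
      · by_cases h2 : c = z
        · subst h2
          simp only [if_true, if_neg h1, ch2]
          push_cast
          ring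
        · simp only [if_neg h1, if_neg h2]
          push_cast
          ring_nf
  · apply Ct.div 2 (by norm_num)
    have h0 : ∀ u : List α, (cP (fun c => c = x ∨ c = z) u : ℤ) =
        (cP (fun c => c = x) u : ℤ) + (cP (fun c => c = z) u : ℤ) := by
      intro u
      induction u with
      | nil => simp [cP_nil]
      | cons c u ih =>
        rw [cP_cons, cP_cons, cP_cons]
        push_cast
        rw [ih]
        by_cases h1 : c = x
        · have h2 : ¬ c = z := fun h => hxz (by rw [← h, h1])
          rw [if_pos h1, if_neg h2, if_pos (Or.inl h1)]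
          ring
        · by_cases h2 : c = z
          · rw [if_neg h1, if_pos h2, if_pos (Or.inr h2)]
            ring
          · rw [if_neg h1, if_neg h2, if_neg (fun h => h.elim h1 h2)]
            ring
    refine (((Ct_sq (fun c => c = x ∨ c = z) y
      (fun h => h.elim hxy (fun h => hzy h.symm))).sub
      (Ct_sq (fun c => c = x) y hxy)).sub (Ct_sq (fun c => c = z) y (fun h => hzy h.symm))).congr ?_
    intro w
    rw [← Sy_sub, ← Sy_sub]
    push_cast
    rw [← Sy_smul]
    apply Sy_congr
    intro u
    rw [h0]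
    ring

end

end Pool.Agent.H815R3.GSH
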