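import Pool.Agent.H815R3.GSH.Count

/-! Walks in `ZMod p`: the number of occurrences of a letter at a given state is computed in
generalized star height one. -/

set_option autoImplicit false

namespace Pool.Agent.H815R3.GSH

open Pool.Agent.H936R2.SH

theorem Ct.congr {α : Type} {f g : List α → ℤ} (h : Ct f) (hfg : ∀ w, f w = g w) : Ct g := by
  have : f = g := funext hfg
  rwa [← this]

section

variable {p : ℕ} [Fact p.Prime] {α : Type} (ψ : α → ZMod p)

/-- the value of a word -/
def ps (w : List α) : ZMod p := (w.map ψ).sum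

theorem ps_nil : ps ψ [] = 0 := rfl

theorem ps_cons (a : α) (w : List α) : ps ψ (a :: w) = ψ a + ps ψ w := by
  simp [ps]

theorem ps_append (u v : List α) : ps ψ (u ++ v) = ps ψ u + ps ψ v := by
  simp [ps]

theorem ps_replicate (n : ℕ) (a : α) : ps ψ (List.replicate n a) = n * ψ a := by
  simp [ps]

theorem ps_reverse (w : List α) : ps ψ w.reverse = ps ψ w := by
  simp [ps, List.sum_reverse]

theorem ps_pow (k : ℕ) (u : List α) : ps ψ (List.replicate k u).flatten = k * ps ψ u := by
  induction k with
  | zero => simp [ps]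
  | succ k ih => rw [List.replicate_succ, List.flatten_cons, ps_append, ih]; push_cast; ring

section flags

variable {F : Type} (g : F → α → F) (bad : F → Prop) (f0 : F)

open Classical in
/-- walk with flags; arrivals at `0` with a bad flag are identified -/
noncomputable def dF (x : ZMod p × F) (y : α) : ZMod p × F :=
  if x.1 + ψ y = 0 ∧ bad (g x.2 y) then (0, f0) else (x.1 + ψ y, g x.2 y)

variable {bad f0}

theorem dF_eq (hf0 : bad f0) (x : ZMod p × F) (y : α) :
    dF ψ g bad f0 x y = (0, f0) ↔ x.1 + ψ y = 0 ∧ bad (g x.2 y) := by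
  unfold dF
  split_ifs with h
  · exact ⟨fun _ => h, fun _ => rfl⟩
  · constructor
    · intro h2
      rw [Prod.mk.injEq] at h2
      exact ⟨h2.1, by rw [h2.2]; exact hf0⟩
    · intro h2; exact absurd h2 h

theorem run_dF (hf0 : bad f0) (w : List α) (x x' : ZMod p × F) :
    w.foldl (dl0 (dF ψ g bad f0) (0, f0)) (some x) = some x' ↔
      (∀ u v, w = u ++ v → u ≠ [] → ¬ (x.1 + ps ψ u = 0 ∧ bad (u.foldl g x.2))) ∧
      x' = (x.1 + ps ψ w, w.foldl g x.2) := by
  induction w generalizing x with
  | nil =>
    constructor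
    · intro h
      simp only [List.foldl_nil, Option.some.injEq] at h
      refine ⟨?_, by rw [← h]; simp [ps_nil]⟩
      intro u v huv hu
      have : u = [] := (List.append_eq_nil_iff.1 huv.symm).1
      exact absurd this hu
    · rintro ⟨_, h⟩
      rw [h]; simp [ps_nil]
  | cons a w ih =>
    rw [List.foldl_cons, dl0]
    by_cases hb : dF ψ g bad f0 x a = (0, f0)
    · rw [if_pos hb, foldl_none]
      constructor
      · intro h; exact absurd h (by simp)
      · rintro ⟨h, _⟩
        exfalso
        apply h [a] w rfl (by simp)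
        have := (dF_eq ψ g hf0 x a).1 hb
        refine ⟨?_, this.2⟩
        rw [ps_cons, ps_nil, add_zero]
        exact this.1
    · rw [if_neg hb, ih]
      have hb' : ¬ (x.1 + ψ a = 0 ∧ bad (g x.2 a)) := fun h => hb ((dF_eq ψ g hf0 x a).2 h)
      have hd : dF ψ g bad f0 x a = (x.1 + ψ a, g x.2 a) := by
        unfold dF; rw [if_neg hb']
      rw [hd]
      constructor
      · rintro ⟨h1, h2⟩
        refine ⟨?_, ?_⟩
        · intro u v huv hu
          cases u with
          | nil => exact absurd rfl hu
          | cons c u =>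
            simp only [List.cons_append, List.cons.injEq] at huv
            obtain ⟨rfl, huv⟩ := huv
            by_cases hu' : u = []
            · subst hu'
              rw [ps_cons, ps_nil, add_zero]
              exact hb'
            · have := h1 u v huv hu'
              rw [ps_cons, ← add_assoc]
              exact this
        · rw [h2, ps_cons, ← add_assoc]; rfl
      · rintro ⟨h1, h2⟩
        refine ⟨?_, ?_⟩
        · intro u v huv hu
          have := h1 (a :: u) v (by rw [huv]; rfl) (by simp)
          rw [ps_cons, ← add_assoc] at this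
          exact this
        · rw [h2, ps_cons, ← add_assoc]; rfl

theorem CFb_dF (hf0 : bad f0) (a : α)
    (hgood : ∀ f y, ¬ bad (g f y) → y = a)
    (hcap : ψ a ≠ 0 → ∀ m f, p ≤ m → bad ((List.replicate m a).foldl g f))
    (hreset : ∀ u : List α, u ≠ [] → ps ψ u = 0 → ∀ f f', u.foldl g f = u.foldl g f') :
    CFb (dF ψ g bad f0) (0, f0) := by
  have hp : p.Prime := Fact.out
  intro q u k hk hit
  rw [foldl_pow, run_dF ψ g hf0] at hit
  obtain ⟨hA, hB⟩ := hit
  rw [run_dF ψ g hf0]
  have hW : (List.replicate k u).flatten = u ++ (List.replicate (k - 1) u).flatten := by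
    obtain ⟨k, rfl⟩ : ∃ k', k = k' + 1 := ⟨k - 1, by omega⟩
    rw [List.replicate_succ, List.flatten_cons]; simp
  have hW' : (List.replicate k u).flatten = (List.replicate (k - 1) u).flatten ++ u := by
    obtain ⟨k, rfl⟩ : ∃ k', k = k' + 1 := ⟨k - 1, by omega⟩
    rw [List.replicate_succ']; simp
  refine ⟨?_, ?_⟩
  · intro u1 u2 h12 h1
    exact hA u1 (u2 ++ (List.replicate (k - 1) u).flatten) (by rw [hW, h12]; simp) h1
  by_cases hu : u = []
  · subst hu; simp [ps_nil]
  have hB1 : (k : ZMod p) * ps ψ u = 0 := by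
    have := congrArg Prod.fst hB
    simp only [ps_pow] at this
    have h2 : q.1 + 0 = q.1 + (k : ZMod p) * ps ψ u := by rw [add_zero]; exact this
    exact (add_left_cancel h2).symm
  have hB2 : q.2 = (List.replicate k u).flatten.foldl g q.2 := congrArg Prod.snd hB
  by_cases hσ : ps ψ u = 0
  · apply Prod.ext
    · simp [hσ]
    · change q.2 = u.foldl g q.2
      conv_lhs => rw [hB2, hW', List.foldl_append]
      exact hreset u hu hσ _ _
  · exfalso
    have hk0 : (k : ZMod p) = 0 := by
      rcases mul_eq_zero.1 hB1 with h | h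
      · exact h
      · exact absurd h hσ
    have hpk : p ≤ k := Nat.le_of_dvd hk ((ZMod.natCast_eq_zero_iff k p).1 hk0)
    have hall : ∀ y ∈ u, y = a := by
      intro y hy
      obtain ⟨u1, u2, rfl⟩ := List.append_of_mem hy
      set σ := ps ψ (u1 ++ y :: u2) with hσdef
      set j := ((-(q.1 + ps ψ u1 + ψ y)) * σ⁻¹ : ZMod p).val with hj
      have hjp : j < p := ZMod.val_lt _
      have hjc : (j : ZMod p) = (-(q.1 + ps ψ u1 + ψ y)) * σ⁻¹ := by
        rw [hj, ZMod.natCast_zmod_val]
      have hWj : (List.replicate k (u1 ++ y :: u2)).flatten =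
          ((List.replicate j (u1 ++ y :: u2)).flatten ++ (u1 ++ [y])) ++
            (u2 ++ (List.replicate (k - j - 1) (u1 ++ y :: u2)).flatten) := by
        have : k = j + ((k - j - 1) + 1) := by omega
        conv_lhs => rw [this, List.replicate_add, List.flatten_append, List.replicate_succ,
          List.flatten_cons]
        simp
      have h1 := hA _ _ hWj (by simp)
      have h2 : q.1 + ps ψ ((List.replicate j (u1 ++ y :: u2)).flatten ++ (u1 ++ [y])) = 0 := by
        have e : ps ψ (u1 ++ [y]) = ps ψ u1 + ψ y := by simp [ps_append, ps_cons, ps_nil]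
        rw [ps_append, ps_pow, e, hjc, show ps ψ (u1 ++ y :: u2) = σ from rfl, mul_assoc,
          inv_mul_cancel₀ hσ]
        ring
      have h3 : ¬ bad (((List.replicate j (u1 ++ y :: u2)).flatten ++ (u1 ++ [y])).foldl g q.2) :=
        fun h => h1 ⟨h2, h⟩
      rw [List.foldl_append, List.foldl_append, List.foldl_cons, List.foldl_nil] at h3
      exact hgood _ _ h3
    obtain ⟨n, rfl⟩ : ∃ n, u = List.replicate n a := ⟨u.length, List.eq_replicate_iff.2 ⟨rfl, hall⟩⟩
    have hn : 0 < n := by
      rcases Nat.eq_zero_or_pos n with h | h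
      · subst h; simp at hu
      · exact h
    have hα : ψ a ≠ 0 := by
      intro h
      apply hσ
      rw [ps_replicate, h, mul_zero]
    have hflat : (List.replicate k (List.replicate n a)).flatten = List.replicate (k * n) a := by
      rw [List.flatten_replicate_replicate]
    rw [hflat] at hA hB2
    have hkn : p ≤ k * n := le_trans hpk (Nat.le_mul_of_pos_right k hn)
    obtain ⟨j, hj1, hj2, hj3⟩ : ∃ j : ℕ, 1 ≤ j ∧ j ≤ p ∧ q.1 + j * ψ a = 0 := by
      have hc : (((-q.1) * (ψ a)⁻¹ : ZMod p).val : ZMod p) = (-q.1) * (ψ a)⁻¹ :=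
        ZMod.natCast_zmod_val _
      rcases Nat.eq_zero_or_pos ((-q.1) * (ψ a)⁻¹ : ZMod p).val with h0 | h0
      · refine ⟨p, hp.one_lt.le, le_rfl, ?_⟩
        rw [h0, Nat.cast_zero] at hc
        have : q.1 = 0 := by
          rcases mul_eq_zero.1 hc.symm with h | h
          · exact neg_eq_zero.1 h
          · exact absurd (inv_eq_zero.1 h) hα
        rw [this]; simp
      · refine ⟨_, h0, (ZMod.val_lt _).le, ?_⟩
        rw [hc, mul_assoc, inv_mul_cancel₀ hα]; ring
    have hrep : List.replicate (k * n) a = List.replicate j a ++ List.replicate (k * n - j) a := by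
      rw [← List.replicate_add]; congr 1; omega
    have h1 := hA _ _ hrep (by
      intro h
      have := congrArg List.length h
      simp at this; omega)
    apply h1
    refine ⟨by rw [ps_replicate]; exact hj3, ?_⟩
    rw [hB2, ← List.foldl_append, ← List.replicate_add]
    exact hcap hα _ _ (by omega)

end flags

/-! ### The three automata -/

theorem CFb_V (a : α) : CFb (dF ψ (fun (_ : Unit) (_ : α) => ()) (fun _ => True) ()) (0, ()) :=
  CFb_dF ψ _ trivial a (fun _ _ h => absurd trivial h) (fun _ _ _ _ => trivial)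
    (fun _ _ _ _ _ => rfl)

theorem run_V (x : ZMod p) (w : List α) :
    w.foldl (dF ψ (fun (_ : Unit) (_ : α) => ()) (fun _ => True) ()) (x, ()) =
      (x + ps ψ w, ()) := by
  induction w using List.reverseRecOn with
  | nil => simp [ps_nil]
  | append_singleton w y ih =>
    rw [List.foldl_append, ih, List.foldl_cons, List.foldl_nil, dF, ps_append, ps_cons, ps_nil]
    split_ifs with h
    · have h1 : x + ps ψ w + ψ y = 0 := h.1
      rw [Prod.mk.injEq]
      refine ⟨?_, rfl⟩
      rw [add_zero, ← add_assoc, h1]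
    · rw [Prod.mk.injEq]
      exact ⟨by rw [add_zero, add_assoc], rfl⟩

theorem Ct_V [Finite α] (a : α) (x : ZMod p) :
    Ct (pc (fun u : List α => u ≠ [] ∧ x + ps ψ u = 0)) := by
  refine (Ct.vis (CFb_V ψ a) (x, ())).congr ?_
  intro w
  apply pc_congr
  intro u
  rw [run_V]
  simp

theorem HS_ps [Finite α] (a : α) (i : ZMod p) : HS 1 {w : List α | ps ψ w = i} := by
  have := run1 (CFb_V ψ a) (0, ()) (i, ())
  convert this using 1
  ext w
  rw [Set.mem_ofPred_eq, Set.mem_ofPred_eq, run_V]
  simp

variable (a : α)

open Classical in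
theorem CFb_K (h0 : ψ a = 0) :
    CFb (dF ψ (fun (_ : Bool) (y : α) => decide (y = a)) (fun f => f = false) false) (0, false) := by
  refine CFb_dF ψ _ (bad := fun f => f = false) rfl a ?_ ?_ ?_
  · intro f y h
    simpa using h
  · intro h; exact absurd h0 h
  · intro u hu _ f f'
    rcases List.eq_nil_or_concat u with rfl | ⟨v, y, rfl⟩
    · exact absurd rfl hu
    · simp

open Classical in
theorem run_K (x : ZMod p) (w : List α) (y : α) :
    (w ++ [y]).foldl (dF ψ (fun (_ : Bool) (y : α) => decide (y = a)) (fun f => f = false) false)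
      (x, false) = (x + ps ψ (w ++ [y]), decide (y = a)) := by
  have step : ∀ (z : ZMod p × Bool) (y : α),
      dF ψ (fun (_ : Bool) (y : α) => decide (y = a)) (fun f => f = false) false z y =
        (z.1 + ψ y, decide (y = a)) := by
    intro z y
    unfold dF
    split_ifs with h
    · have h2 : decide (y = a) = false := h.2
      rw [h.1, h2]
    · rfl
  have fst : ∀ w : List α, (w.foldl (dF ψ (fun (_ : Bool) (y : α) => decide (y = a))
      (fun f => f = false) false) (x, false)).1 = x + ps ψ w := by
    intro w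
    induction w using List.reverseRecOn with
    | nil => simp [ps_nil]
    | append_singleton w y ih =>
      rw [List.foldl_append, List.foldl_cons, List.foldl_nil, step, ih, ps_append, ps_cons, ps_nil]
      ring
  rw [List.foldl_append, List.foldl_cons, List.foldl_nil, step, fst, ps_append, ps_cons, ps_nil]
  rw [Prod.mk.injEq]
  exact ⟨by ring, rfl⟩

/-- words ending with `a` -/
def En (u : List α) : Prop := ∃ u', u = u' ++ [a]

theorem En_snoc (w : List α) (y : α) : En a (w ++ [y]) ↔ y = a := by
  constructor
  · rintro ⟨u', h⟩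
    have := List.append_inj' h rfl
    simpa using this.2
  · rintro rfl; exact ⟨w, rfl⟩

theorem Ct_kernel [Finite α] (h0 : ψ a = 0) (x : ZMod p) :
    Ct (pc (fun u : List α => x + ps ψ u = 0 ∧ En a u)) := by
  classical
  refine ((Ct_V ψ a x).sub (Ct.vis (CFb_K ψ a h0) (x, false))).congr ?_
  intro w
  rw [pc_split (fun u => u ≠ [] ∧ x + ps ψ u = 0) (En a)]
  have e1 : pc (fun u => (u ≠ [] ∧ x + ps ψ u = 0) ∧ ¬ En a u) w =
      pc (fun u => u ≠ [] ∧ u.foldl (dF ψ (fun (_ : Bool) (y : α) => decide (y = a))
        (fun f => f = false) false) (x, false) = (0, false)) w := by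
    apply pc_congr
    intro u
    rcases List.eq_nil_or_concat u with rfl | ⟨v, y, rfl⟩
    · simp
    · rw [List.concat_eq_append, run_K, En_snoc]
      simp
  have e2 : pc (fun u => (u ≠ [] ∧ x + ps ψ u = 0) ∧ En a u) w =
      pc (fun u => x + ps ψ u = 0 ∧ En a u) w := by
    apply pc_congr
    intro u
    constructor
    · rintro ⟨⟨_, h⟩, h2⟩; exact ⟨h, h2⟩
    · rintro ⟨h, h2⟩
      refine ⟨⟨?_, h⟩, h2⟩
      obtain ⟨u', rfl⟩ := h2
      simp
  rw [e1, e2]
  ring

end

end Pool.Agent.H815R3.GSH
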